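import Pool.Agent.U581.BM.Abs

/-!
# Brownian paths on the unit interval
-/

set_option autoImplicit false

namespace Pool.Agent.U581.BM

open Real MeasureTheory Filter Topology ProbabilityTheory
open scoped NNReal

/-- a point of the unit interval as a nonnegative number -/
def tm (t : unitInterval) : ℝ≥0 := ⟨t, t.2.1⟩

theorem tm_cont : Continuous tm := by
  unfold tm
  fun_prop

/-- the restriction of a path of `B` to the unit interval, as a continuous function -/
noncomputable def bpath {Ω : Type*} (B : ℝ≥0 → Ω → ℝ) (ω : Ω) : C(unitInterval, ℝ) :=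
  ContinuousMap.mkD (fun t : unitInterval => B (tm t) ω) 0

variable {Ω : Type*} [MeasurableSpace Ω] {P : Measure Ω} {B : ℝ≥0 → Ω → ℝ}

theorem bpath_apply (hB : IsBrownianReal B P) : ∀ᵐ ω ∂P, ∀ t, bpath B ω t = B (tm t) ω := by
  filter_upwards [hB.cont] with ω hω t
  exact ContinuousMap.mkD_apply_of_continuous (hω.comp tm_cont)

theorem bpath_aem [MeasurableSpace C(unitInterval, ℝ)] [BorelSpace C(unitInterval, ℝ)]
    (hB : IsBrownianReal B P) : AEMeasurable (bpath B) P := by
  refine aemeasurable_of_tendsto_metrizable_ae atTop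
    (f := fun N ω => polygon N (ext0 N (WithLp.toLp 2 fun i => B (tm (pt N i)) ω)))
    (fun N => ?_) ?_
  · have hc : Continuous fun z => polygon N (ext0 N z) := polygon_cont N fun i => ext0_cont N i
    refine hc.measurable.comp_aemeasurable ?_
    refine (WithLp.measurable_toLp 2 _).comp_aemeasurable ?_
    exact aemeasurable_pi_lambda _ fun i => hB.aemeasurable _
  · filter_upwards [bpath_apply hB] with ω hω
    have h := interp_tendsto (bpath B ω)
    refine h.congr fun N => ?_
    rw [← polygon_vals]
    unfold vals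
    simp_rw [hω]

theorem bchar (hB : IsBrownianReal B P) (N : ℕ) (θ : ℕ → ℝ) :
    ∫ ω, Complex.exp (((∑ i ∈ Finset.range (N + 1),
      θ i * bpath B ω (pt N i) : ℝ) : ℂ) * Complex.I) ∂P =
    ((exp (-((∑ i ∈ Finset.range (N + 1), ∑ j ∈ Finset.range (N + 1),
      θ i * θ j * min ((pt N i : unitInterval) : ℝ) ((pt N j : unitInterval) : ℝ)) / 2)) : ℝ) : ℂ) := by
  have hP : IsProbabilityMeasure P := hB.isGaussianProcess.isProbabilityMeasure
  have hG := (hB.isGaussianProcess.comp_right (fun i : ℕ => tm (pt N i))).smul θ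
  have hS := hG.hasGaussianLaw_fun_sum (I := Finset.range (N + 1))
  set S : Ω → ℝ := fun ω => ∑ i ∈ Finset.range (N + 1), θ i • (B ∘ fun i => tm (pt N i)) i ω with hSd
  have e1 : ∫ ω, Complex.exp (((∑ i ∈ Finset.range (N + 1),
      θ i * bpath B ω (pt N i) : ℝ) : ℂ) * Complex.I) ∂P = charFun (P.map S) 1 := by
    rw [charFun_apply, integral_map hS.aemeasurable (by fun_prop)]
    apply integral_congr_ae
    filter_upwards [bpath_apply hB] with ω hω
    simp only [hω]
    congr 2
    rw [hSd]
    simp
  have hm2 : ∀ i ∈ Finset.range (N + 1), MemLp (fun ω => θ i • (B ∘ fun i => tm (pt N i)) i ω) 2 P :=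
    fun i _ => (hG.hasGaussianLaw_eval i).memLp_two
  have hmean : ∫ ω, S ω ∂P = 0 := by
    rw [hSd, integral_finsetSum _ fun i hi => (hm2 i hi).integrable (by norm_num)]
    apply Finset.sum_eq_zero
    intro i _
    simp only [smul_eq_mul, Function.comp_apply]
    rw [integral_const_mul]
    have := hB.integral_eval (tm (pt N i))
    rw [this, mul_zero]
  have hvar : Var[S; P] = ∑ i ∈ Finset.range (N + 1), ∑ j ∈ Finset.range (N + 1),
      θ i * θ j * min ((pt N i : unitInterval) : ℝ) ((pt N j : unitInterval) : ℝ) := by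
    rw [hSd, variance_fun_sum' hm2]
    apply Finset.sum_congr rfl
    intro i _
    apply Finset.sum_congr rfl
    intro j _
    have h1 := hB.covariance_eval (tm (pt N i)) (tm (pt N j))
    have h2 : cov[fun ω => θ i • (B ∘ fun i => tm (pt N i)) i ω,
        fun ω => θ j • (B ∘ fun i => tm (pt N i)) j ω; P] =
        θ i * (θ j * cov[B (tm (pt N i)), B (tm (pt N j)); P]) := by
      simp only [smul_eq_mul, Function.comp_apply]
      rw [covariance_const_mul_left, covariance_const_mul_right]
    rw [h2, h1]
    rw [mul_assoc]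
    rfl
  rw [e1, hS.charFun_map_eq]
  have e2 : (fun ω => inner ℝ (1 : ℝ) (S ω)) = S := by
    funext ω
    simp
  rw [e2]
  have e3 : P[S] = 0 := hmean
  rw [hvar]
  simp only [e3]
  push_cast
  rw [zero_mul, zero_sub]

end Pool.Agent.U581.BM
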