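import Pool.Agent.U581.BM.Poly

/-!
# An abstract invariance principle
-/

set_option autoImplicit false

namespace Pool.Agent.U581.BM

open Real MeasureTheory Filter Topology
open scoped BoundedContinuousFunction

theorem polygon_congr {n : ℕ} {c c' : ℕ → ℝ} (h : ∀ i ≤ n, c i = c' i) :
    polygon n c = polygon n c' := by
  unfold polygon
  rw [h 0 (Nat.zero_le _)]
  congr 1
  apply Finset.sum_congr rfl
  intro k hk
  have := Finset.mem_range.1 hk
  rw [h k (by omega), h (k + 1) (by omega)]

theorem polygon_cont {Y : Type*} [TopologicalSpace Y] (n : ℕ) {c : Y → ℕ → ℝ}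
    (h : ∀ i, Continuous fun y => c y i) : Continuous fun y => polygon n (c y) := by
  unfold polygon
  refine Continuous.add ?_ ?_
  · exact ContinuousMap.continuous_const'.comp (h 0)
  · refine continuous_finsetSum _ fun k _ => ?_
    exact ((h (k + 1)).sub (h k)).smul continuous_const

theorem interp_cont (N : ℕ) : Continuous (interp N) :=
  polygon_cont N fun i => continuous_eval_const (pt N i)

/-- extension of a finite sequence by `0` -/
noncomputable def ext0 (N : ℕ) (z : EuclideanSpace ℝ (Fin (N + 1))) (i : ℕ) : ℝ :=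
  if h : i < N + 1 then z ⟨i, h⟩ else 0

theorem ext0_cont (N i : ℕ) : Continuous fun z => ext0 N z i := by
  unfold ext0
  split_ifs with h
  · fun_prop
  · exact continuous_const

/-- the values at the points of the grid -/
noncomputable def vals (N : ℕ) (w : C(unitInterval, ℝ)) : EuclideanSpace ℝ (Fin (N + 1)) :=
  WithLp.toLp 2 fun i => w (pt N i)

theorem vals_cont (N : ℕ) : Continuous (vals N) := by
  unfold vals
  refine (PiLp.continuous_toLp 2 _).comp (continuous_pi fun i => ?_)
  exact continuous_eval_const _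

theorem polygon_vals (N : ℕ) (w : C(unitInterval, ℝ)) :
    polygon N (ext0 N (vals N w)) = interp N w := by
  unfold interp
  apply polygon_congr
  intro i hi
  unfold ext0 vals
  rw [dif_pos (by omega)]

theorem inner_vals (N : ℕ) (w : C(unitInterval, ℝ)) (θ : EuclideanSpace ℝ (Fin (N + 1))) :
    inner ℝ (vals N w) θ = ∑ i ∈ Finset.range (N + 1), ext0 N θ i * w (pt N i) := by
  rw [PiLp.inner_apply, ← Fin.sum_univ_eq_sum_range (fun i => ext0 N θ i * w (pt N i)) (N + 1)]
  apply Finset.sum_congr rfl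
  intro i _
  have h1 : ext0 N θ i = θ i := by
    unfold ext0
    rw [dif_pos i.2]
  rw [h1]
  simp [vals]

section

variable {Ω : Type*} [MeasurableSpace Ω] {Ω' : Type*} [MeasurableSpace Ω'] {P : Measure Ω'}
  [IsProbabilityMeasure P] {ν : ℕ → Measure Ω} [∀ j, IsProbabilityMeasure (ν j)]
  [MeasurableSpace C(unitInterval, ℝ)] [BorelSpace C(unitInterval, ℝ)]
  {X : ℕ → Ω → C(unitInterval, ℝ)} {Z : Ω' → C(unitInterval, ℝ)}

/-- convergence of the interpolated functionals -/
theorem fidi (hX : ∀ j, Measurable (X j)) (hZ : AEMeasurable Z P) (N : ℕ)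
    (h1 : ∀ θ : ℕ → ℝ, Tendsto (fun j => ∫ x, Complex.exp (((∑ i ∈ Finset.range (N + 1),
      θ i * X j x (pt N i) : ℝ) : ℂ) * Complex.I) ∂ν j) atTop
      (𝓝 (∫ ω, Complex.exp (((∑ i ∈ Finset.range (N + 1),
      θ i * Z ω (pt N i) : ℝ) : ℂ) * Complex.I) ∂P)))
    (F : C(unitInterval, ℝ) →ᵇ ℝ) :
    Tendsto (fun j => ∫ x, F (interp N (X j x)) ∂ν j) atTop
      (𝓝 (∫ ω, F (interp N (Z ω)) ∂P)) := by
  have hv : Measurable (vals N) := (vals_cont N).measurable
  have hVX : ∀ j, AEMeasurable (fun x => vals N (X j x)) (ν j) :=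
    fun j => (hv.comp (hX j)).aemeasurable
  have hVZ : AEMeasurable (fun ω => vals N (Z ω)) P := hv.comp_aemeasurable hZ
  let μ : ℕ → ProbabilityMeasure (EuclideanSpace ℝ (Fin (N + 1))) := fun j =>
    ⟨(ν j).map (fun x => vals N (X j x)), Measure.isProbabilityMeasure_map (hVX j)⟩
  let μ₀ : ProbabilityMeasure (EuclideanSpace ℝ (Fin (N + 1))) :=
    ⟨P.map (fun ω => vals N (Z ω)), Measure.isProbabilityMeasure_map hVZ⟩
  have hconv : Tendsto μ atTop (𝓝 μ₀) := by
    refine ProbabilityMeasure.tendsto_iff_tendsto_charFun.2 fun θ => ?_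
    have e1 : ∀ j, charFun ((μ j : ProbabilityMeasure _) : Measure _) θ =
        ∫ x, Complex.exp (((∑ i ∈ Finset.range (N + 1),
          ext0 N θ i * X j x (pt N i) : ℝ) : ℂ) * Complex.I) ∂ν j := by
      intro j
      show charFun ((ν j).map (fun x => vals N (X j x))) θ = _
      rw [charFun_apply, integral_map (hVX j) (by fun_prop)]
      simp_rw [inner_vals]
    have e2 : charFun ((μ₀ : ProbabilityMeasure _) : Measure _) θ =
        ∫ ω, Complex.exp (((∑ i ∈ Finset.range (N + 1),
          ext0 N θ i * Z ω (pt N i) : ℝ) : ℂ) * Complex.I) ∂P := by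
      show charFun (P.map (fun ω => vals N (Z ω))) θ = _
      rw [charFun_apply, integral_map hVZ (by fun_prop)]
      simp_rw [inner_vals]
    simp_rw [e1]
    rw [e2]
    exact h1 _
  rw [ProbabilityMeasure.tendsto_iff_forall_integral_tendsto] at hconv
  have hc : Continuous fun z => polygon N (ext0 N z) := polygon_cont N fun i => ext0_cont N i
  have hF : Continuous fun z => F (polygon N (ext0 N z)) := F.continuous.comp hc
  have h2 := hconv (F.compContinuous ⟨fun z => polygon N (ext0 N z), hc⟩)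
  have e3 : ∀ j, ∫ z, (F.compContinuous ⟨fun z => polygon N (ext0 N z), hc⟩) z ∂(μ j : Measure _) =
      ∫ x, F (interp N (X j x)) ∂ν j := by
    intro j
    show ∫ z, F (polygon N (ext0 N z)) ∂((ν j).map (fun x => vals N (X j x))) = _
    rw [integral_map (hVX j) hF.aestronglyMeasurable]
    simp_rw [polygon_vals]
  have e4 : ∫ z, (F.compContinuous ⟨fun z => polygon N (ext0 N z), hc⟩) z ∂(μ₀ : Measure _) =
      ∫ ω, F (interp N (Z ω)) ∂P := by
    show ∫ z, F (polygon N (ext0 N z)) ∂(P.map (fun ω => vals N (Z ω))) = _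
    rw [integral_map hVZ hF.aestronglyMeasurable]
    simp_rw [polygon_vals]
  simp_rw [e3] at h2
  rw [e4] at h2
  exact h2

/-- **an abstract invariance principle** -/
theorem donsker_abs (hX : ∀ j, Measurable (X j)) (hZ : AEMeasurable Z P)
    (h1 : ∀ (N : ℕ) (θ : ℕ → ℝ), Tendsto (fun j => ∫ x, Complex.exp (((∑ i ∈ Finset.range (N + 1),
      θ i * X j x (pt N i) : ℝ) : ℂ) * Complex.I) ∂ν j) atTop
      (𝓝 (∫ ω, Complex.exp (((∑ i ∈ Finset.range (N + 1),
      θ i * Z ω (pt N i) : ℝ) : ℂ) * Complex.I) ∂P)))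
    (h2 : ∀ ε : ℝ, 0 < ε → ∀ η : ℝ, 0 < η → ∃ N0 : ℕ, ∀ N ≥ N0, ∀ᶠ j in atTop,
      (ν j).real {x | ε < ‖X j x - interp N (X j x)‖} ≤ η)
    (F : C(unitInterval, ℝ) →ᵇ ℝ) :
    Tendsto (fun j => ∫ x, F (X j x) ∂ν j) atTop (𝓝 (∫ ω, F (Z ω) ∂P)) := by
  have hXa : ∀ j, AEMeasurable (X j) (ν j) := fun j => (hX j).aemeasurable
  let μ : ℕ → ProbabilityMeasure C(unitInterval, ℝ) := fun j =>
    ⟨(ν j).map (X j), Measure.isProbabilityMeasure_map (hXa j)⟩
  let μ₀ : ProbabilityMeasure C(unitInterval, ℝ) :=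
    ⟨P.map Z, Measure.isProbabilityMeasure_map hZ⟩
  have hconv : Tendsto μ atTop (𝓝 μ₀) := by
    rw [tendsto_iff_forall_lipschitz_integral_tendsto]
    rintro f ⟨C, hC⟩ ⟨L, hL⟩
    have hfc := hL.continuous
    -- the bounded continuous function
    let Fb : C(unitInterval, ℝ) →ᵇ ℝ := ⟨⟨f, hfc⟩, ⟨C, hC⟩⟩
    have e1 : ∀ j, ∫ z, f z ∂(μ j : Measure _) = ∫ x, f (X j x) ∂ν j := fun j =>
      integral_map (hXa j) hfc.aestronglyMeasurable
    have e2 : ∫ z, f z ∂(μ₀ : Measure _) = ∫ ω, f (Z ω) ∂P :=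
      integral_map hZ hfc.aestronglyMeasurable
    simp_rw [e1]
    rw [e2]
    have hC0 : 0 ≤ C := dist_nonneg.trans (hC 0 0)
    obtain ⟨B, hB⟩ : ∃ B : ℝ, B = ‖Fb‖ := ⟨_, rfl⟩
    have hB0 : 0 ≤ B := by rw [hB]; exact norm_nonneg _
    have hfB : ∀ z, ‖f z‖ ≤ B := fun z => by rw [hB]; exact Fb.norm_coe_le_norm z
    -- the limit in `N`
    have hlim : Tendsto (fun N => ∫ ω, f (interp N (Z ω)) ∂P) atTop (𝓝 (∫ ω, f (Z ω) ∂P)) := by
      refine tendsto_integral_of_dominated_convergence (fun _ => B) (fun N => ?_)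
        (integrable_const _) (fun N => ?_) ?_
      · exact ((hfc.comp (interp_cont N)).measurable.comp_aemeasurable hZ).aestronglyMeasurable
      · exact Eventually.of_forall fun ω => hfB _
      · exact Eventually.of_forall fun ω => (hfc.tendsto _).comp (interp_tendsto (Z ω))
    rw [Metric.tendsto_atTop]
    intro η hη
    obtain ⟨ε, hε, hεL⟩ : ∃ ε : ℝ, 0 < ε ∧ L * ε ≤ η / 8 := by
      refine ⟨η / (8 * (L + 1)), by positivity, ?_⟩
      rw [mul_div_assoc', div_le_div_iff₀ (by positivity) (by positivity)]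
      have : (0 : ℝ) ≤ L := L.2
      nlinarith
    obtain ⟨N0, hN0⟩ := h2 ε hε (η / (16 * (B + 1))) (by positivity)
    rw [Metric.tendsto_atTop] at hlim
    obtain ⟨N1, hN1⟩ := hlim (η / 4) (by positivity)
    set N := max N0 N1 with hN
    have h3 := hN1 N (le_max_right _ _)
    have h4 := hN0 N (le_max_left _ _)
    have h5 := fidi (ν := ν) (P := P) hX hZ N (h1 N) Fb
    rw [Metric.tendsto_atTop] at h5
    obtain ⟨j1, hj1⟩ := h5 (η / 4) (by positivity)
    obtain ⟨j2, hj2⟩ := eventually_atTop.1 h4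
    refine ⟨max j1 j2, fun j hj => ?_⟩
    have h6 := hj1 j ((le_max_left _ _).trans hj)
    have h7 := hj2 j ((le_max_right _ _).trans hj)
    have h8 : |(∫ x, f (X j x) ∂ν j) - ∫ x, f (interp N (X j x)) ∂ν j| ≤ η / 4 := by
      have i1 : Integrable (fun x => f (X j x)) (ν j) :=
        Integrable.of_bound (hfc.measurable.comp (hX j)).aestronglyMeasurable B
          (Eventually.of_forall fun x => hfB _)
      have i2 : Integrable (fun x => f (interp N (X j x))) (ν j) :=
        Integrable.of_bound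
          (((hfc.comp (interp_cont N)).measurable).comp (hX j)).aestronglyMeasurable B
          (Eventually.of_forall fun x => hfB _)
      rw [← integral_sub i1 i2]
      have hmS : MeasurableSet {x | ε < ‖X j x - interp N (X j x)‖} := by
        have hc : Continuous fun w : C(unitInterval, ℝ) => ‖w - interp N w‖ :=
          (continuous_id.sub (interp_cont N)).norm
        exact measurableSet_lt measurable_const (hc.measurable.comp (hX j))
      have hbound : ∀ x, |f (X j x) - f (interp N (X j x))| ≤ L * ε +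
          Set.indicator {x | ε < ‖X j x - interp N (X j x)‖} (fun _ => 2 * B) x := by
        intro x
        by_cases hx : x ∈ {x | ε < ‖X j x - interp N (X j x)‖}
        · rw [Set.indicator_of_mem hx]
          have q1 := hfB (X j x)
          have q2 := hfB (interp N (X j x))
          rw [Real.norm_eq_abs] at q1 q2
          have q3 : (0 : ℝ) ≤ L * ε := by positivity
          refine (abs_sub _ _).trans ?_
          linarith
        · rw [Set.indicator_of_notMem hx, add_zero]
          have hx' : ‖X j x - interp N (X j x)‖ ≤ ε := not_lt.1 hx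
          have q1 := hL.dist_le_mul (X j x) (interp N (X j x))
          rw [Real.dist_eq, dist_eq_norm] at q1
          exact q1.trans (mul_le_mul_of_nonneg_left hx' L.2)
      have hint : Integrable (fun x => L * ε +
          Set.indicator {x | ε < ‖X j x - interp N (X j x)‖} (fun _ => 2 * B) x) (ν j) :=
        (integrable_const _).add ((integrable_const _).indicator hmS)
      calc |∫ x, (f (X j x) - f (interp N (X j x))) ∂ν j|
          ≤ ∫ x, |f (X j x) - f (interp N (X j x))| ∂ν j := abs_integral_le_integral_abs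
        _ ≤ ∫ x, (L * ε + Set.indicator {x | ε < ‖X j x - interp N (X j x)‖}
            (fun _ => 2 * B) x) ∂ν j := integral_mono (i1.sub i2).abs hint hbound
        _ = L * ε + (ν j).real {x | ε < ‖X j x - interp N (X j x)‖} * (2 * B) := by
            rw [integral_add (integrable_const _) ((integrable_const _).indicator hmS),
              integral_indicator_const _ hmS]
            simp
        _ ≤ η / 8 + (η / (16 * (B + 1))) * (2 * B) := by gcongr
        _ ≤ η / 8 + η / 8 := by
            gcongr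
            rw [div_mul_eq_mul_div, div_le_div_iff₀ (by positivity) (by positivity)]
            nlinarith
        _ = η / 4 := by ring
    have h6' : |(∫ x, f (interp N (X j x)) ∂ν j) - ∫ ω, f (interp N (Z ω)) ∂P| < η / 4 := by
      rw [← Real.dist_eq]
      exact h6
    have h3' : |(∫ ω, f (interp N (Z ω)) ∂P) - ∫ ω, f (Z ω) ∂P| < η / 4 := by
      rw [← Real.dist_eq]
      exact h3
    rw [Real.dist_eq]
    have e3 : (∫ x, f (X j x) ∂ν j) - ∫ ω, f (Z ω) ∂P =
      ((∫ x, f (X j x) ∂ν j) - ∫ x, f (interp N (X j x)) ∂ν j) +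
      ((∫ x, f (interp N (X j x)) ∂ν j) - ∫ ω, f (interp N (Z ω)) ∂P) +
      ((∫ ω, f (interp N (Z ω)) ∂P) - ∫ ω, f (Z ω) ∂P) := by ring
    rw [e3]
    have t1 := abs_add_le (((∫ x, f (X j x) ∂ν j) - ∫ x, f (interp N (X j x)) ∂ν j) +
      ((∫ x, f (interp N (X j x)) ∂ν j) - ∫ ω, f (interp N (Z ω)) ∂P))
      ((∫ ω, f (interp N (Z ω)) ∂P) - ∫ ω, f (Z ω) ∂P)
    have t2 := abs_add_le ((∫ x, f (X j x) ∂ν j) - ∫ x, f (interp N (X j x)) ∂ν j)
      ((∫ x, f (interp N (X j x)) ∂ν j) - ∫ ω, f (interp N (Z ω)) ∂P)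
    linarith
  rw [ProbabilityMeasure.tendsto_iff_forall_integral_tendsto] at hconv
  have h3 := hconv F
  have e1 : ∀ j, ∫ z, F z ∂(μ j : Measure _) = ∫ x, F (X j x) ∂ν j := fun j =>
    integral_map (hXa j) F.continuous.aestronglyMeasurable
  have e2 : ∫ z, F z ∂(μ₀ : Measure _) = ∫ ω, F (Z ω) ∂P :=
    integral_map hZ F.continuous.aestronglyMeasurable
  simp_rw [e1] at h3
  rwa [e2] at h3

end

end Pool.Agent.U581.BM
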