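import Pool.Agent.U581.BM.Weights

/-!
# The invariance principle for observables of the standard map
-/

set_option autoImplicit false

namespace Pool.Agent.U581.BM

open Real MeasureTheory Filter Topology Function Pool.Agent.TH705.SM ProbabilityTheory
open scoped BoundedContinuousFunction NNReal

/-- an observable with bounds, mean `0` and second moment `v` -/
structure One (f f' : ℝ → ℝ) (M v : ℝ) : Prop where
  d : ∀ x, HasDerivAt f (f' x) x
  c : Continuous f'
  p : Periodic f 1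
  le : ∀ x, |f x| ≤ M
  le' : ∀ x, |f' x| ≤ M
  mean : ∫ x in (0:ℝ)..1, f x = 0
  pos : 0 < v
  mom : ∫ x in (0:ℝ)..1, f x ^ 2 = v

variable {f f' : ℝ → ℝ} {M v : ℝ}

theorem One.cont (O : One f f' M v) : Continuous f :=
  continuous_iff_continuousAt.2 fun t => (O.d t).continuousAt

theorem One.M0 (O : One f f' M v) : 0 ≤ M := (abs_nonneg _).trans (O.le 0)

theorem One.obs (O : One f f' M v) {W : ℕ → ℝ} {Θ : ℝ} (hW : ∀ k, |W k| ≤ Θ) :
    Obs (fun k x => W k * f x) (fun k x => W k * f' x) (Θ * M) where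
  d := fun k x => (O.d x).const_mul (W k)
  c := fun k => O.c.const_mul (W k)
  p := fun k x => by show W k * f (x + 1) = W k * f x; rw [O.p x]
  le := fun k x => by
    rw [abs_mul]
    exact mul_le_mul (hW k) (O.le x) (abs_nonneg _) ((abs_nonneg _).trans (hW k))
  le' := fun k x => by
    rw [abs_mul]
    exact mul_le_mul (hW k) (O.le' x) (abs_nonneg _) ((abs_nonneg _).trans (hW k))
  mean := fun k => by rw [intervalIntegral.integral_const_mul, O.mean, mul_zero]

theorem One.sum_sq (O : One f f' M v) (W : ℕ → ℝ) (n : ℕ) :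
    ∑ k ∈ Finset.range n, sq (fun x => W k * f x) = (∑ k ∈ Finset.range n, W k ^ 2) * v := by
  rw [Finset.sum_mul]
  apply Finset.sum_congr rfl
  intro k _
  rw [sq_smul]
  unfold sq
  rw [O.mom]

/-- the normalised polygonal path of the sums of `f` along the orbit -/
noncomputable def xpath (a s : ℝ) (n : ℕ) (q : ℝ) (f : ℝ → ℝ) (t : ℝ) : C(unitInterval, ℝ) :=
  spath n q fun k => f (X a s (k + 1) t)

theorem xpath_cont (a s : ℝ) (n : ℕ) (q : ℝ) {f : ℝ → ℝ} (hf : Continuous f) :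
    Continuous (xpath a s n q f) := by
  unfold xpath spath
  refine polygon_cont n fun k => ?_
  refine Continuous.div_const ?_ q
  refine continuous_finsetSum _ fun i _ => ?_
  exact hf.comp (Xt_cont a s (i + 1))

theorem xpath_comb (a s : ℝ) (n : ℕ) (q : ℝ) (f : ℝ → ℝ) (t : ℝ) (N : ℕ) (θ : ℕ → ℝ) :
    ∑ i ∈ Finset.range (N + 1), θ i * xpath a s n q f t (pt N i) =
    (∑ k ∈ Finset.range n, (∑ i ∈ Finset.range (N + 1),
      θ i * cl (n * ((pt N i : unitInterval) : ℝ) - k)) * f (X a s (k + 1) t)) / q := by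
  unfold xpath
  simp_rw [spath_apply]
  simp_rw [Finset.sum_mul, Finset.sum_div, Finset.mul_sum]
  rw [Finset.sum_comm]
  apply Finset.sum_congr rfl
  intro k _
  apply Finset.sum_congr rfl
  intro i _
  ring

theorem weight_cov {n : ℕ} (hn : 0 < n) (N : ℕ) (θ : ℕ → ℝ) :
    |(∑ k ∈ Finset.range n, (∑ i ∈ Finset.range (N + 1),
      θ i * cl (n * ((pt N i : unitInterval) : ℝ) - k)) ^ 2) / n -
    ∑ i ∈ Finset.range (N + 1), ∑ j ∈ Finset.range (N + 1),
      θ i * θ j * min ((pt N i : unitInterval) : ℝ) ((pt N j : unitInterval) : ℝ)| ≤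
    (∑ i ∈ Finset.range (N + 1), |θ i|) ^ 2 * (1 / n) := by
  have e1 : (∑ k ∈ Finset.range n, (∑ i ∈ Finset.range (N + 1),
      θ i * cl (n * ((pt N i : unitInterval) : ℝ) - k)) ^ 2) / n =
      ∑ i ∈ Finset.range (N + 1), ∑ j ∈ Finset.range (N + 1), θ i * θ j *
        ((∑ k ∈ Finset.range n, cl (n * ((pt N i : unitInterval) : ℝ) - k) *
          cl (n * ((pt N j : unitInterval) : ℝ) - k)) / n) := by
    simp_rw [pow_two, Finset.sum_mul_sum]
    rw [Finset.sum_comm, Finset.sum_div]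
    apply Finset.sum_congr rfl
    intro i _
    rw [Finset.sum_comm, Finset.sum_div]
    apply Finset.sum_congr rfl
    intro j _
    rw [mul_div_assoc', Finset.mul_sum]
    congr 1
    apply Finset.sum_congr rfl
    intro k _
    ring
  rw [e1, ← Finset.sum_sub_distrib, pow_two, Finset.sum_mul_sum, Finset.sum_mul]
  refine (Finset.abs_sum_le_sum_abs _ _).trans (Finset.sum_le_sum fun i _ => ?_)
  rw [← Finset.sum_sub_distrib, Finset.sum_mul]
  refine (Finset.abs_sum_le_sum_abs _ _).trans (Finset.sum_le_sum fun j _ => ?_)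
  rw [← mul_sub, abs_mul, abs_mul]
  exact mul_le_mul_of_nonneg_left (cl_cov hn _ _) (by positivity)

section seq

variable {a : ℕ → ℝ} {n : ℕ → ℕ} {y : ℕ → ℝ}

theorem n_tendsto (ha : ∀ j, 1 ≤ |a j|) (hn : ∀ j, 1 ≤ n j)
    (hr : Tendsto (fun j => rate (a j) (n j)) atTop (𝓝 0)) :
    Tendsto (fun j => 1 / (n j : ℝ)) atTop (𝓝 0) := by
  refine squeeze_zero (fun j => by positivity) (fun j => ?_) hr
  have h1 := (rate_parts (ha j) (hn j)).1
  refine le_trans ?_ h1
  have hn1 : (1 : ℝ) ≤ n j := by exact_mod_cast hn j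
  apply one_div_le_one_div_of_le (by positivity)
  have h2 : √(n j : ℝ) * √(n j : ℝ) = n j := Real.mul_self_sqrt (by linarith)
  have h3 : 1 ≤ √(n j : ℝ) := Real.one_le_sqrt.2 hn1
  nlinarith

/-- convergence of the joint characteristic functions -/
theorem char_lim (O : One f f' M v) (ha : ∀ j, 1 ≤ |a j|) (hn : ∀ j, 1 ≤ n j)
    (hr : Tendsto (fun j => rate (a j) (n j)) atTop (𝓝 0)) {h : ℝ → ℝ} (hc : Continuous h)
    (hp : Periodic h 1) (h1 : ∀ x, |h x| ≤ 1) (N : ℕ) (θ : ℕ → ℝ) :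
    Tendsto (fun j => ∫ t in (0:ℝ)..1, Complex.exp (((∑ i ∈ Finset.range (N + 1),
      θ i * xpath (a j) (y j) (n j) (√(v * n j)) f t (pt N i) : ℝ) : ℂ) * Complex.I) *
      (h (X (a j) (y j) (n j + 1) t) : ℂ)) atTop
      (𝓝 (((exp (-((∑ i ∈ Finset.range (N + 1), ∑ j ∈ Finset.range (N + 1),
      θ i * θ j * min ((pt N i : unitInterval) : ℝ) ((pt N j : unitInterval) : ℝ)) / 2)) : ℝ) : ℂ) *
        ((∫ x in (0:ℝ)..1, h x : ℝ) : ℂ))) := by
  have hv := O.pos
  have hM := O.M0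
  set Θ : ℝ := ∑ i ∈ Finset.range (N + 1), |θ i| with hΘ
  have hΘ0 : 0 ≤ Θ := Finset.sum_nonneg fun _ _ => abs_nonneg _
  obtain ⟨C, hC, H⟩ := clt_h (M := Θ * M) (by positivity)
  set W : ℕ → ℕ → ℝ := fun j k => ∑ i ∈ Finset.range (N + 1),
    θ i * cl (n j * ((pt N i : unitInterval) : ℝ) - k) with hW
  have hWΘ : ∀ j k, |W j k| ≤ Θ := by
    intro j k
    refine (Finset.abs_sum_le_sum_abs _ _).trans (Finset.sum_le_sum fun i _ => ?_)
    have := cl_mem (n j * ((pt N i : unitInterval) : ℝ) - k)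
    rw [abs_mul, abs_of_nonneg this.1]
    exact mul_le_of_le_one_right (abs_nonneg _) this.2
  set S : ℝ := ∑ i ∈ Finset.range (N + 1), ∑ j ∈ Finset.range (N + 1),
      θ i * θ j * min ((pt N i : unitInterval) : ℝ) ((pt N j : unitInterval) : ℝ) with hS
  set τ : ℝ := 1 / √v with hτ
  have hτ0 : 0 ≤ τ := by positivity
  have hq : ∀ j, √(v * n j) = √v * √(n j : ℝ) := fun j => Real.sqrt_mul hv.le _
  -- the integrals
  have e1 : ∀ j, (∫ t in (0:ℝ)..1, Complex.exp (((∑ i ∈ Finset.range (N + 1),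
      θ i * xpath (a j) (y j) (n j) (√(v * n j)) f t (pt N i) : ℝ) : ℂ) * Complex.I) *
      (h (X (a j) (y j) (n j + 1) t) : ℂ)) =
      ∫ t in (0:ℝ)..1, E (τ / √(n j : ℝ) * Ss (a j) (y j) (fun k x => W j k * f x) (n j) t) *
      (h (X (a j) (y j) (n j + 1) t) : ℂ) := by
    intro j
    apply intervalIntegral.integral_congr
    intro t _
    simp only
    rw [xpath_comb, Ss_sum]
    unfold E
    congr 4
    rw [hq, hτ]
    ring
  simp_rw [e1]
  have e2 : ∀ j, τ ^ 2 * ((∑ k ∈ Finset.range (n j), sq (fun x => W j k * f x)) / n j) / 2 =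
      ((∑ k ∈ Finset.range (n j), W j k ^ 2) / n j) / 2 := by
    intro j
    rw [O.sum_sq]
    have h2 : τ ^ 2 * v = 1 := by
      rw [hτ, div_pow, Real.sq_sqrt hv.le]
      field_simp
    calc _ = (τ ^ 2 * v) * ((∑ k ∈ Finset.range (n j), W j k ^ 2) / n j) / 2 := by ring
      _ = _ := by rw [h2, one_mul]
  have hbound : ∀ j, ‖(∫ t in (0:ℝ)..1, E (τ / √(n j : ℝ) *
      Ss (a j) (y j) (fun k x => W j k * f x) (n j) t) * (h (X (a j) (y j) (n j + 1) t) : ℂ)) -
      ((exp (-(((∑ k ∈ Finset.range (n j), W j k ^ 2) / n j) / 2)) : ℝ) : ℂ) *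
        ((∫ x in (0:ℝ)..1, h x : ℝ) : ℂ)‖ ≤ C * (1 + τ) ^ 4 * rate (a j) (n j) := by
    intro j
    have h2 := H _ _ (O.obs (hWΘ j)) h hc hp h1 (a j) (ha j) (n j) (hn j) (y j) τ hτ0
    rw [e2] at h2
    exact h2
  have hlim0 : Tendsto (fun j => (∫ t in (0:ℝ)..1, E (τ / √(n j : ℝ) *
      Ss (a j) (y j) (fun k x => W j k * f x) (n j) t) * (h (X (a j) (y j) (n j + 1) t) : ℂ)) -
      ((exp (-(((∑ k ∈ Finset.range (n j), W j k ^ 2) / n j) / 2)) : ℝ) : ℂ) *
        ((∫ x in (0:ℝ)..1, h x : ℝ) : ℂ)) atTop (𝓝 0) := by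
    rw [tendsto_zero_iff_norm_tendsto_zero]
    have h3 : Tendsto (fun j => C * (1 + τ) ^ 4 * rate (a j) (n j)) atTop (𝓝 0) := by
      have := hr.const_mul (C * (1 + τ) ^ 4)
      rwa [mul_zero] at this
    exact squeeze_zero (fun j => norm_nonneg _) hbound h3
  have hWlim : Tendsto (fun j => (∑ k ∈ Finset.range (n j), W j k ^ 2) / (n j : ℝ)) atTop (𝓝 S) := by
    rw [tendsto_iff_norm_sub_tendsto_zero]
    have h3 : Tendsto (fun j => Θ ^ 2 * (1 / (n j : ℝ))) atTop (𝓝 0) := by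
      have := (n_tendsto ha hn hr).const_mul (Θ ^ 2)
      rwa [mul_zero] at this
    refine squeeze_zero (fun j => norm_nonneg _) (fun j => ?_) h3
    exact weight_cov (hn j) N θ
  have hg : Tendsto (fun j => ((exp (-(((∑ k ∈ Finset.range (n j), W j k ^ 2) / n j) / 2)) : ℝ) : ℂ)
      * ((∫ x in (0:ℝ)..1, h x : ℝ) : ℂ)) atTop
      (𝓝 (((exp (-(S / 2)) : ℝ) : ℂ) * ((∫ x in (0:ℝ)..1, h x : ℝ) : ℂ))) := by
    refine Tendsto.mul_const _ ?_
    have h4 : Continuous fun x : ℝ => ((exp (-(x / 2)) : ℝ) : ℂ) := by fun_prop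
    exact (h4.tendsto S).comp hWlim
  have := hlim0.add hg
  simpa using this

/-- tightness -/
theorem tight (O : One f f' M v) (ha : ∀ j, 1 ≤ |a j|) (hn : ∀ j, 1 ≤ n j)
    (hr : Tendsto (fun j => rate (a j) (n j)) atTop (𝓝 0)) {ε : ℝ} (hε : 0 < ε) {η : ℝ}
    (hη : 0 < η) : ∃ N0 : ℕ, ∀ N ≥ N0, ∀ᶠ j in atTop,
      volume.real {t : ℝ | t ∈ Set.Ioc (0:ℝ) 1 ∧
        ε < ‖xpath (a j) (y j) (n j) (√(v * n j)) f t -
          interp N (xpath (a j) (y j) (n j) (√(v * n j)) f t)‖} ≤ η := by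
  have hv := O.pos
  have hM := O.M0
  obtain ⟨C, hC, H⟩ := maxi hM
  obtain ⟨lam, hlamd⟩ : ∃ lam, lam = ε * √v / 4 := ⟨_, rfl⟩
  have hlam : 0 < lam := by rw [hlamd]; positivity
  obtain ⟨K, hK⟩ : ∃ K, K = 24 * v ^ 2 / lam ^ 4 := ⟨_, rfl⟩
  have hK0 : 0 ≤ K := by rw [hK]; positivity
  obtain ⟨N1, hN1⟩ := exists_nat_gt (2 * K / η)
  refine ⟨max N1 1, fun N hN => ?_⟩
  have hN0 : 0 < N := lt_of_lt_of_le one_pos ((le_max_right _ _).trans hN)
  have hNr : (0 : ℝ) < N := by exact_mod_cast hN0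
  have hKN : K / N ≤ η / 2 := by
    have h1 : (N1 : ℝ) ≤ N := by exact_mod_cast (le_max_left _ _).trans hN
    rw [div_lt_iff₀ hη] at hN1
    rw [div_le_div_iff₀ hNr (by norm_num)]
    nlinarith
  -- eventually the errors are small
  have ev1 : ∀ᶠ j in atTop, N * (C * (1 + 1 / lam) ^ 4 * rate (a j) (n j)) < η / 2 := by
    have : Tendsto (fun j => N * (C * (1 + 1 / lam) ^ 4 * rate (a j) (n j))) atTop (𝓝 0) := by
      have := (hr.const_mul (C * (1 + 1 / lam) ^ 4)).const_mul (N : ℝ)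
      rwa [mul_zero, mul_zero] at this
    exact this.eventually_lt_const (by positivity)
  have ev2 : ∀ᶠ j in atTop, M * rate (a j) (n j) < lam := by
    have : Tendsto (fun j => M * rate (a j) (n j)) atTop (𝓝 0) := by
      have := hr.const_mul M
      rwa [mul_zero] at this
    exact this.eventually_lt_const hlam
  filter_upwards [ev1, ev2] with j hj1 hj2
  have hnj := hn j
  have hnj0 : 0 < n j := hnj
  have hn1 : (1 : ℝ) ≤ n j := by exact_mod_cast hnj
  have hn0 : (0 : ℝ) < n j := by linarith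
  obtain ⟨r1, -, -, r4⟩ := rate_parts (ha j) hnj
  have hqd : √(v * n j) = √v * √(n j : ℝ) := Real.sqrt_mul hv.le _
  have hsv : 0 < √v := Real.sqrt_pos.2 hv
  have hsn : 0 < √(n j : ℝ) := Real.sqrt_pos.2 hn0
  have hq0 : 0 < √(v * n j) := by rw [hqd]; positivity
  have hMn : M ≤ lam * √(n j : ℝ) := by
    have h1 : M * (1 / √(n j : ℝ)) ≤ M * rate (a j) (n j) := mul_le_mul_of_nonneg_left r1 hM
    have h2 : M * (1 / √(n j : ℝ)) ≤ lam := h1.trans hj2.le
    rw [mul_one_div, div_le_iff₀ hsn] at h2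
    exact h2
  -- the weights of the blocks
  set W : ℕ → ℕ → ℝ := fun i k => cl (n j * ((i + 1 : ℕ) : ℝ) / N - k) -
    cl (n j * (i : ℝ) / N - k) with hW
  have hWm : ∀ i k, 0 ≤ W i k ∧ W i k ≤ 1 := by
    intro i k
    have h1 : cl (n j * (i : ℝ) / N - k) ≤ cl (n j * ((i + 1 : ℕ) : ℝ) / N - k) := by
      apply cl_mono
      push_cast
      gcongr
      linarith
    have h2 := cl_mem (n j * (i : ℝ) / N - k)
    have h3 := cl_mem (n j * ((i + 1 : ℕ) : ℝ) / N - k)
    rw [hW]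
    constructor
    · simp only
      linarith
    · simp only
      linarith
  have hWabs : ∀ i k, |W i k| ≤ 1 := fun i k => by
    rw [abs_of_nonneg (hWm i k).1]
    exact (hWm i k).2
  have hWsum : ∀ i < N, ∑ k ∈ Finset.range (n j), W i k ^ 2 ≤ n j / N := by
    intro i hi
    have hiN : (i : ℝ) + 1 ≤ N := by exact_mod_cast hi
    have h1 : ∑ k ∈ Finset.range (n j), W i k = n j / N := by
      rw [hW]
      simp only
      rw [Finset.sum_sub_distrib, cl_total (by positivity) (by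
        rw [div_le_iff₀ hNr]
        push_cast
        exact mul_le_mul_of_nonneg_left hiN hn0.le), cl_total (by positivity) (by
        rw [div_le_iff₀ hNr]
        exact mul_le_mul_of_nonneg_left (by linarith) hn0.le)]
      push_cast
      field_simp
      ring
    rw [← h1]
    apply Finset.sum_le_sum
    intro k _
    have := hWm i k
    nlinarith
  have hmax : ∀ i < N, volume.real {t : ℝ | t ∈ Set.Ioc (0:ℝ) 1 ∧ ∃ m ≤ n j,
      lam * √(n j : ℝ) ≤ |Ss (a j) (y j) (fun k x => W i k * f x) m t|} ≤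
      K / N ^ 2 + C * (1 + 1 / lam) ^ 4 * rate (a j) (n j) := by
    intro i hi
    have hO : Obs (fun k x => W i k * f x) (fun k x => W i k * f' x) M := by
      have := O.obs (hWabs i)
      rwa [one_mul] at this
    have h1 := H _ _ hO (a j) (ha j) (n j) hnj (y j) lam hlam
    refine h1.trans (add_le_add ?_ le_rfl)
    rw [O.sum_sq, hK]
    have h2 : (∑ k ∈ Finset.range (n j), W i k ^ 2) * v / n j ≤ v / N := by
      rw [div_le_div_iff₀ hn0 hNr]
      have := hWsum i hi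
      rw [le_div_iff₀ hNr] at this
      nlinarith
    have h3 : 0 ≤ (∑ k ∈ Finset.range (n j), W i k ^ 2) * v / n j := by
      have : 0 ≤ ∑ k ∈ Finset.range (n j), W i k ^ 2 := Finset.sum_nonneg fun _ _ => sq_nonneg _
      positivity
    calc 24 * ((∑ k ∈ Finset.range (n j), W i k ^ 2) * v / n j) ^ 2 / lam ^ 4 ≤
          24 * (v / N) ^ 2 / lam ^ 4 := by gcongr
      _ = _ := by field_simp
  -- the inclusion
  have hsub : {t : ℝ | t ∈ Set.Ioc (0:ℝ) 1 ∧
        ε < ‖xpath (a j) (y j) (n j) (√(v * n j)) f t -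
          interp N (xpath (a j) (y j) (n j) (√(v * n j)) f t)‖} ⊆
      ⋃ i ∈ Finset.range N, {t : ℝ | t ∈ Set.Ioc (0:ℝ) 1 ∧ ∃ m ≤ n j,
      lam * √(n j : ℝ) ≤ |Ss (a j) (y j) (fun k x => W i k * f x) m t|} := by
    rintro t ⟨ht, hlt⟩
    by_contra hcon
    simp only [Set.mem_iUnion, Set.mem_ofPred_eq, not_exists, not_and, not_le,
      Finset.mem_range] at hcon
    have h1 := interp_err hN0 (xpath (a j) (y j) (n j) (√(v * n j)) f t)
      (ε := (lam * √(n j : ℝ) + M) / √(v * n j)) (by positivity) (fun i hi r hr1 hr2 => by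
        have h2 := hcon i hi ht
        refine spath_block hnj0 hq0 (fun k => f (X (a j) (y j) (k + 1) t))
          (fun k => O.le _) (u := n j * (i : ℝ) / N) (w := n j * ((i + 1 : ℕ) : ℝ) / N)
          (s := pt N i) (t := r) ?_ ?_ ?_ (fun m hm => ?_)
        · rw [pt_val hN0 hi.le]
          ring
        · rw [div_le_iff₀ hNr, mul_assoc]
          apply mul_le_mul_of_nonneg_left _ hn0.le
          linarith
        · rw [le_div_iff₀ hNr, mul_assoc]
          apply mul_le_mul_of_nonneg_left _ hn0.le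
          push_cast
          linarith
        · have h3 := (h2 m hm).le
          rw [Ss_sum] at h3
          refine le_trans (le_of_eq ?_) h3
          congr 1
          apply Finset.sum_congr rfl
          intro k _
          rw [hW]
          ring)
    have h4 : 2 * ((lam * √(n j : ℝ) + M) / √(v * n j)) ≤ ε := by
      have h5 : lam * √(n j : ℝ) + M ≤ 2 * (lam * √(n j : ℝ)) := by linarith
      have h6 : (lam * √(n j : ℝ) + M) / √(v * n j) ≤ 2 * (lam * √(n j : ℝ)) / √(v * n j) :=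
        div_le_div_of_nonneg_right h5 hq0.le
      have h7 : 2 * (lam * √(n j : ℝ)) / √(v * n j) = ε / 2 := by
        rw [hqd, hlamd]
        field_simp
        norm_num
      linarith
    linarith
  calc _ ≤ volume.real (⋃ i ∈ Finset.range N, {t : ℝ | t ∈ Set.Ioc (0:ℝ) 1 ∧ ∃ m ≤ n j,
      lam * √(n j : ℝ) ≤ |Ss (a j) (y j) (fun k x => W i k * f x) m t|}) := by
        refine measureReal_mono hsub ?_
        have h1 : (⋃ i ∈ Finset.range N, {t : ℝ | t ∈ Set.Ioc (0:ℝ) 1 ∧ ∃ m ≤ n j,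
          lam * √(n j : ℝ) ≤ |Ss (a j) (y j) (fun k x => W i k * f x) m t|}) ⊆
            Set.Ioc (0:ℝ) 1 := by
          intro t ht
          simp only [Set.mem_iUnion] at ht
          obtain ⟨i, -, hi⟩ := ht
          exact hi.1
        exact ((measure_mono h1).trans_lt (by simp)).ne
    _ ≤ ∑ i ∈ Finset.range N, volume.real {t : ℝ | t ∈ Set.Ioc (0:ℝ) 1 ∧ ∃ m ≤ n j,
      lam * √(n j : ℝ) ≤ |Ss (a j) (y j) (fun k x => W i k * f x) m t|} :=
        measureReal_biUnion_finset_le _ _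
    _ ≤ ∑ i ∈ Finset.range N, (K / N ^ 2 + C * (1 + 1 / lam) ^ 4 * rate (a j) (n j)) :=
        Finset.sum_le_sum fun i hi => hmax i (Finset.mem_range.1 hi)
    _ = K / N + N * (C * (1 + 1 / lam) ^ 4 * rate (a j) (n j)) := by
        rw [Finset.sum_const, Finset.card_range, nsmul_eq_mul, mul_add]
        congr 1
        field_simp
    _ ≤ η := by linarith

end seq

end Pool.Agent.U581.BM
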