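import Pool.Agent.U581.BM.Donsker

/-!
# The invariance principle jointly with the final position
-/

set_option autoImplicit false

namespace Pool.Agent.U581.BM

open Real MeasureTheory Filter Topology Function Pool.Agent.TH705.SM ProbabilityTheory
open scoped BoundedContinuousFunction NNReal

variable {f f' : ℝ → ℝ} {M v : ℝ} {a : ℕ → ℝ} {n : ℕ → ℕ} {y : ℕ → ℝ}
  {Ω : Type*} [MeasurableSpace Ω] {P : Measure Ω} {B : ℝ≥0 → Ω → ℝ}

/-- the mass of the final observable tends to its mean -/
theorem mass_lim (O : One f f' M v) (ha : ∀ j, 1 ≤ |a j|) (hn : ∀ j, 1 ≤ n j)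
    (hr : Tendsto (fun j => rate (a j) (n j)) atTop (𝓝 0)) {h : ℝ → ℝ} (hc : Continuous h)
    (hp : Periodic h 1) (h1 : ∀ x, |h x| ≤ 1) :
    Tendsto (fun j => ∫ t in (0:ℝ)..1, h (X (a j) (y j) (n j + 1) t)) atTop
      (𝓝 (∫ x in (0:ℝ)..1, h x)) := by
  have h2 := char_lim (y := y) O ha hn hr hc hp h1 0 (fun _ => 0)
  simp only [zero_mul, Finset.sum_const_zero, Complex.ofReal_zero, Complex.exp_zero, one_mul,
    zero_div, neg_zero, exp_zero, Complex.ofReal_one] at h2
  have h3 := (Complex.continuous_re.tendsto _).comp h2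
  rw [Complex.ofReal_re] at h3
  refine h3.congr fun j => ?_
  show (∫ t in (0:ℝ)..1, ((h (X (a j) (y j) (n j + 1) t) : ℝ) : ℂ)).re = _
  rw [intervalIntegral.integral_ofReal, Complex.ofReal_re]

theorem donsker_pos (O : One f f' M v) (ha : ∀ j, 1 ≤ |a j|) (hn : ∀ j, 1 ≤ n j)
    (hr : Tendsto (fun j => rate (a j) (n j)) atTop (𝓝 0)) {h : ℝ → ℝ} (hc : Continuous h)
    (hp : Periodic h 1) (h0 : ∀ x, 0 < h x) (h1 : ∀ x, h x ≤ 1) (hB : IsBrownianReal B P)
    (F : C(unitInterval, ℝ) →ᵇ ℝ) :
    Tendsto (fun j => ∫ t in (0:ℝ)..1, F (xpath (a j) (y j) (n j) (√(v * n j)) f t) *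
      h (X (a j) (y j) (n j + 1) t)) atTop
      (𝓝 ((∫ ω, F (bpath B ω) ∂P) * ∫ x in (0:ℝ)..1, h x)) := by
  have hP : IsProbabilityMeasure P := hB.isGaussianProcess.isProbabilityMeasure
  let _ : MeasurableSpace C(unitInterval, ℝ) := borel _
  have : BorelSpace C(unitInterval, ℝ) := ⟨rfl⟩
  have h1' : ∀ x, |h x| ≤ 1 := fun x => by rw [abs_of_pos (h0 x)]; exact h1 x
  -- the masses
  set c : ℕ → ℝ := fun j => ∫ t in (0:ℝ)..1, h (X (a j) (y j) (n j + 1) t) with hcd
  set c0 : ℝ := ∫ x in (0:ℝ)..1, h x with hc0d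
  have hXc : ∀ j, Continuous (X (a j) (y j) (n j + 1)) := fun j => Xt_cont _ _ _
  have hhc : ∀ j, Continuous fun t => h (X (a j) (y j) (n j + 1) t) := fun j => hc.comp (hXc j)
  have hcpos : ∀ j, 0 < c j := fun j =>
    intervalIntegral.intervalIntegral_pos_of_pos ((hhc j).intervalIntegrable _ _)
      (fun x => h0 _) zero_lt_one
  have hc0pos : 0 < c0 := intervalIntegral.intervalIntegral_pos_of_pos
    (hc.intervalIntegrable _ _) h0 zero_lt_one
  have hclim : Tendsto c atTop (𝓝 c0) := mass_lim O ha hn hr hc hp h1'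
  -- the densities
  set d : ℕ → ℝ → ℝ := fun j t => h (X (a j) (y j) (n j + 1) t) / c j with hdd
  have hdc : ∀ j, Continuous (d j) := fun j => (hhc j).div_const _
  have hd0 : ∀ j t, 0 ≤ d j t := fun j t => div_nonneg (h0 _).le (hcpos j).le
  have hdm : ∀ j, Measurable fun t => ENNReal.ofReal (d j t) := fun j =>
    (hdc j).measurable.ennreal_ofReal
  have hdi : ∀ j, Integrable (d j) (volume.restrict (Set.Ioc (0:ℝ) 1)) := fun j => by
    have := (hdc j).intervalIntegrable (μ := volume) 0 1
    rwa [intervalIntegrable_iff_integrableOn_Ioc_of_le zero_le_one] at this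
  set ν : ℕ → Measure ℝ := fun j =>
    (volume.restrict (Set.Ioc (0:ℝ) 1)).withDensity fun t => ENNReal.ofReal (d j t) with hνd
  have hprob : ∀ j, IsProbabilityMeasure (ν j) := fun j => by
    constructor
    rw [hνd]
    simp only
    rw [withDensity_apply _ MeasurableSet.univ, Measure.restrict_univ,
      ← ofReal_integral_eq_lintegral_ofReal (hdi j) (Eventually.of_forall (hd0 j)),
      ← intervalIntegral.integral_of_le zero_le_one]
    have : ∫ t in (0:ℝ)..1, d j t = 1 := by
      rw [hdd]
      simp only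
      rw [intervalIntegral.integral_div]
      exact div_self (hcpos j).ne'
    rw [this, ENNReal.ofReal_one]
  have hint : ∀ (j : ℕ) (g : ℝ → ℂ), ∫ t, g t ∂(ν j) =
      (∫ t in (0:ℝ)..1, g t * (h (X (a j) (y j) (n j + 1) t) : ℂ)) / (c j : ℂ) := by
    intro j g
    rw [hνd]
    simp only
    rw [integral_withDensity_eq_integral_toReal_smul (hdm j)
      (Eventually.of_forall fun t => ENNReal.ofReal_lt_top),
      intervalIntegral.integral_of_le zero_le_one, ← integral_div]
    apply integral_congr_ae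
    refine Eventually.of_forall fun t => ?_
    simp only
    rw [ENNReal.toReal_ofReal (hd0 j t), hdd]
    simp only [Complex.real_smul]
    push_cast
    ring
  have hintr : ∀ (j : ℕ) (g : ℝ → ℝ), ∫ t, g t ∂(ν j) =
      (∫ t in (0:ℝ)..1, g t * h (X (a j) (y j) (n j + 1) t)) / c j := by
    intro j g
    rw [hνd]
    simp only
    rw [integral_withDensity_eq_integral_toReal_smul (hdm j)
      (Eventually.of_forall fun t => ENNReal.ofReal_lt_top),
      intervalIntegral.integral_of_le zero_le_one, ← integral_div]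
    apply integral_congr_ae
    refine Eventually.of_forall fun t => ?_
    simp only
    rw [ENNReal.toReal_ofReal (hd0 j t), hdd]
    simp only [smul_eq_mul]
    ring
  have hpath : ∀ j, Continuous (xpath (a j) (y j) (n j) (√(v * n j)) f) := fun j =>
    xpath_cont _ _ _ _ O.cont
  have key := donsker_abs (ν := ν) (P := P)
    (X := fun j t => xpath (a j) (y j) (n j) (√(v * n j)) f t) (Z := bpath B)
    (fun j => (hpath j).measurable) (bpath_aem hB)
    (fun N θ => by
      simp_rw [hint]
      rw [bchar hB N θ]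
      have h2 := char_lim (y := y) O ha hn hr hc hp h1' N θ
      have h3 : Tendsto (fun j => ((c j : ℝ) : ℂ)) atTop (𝓝 (c0 : ℂ)) :=
        (Complex.continuous_ofReal.tendsto _).comp hclim
      have hc0ne : ((c0 : ℝ) : ℂ) ≠ 0 := by exact_mod_cast hc0pos.ne'
      have h4 := h2.div h3 hc0ne
      rw [mul_div_assoc, div_self hc0ne, mul_one] at h4
      exact h4)
    (fun ε hε η hη => by
      obtain ⟨N0, hN0⟩ := tight (y := y) O ha hn hr hε (η := η * (c0 / 2)) (by positivity)
      refine ⟨N0, fun N hN => ?_⟩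
      have h5 : ∀ᶠ j in atTop, c0 / 2 < c j := hclim.eventually_const_lt (by linarith)
      filter_upwards [hN0 N hN, h5] with j hj1 hj2
      set S : Set ℝ := {t | ε < ‖xpath (a j) (y j) (n j) (√(v * n j)) f t -
          interp N (xpath (a j) (y j) (n j) (√(v * n j)) f t)‖} with hS
      have hset : {t : ℝ | t ∈ Set.Ioc (0:ℝ) 1 ∧
        ε < ‖xpath (a j) (y j) (n j) (√(v * n j)) f t -
          interp N (xpath (a j) (y j) (n j) (√(v * n j)) f t)‖} = S ∩ Set.Ioc (0:ℝ) 1 := by
        ext t
        simp only [hS, Set.mem_ofPred_eq, Set.mem_inter_iff]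
        exact and_comm
      rw [hset] at hj1
      have h6 : (ν j) S ≤ ENNReal.ofReal (1 / c j) * volume (S ∩ Set.Ioc (0:ℝ) 1) := by
        rw [hνd]
        simp only
        rw [withDensity_apply']
        calc ∫⁻ t in S, ENNReal.ofReal (d j t) ∂(volume.restrict (Set.Ioc (0:ℝ) 1)) ≤
              ∫⁻ _ in S, ENNReal.ofReal (1 / c j) ∂(volume.restrict (Set.Ioc (0:ℝ) 1)) := by
              apply lintegral_mono
              intro t
              apply ENNReal.ofReal_le_ofReal
              exact div_le_div_of_nonneg_right (h1 _) (hcpos j).le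
          _ = ENNReal.ofReal (1 / c j) * volume (S ∩ Set.Ioc (0:ℝ) 1) := by
              rw [setLIntegral_const, Measure.restrict_apply' measurableSet_Ioc]
      have hfin : volume (S ∩ Set.Ioc (0:ℝ) 1) ≠ ⊤ :=
        ((measure_mono Set.inter_subset_right).trans_lt (by simp)).ne
      have h7 : (ν j).real S ≤ (1 / c j) * volume.real (S ∩ Set.Ioc (0:ℝ) 1) := by
        have := ENNReal.toReal_mono (ENNReal.mul_ne_top ENNReal.ofReal_ne_top hfin) h6
        rw [ENNReal.toReal_mul, ENNReal.toReal_ofReal (by have := hcpos j; positivity)] at this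
        exact this
      have h8 : 1 / c j ≤ 1 / (c0 / 2) := one_div_le_one_div_of_le (by positivity) hj2.le
      calc (ν j).real S ≤ (1 / c j) * volume.real (S ∩ Set.Ioc (0:ℝ) 1) := h7
        _ ≤ (1 / (c0 / 2)) * (η * (c0 / 2)) := by gcongr
        _ = η := by field_simp) F
  simp_rw [hintr] at key
  have h9 := key.mul hclim
  refine h9.congr fun j => ?_
  rw [div_mul_cancel₀ _ (hcpos j).ne']

/-- **the invariance principle jointly with the final position** -/
theorem donsker_h (O : One f f' M v) (ha : ∀ j, 1 ≤ |a j|) (hn : ∀ j, 1 ≤ n j)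
    (hr : Tendsto (fun j => rate (a j) (n j)) atTop (𝓝 0)) {h : ℝ → ℝ} (hc : Continuous h)
    (hp : Periodic h 1) (hB : IsBrownianReal B P) (F : C(unitInterval, ℝ) →ᵇ ℝ) :
    Tendsto (fun j => ∫ t in (0:ℝ)..1, F (xpath (a j) (y j) (n j) (√(v * n j)) f t) *
      h (X (a j) (y j) (n j + 1) t)) atTop
      (𝓝 ((∫ ω, F (bpath B ω) ∂P) * ∫ x in (0:ℝ)..1, h x)) := by
  obtain ⟨K, hK0, hK⟩ := per_bound hc hp
  have q1 := donsker_pos (y := y) O ha hn hr (h := fun x => (h x + (K + 1)) / (2 * K + 2))
    (by fun_prop) (fun x => by show (h (x + 1) + (K + 1)) / (2 * K + 2) = _; rw [hp x])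
    (fun x => by
      have := abs_le.1 (hK x)
      apply div_pos _ (by linarith)
      linarith [this.1]) (fun x => by
      have := abs_le.1 (hK x)
      rw [div_le_one (by linarith)]
      linarith [this.2]) hB F
  have q2 := donsker_pos (y := y) O ha hn hr (h := fun _ => 1) continuous_const
    (fun _ => rfl) (fun _ => one_pos) (fun _ => le_rfl) hB F
  have q3 := (q1.const_mul (2 * K + 2)).sub (q2.const_mul (K + 1))
  have hXc : ∀ j, Continuous (X (a j) (y j) (n j + 1)) := fun j => Xt_cont _ _ _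
  have hFc : ∀ j, Continuous fun t => F (xpath (a j) (y j) (n j) (√(v * n j)) f t) := fun j =>
    F.continuous.comp (xpath_cont _ _ _ _ O.cont)
  have hlim : (2 * K + 2) * ((∫ ω, F (bpath B ω) ∂P) *
      ∫ x in (0:ℝ)..1, (h x + (K + 1)) / (2 * K + 2)) -
      (K + 1) * ((∫ ω, F (bpath B ω) ∂P) * ∫ x in (0:ℝ)..1, (1:ℝ)) =
      (∫ ω, F (bpath B ω) ∂P) * ∫ x in (0:ℝ)..1, h x := by
    rw [intervalIntegral.integral_div, intervalIntegral.integral_add
      (hc.intervalIntegrable _ _) (by simp)]
    simp only [intervalIntegral.integral_const, sub_zero, smul_eq_mul, one_mul, mul_one]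
    have : (2 * K + 2) ≠ 0 := by linarith
    field_simp
    ring
  rw [hlim] at q3
  refine q3.congr fun j => ?_
  have hF := hFc j
  have hX := hXc j
  rw [← intervalIntegral.integral_const_mul, ← intervalIntegral.integral_const_mul,
    ← intervalIntegral.integral_sub
    (Continuous.intervalIntegrable (by
      exact continuous_const.mul (hF.mul (((hc.comp hX).add continuous_const).div_const _))) _ _)
    (Continuous.intervalIntegrable (by
      exact continuous_const.mul (hF.mul continuous_const)) _ _)]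
  apply intervalIntegral.integral_congr
  intro t _
  simp only
  have : (2 * K + 2) ≠ 0 := by linarith
  field_simp
  ring

end Pool.Agent.U581.BM
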