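import Pool.Agent.U581.BM.Rate

/-!
# A maximal inequality for sums of observables along orbits of the standard map
-/

set_option autoImplicit false

namespace Pool.Agent.U581.BM

open Real MeasureTheory Function Pool.Agent.TH705.SM

/-- the smooth indicator of `|u| ≥ π/2` -/
noncomputable def eta (u : ℝ) : ℝ := rho (2 * u / π)

/-- its derivative -/
noncomputable def eta' (u : ℝ) : ℝ := rho' (2 * u / π) * (2 / π)

theorem eta_mem (u : ℝ) : 0 ≤ eta u ∧ eta u ≤ 1 := ⟨rho_nonneg _, rho_le_one _⟩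

theorem eta_hasDeriv (u : ℝ) : HasDerivAt eta (eta' u) u := by
  have h1 : HasDerivAt (fun u : ℝ => 2 * u / π) (2 / π) u := by
    have := ((hasDerivAt_id u).const_mul 2).div_const π
    simpa using this
  exact (rho_hasDeriv (2 * u / π)).comp u h1

theorem eta_cont : Continuous eta :=
  continuous_iff_continuousAt.2 fun z => (eta_hasDeriv z).continuousAt

theorem eta'_cont : Continuous eta' := by
  have h := rho'_cont
  unfold eta'
  exact (h.comp (by fun_prop : Continuous fun u : ℝ => 2 * u / π)).mul continuous_const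

theorem eta'_le (u : ℝ) : |eta' u| ≤ 2 * KK := by
  have hK := KK_one
  have hpi := pi_gt_three
  have h := rho'_le (2 * u / π)
  unfold eta'
  rw [abs_mul, abs_of_pos (by positivity : 0 < 2 / π)]
  have h2 : 2 / π ≤ 2 / 3 := div_le_div_of_nonneg_left (by norm_num) (by norm_num) hpi.le
  calc |rho' (2 * u / π)| * (2 / π) ≤ (3 * KK) * (2 / 3) :=
        mul_le_mul h h2 (by positivity) (by positivity)
    _ = 2 * KK := by ring

theorem eta_ne {u : ℝ} (h : eta u ≠ 0) : π / 2 ≤ |u| := by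
  by_contra hc
  push Not at hc
  apply h
  apply rho_zero
  rw [abs_div, abs_mul, abs_two, abs_of_pos pi_pos, div_lt_one pi_pos]
  linarith

theorem eta_one {u : ℝ} (h : 3 * π / 4 ≤ |u|) : eta u = 1 := by
  apply rho_one
  have h1 : 3 / 2 ≤ |2 * u / π| := by
    rw [abs_div, abs_mul, abs_two, abs_of_pos pi_pos, le_div_iff₀ pi_pos]
    linarith
  rw [← sq_abs]
  nlinarith

/-- the smoothed indicator that the sums have not been large -/
noncomputable def Qs (a s : ℝ) (f : ℕ → ℝ → ℝ) : ℕ → ℝ → ℝ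
  | 0, _ => 1
  | m + 1, t => Qs a s f m t * (1 - eta (Ss a s f (m + 1) t))

/-- its derivative -/
noncomputable def Qs' (a s : ℝ) (f f' : ℕ → ℝ → ℝ) : ℕ → ℝ → ℝ
  | 0, _ => 0
  | m + 1, t => Qs' a s f f' m t * (1 - eta (Ss a s f (m + 1) t)) +
      Qs a s f m t * (-(eta' (Ss a s f (m + 1) t) * Ss' a s f' (m + 1) t))

theorem Qs_mem (a s : ℝ) (f : ℕ → ℝ → ℝ) (m : ℕ) (t : ℝ) : 0 ≤ Qs a s f m t ∧ Qs a s f m t ≤ 1 := by
  induction m with
  | zero => exact ⟨zero_le_one, le_rfl⟩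
  | succ m ih =>
    have h := eta_mem (Ss a s f (m + 1) t)
    exact ⟨mul_nonneg ih.1 (by linarith), mul_le_one₀ ih.2 (by linarith) (by linarith)⟩

section

variable {f f' : ℕ → ℝ → ℝ} {A v : ℝ}

theorem Qs_hasDeriv (a s : ℝ) (F : Fam f f' A v) (m : ℕ) (t : ℝ) :
    HasDerivAt (Qs a s f m) (Qs' a s f f' m t) t := by
  induction m with
  | zero => exact hasDerivAt_const t 1
  | succ m ih =>
    have h1 := (eta_hasDeriv (Ss a s f (m + 1) t)).comp t (Ss_hasDeriv a s F (m + 1) t)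
    have h2 : HasDerivAt (fun t => 1 - eta (Ss a s f (m + 1) t))
        (-(eta' (Ss a s f (m + 1) t) * Ss' a s f' (m + 1) t)) t := h1.const_sub 1
    exact ih.mul h2

theorem Qs_cont (a s : ℝ) (F : Fam f f' A v) (m : ℕ) : Continuous (Qs a s f m) :=
  continuous_iff_continuousAt.2 fun t => (Qs_hasDeriv a s F m t).continuousAt

theorem Qs'_cont (a s : ℝ) (F : Fam f f' A v) (m : ℕ) : Continuous (Qs' a s f f' m) := by
  induction m with
  | zero => exact continuous_const
  | succ m ih =>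
    have h1 := Ss_cont a s F (m + 1)
    have h2 := Ss'_cont a s F (m + 1)
    have h3 := eta_cont
    have h4 := eta'_cont
    have h5 := Qs_cont a s F m
    show Continuous fun t => Qs' a s f f' m t * (1 - eta (Ss a s f (m + 1) t)) +
      Qs a s f m t * (-(eta' (Ss a s f (m + 1) t) * Ss' a s f' (m + 1) t))
    fun_prop

theorem Qs_period (a s : ℝ) (F : Fam f f' A v) (m : ℕ) (t : ℝ) :
    Qs a s f m (t + 1) = Qs a s f m t := by
  induction m with
  | zero => rfl
  | succ m ih =>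
    show Qs a s f m (t + 1) * (1 - eta (Ss a s f (m + 1) (t + 1))) =
      Qs a s f m t * (1 - eta (Ss a s f (m + 1) t))
    rw [ih, Ss_period a s F]

theorem Qs'_le (a s : ℝ) (F : Fam f f' A v) (m : ℕ) (t : ℝ) (hg : Good a l0 s m t) :
    |Qs' a s f f' m t| ≤ 4 * KK * v * SD a s m t := by
  have hK := KK_one
  have hv := F.v0
  induction m with
  | zero => simp [Qs', SD]
  | succ m ih =>
    have ih' := ih (hg.mono (Nat.le_succ m))
    have h1 := Qs_mem a s f m t
    have h2 := eta_mem (Ss a s f (m + 1) t)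
    have h3 := eta'_le (Ss a s f (m + 1) t)
    have h4 := Ss'_le a s F (m + 1) t
    have h5 := SD_le l0_ge hg
    show |Qs' a s f f' m t * (1 - eta (Ss a s f (m + 1) t)) +
      Qs a s f m t * (-(eta' (Ss a s f (m + 1) t) * Ss' a s f' (m + 1) t))| ≤ _
    refine (abs_add_le _ _).trans ?_
    rw [abs_mul, abs_of_nonneg (by linarith : 0 ≤ 1 - eta (Ss a s f (m + 1) t)), abs_mul,
      abs_of_nonneg h1.1, abs_neg, abs_mul]
    have h6 : |Qs' a s f f' m t| * (1 - eta (Ss a s f (m + 1) t)) ≤ |Qs' a s f f' m t| :=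
      mul_le_of_le_one_right (abs_nonneg _) (by linarith)
    have h7 : Qs a s f m t * (|eta' (Ss a s f (m + 1) t)| * |Ss' a s f' (m + 1) t|) ≤
        1 * ((2 * KK) * (v * SD a s (m + 1) t)) := by
      apply mul_le_mul h1.2 (mul_le_mul h3 h4 (abs_nonneg _) (by positivity)) (by positivity)
        zero_le_one
    have h8 : (2 * KK) * (v * SD a s (m + 1) t) ≤ (2 * KK) * (v * (2 * |D a s (m + 1) t|)) := by
      gcongr
    rw [SD_succ]
    have e : 4 * KK * v * (SD a s m t + |D a s (m + 1) t|) = 4 * KK * v * SD a s m t +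
      (2 * KK) * (v * (2 * |D a s (m + 1) t|)) := by ring
    rw [e]
    linarith

theorem PastC.mono {a s : ℝ} {m : ℕ} {v v' : ℝ} {H H' : ℝ → ℂ} (h : PastC a s m v H H')
    (hv : v ≤ v') : PastC a s m v' H H' where
  d := h.d
  c := h.c
  per := h.per
  le := h.le
  bd := fun t ht => (h.bd t ht).trans (mul_le_mul_of_nonneg_right hv (SD_nonneg a s m t))

/-- the sums after the smoothed exit time -/
theorem past_Q (a s : ℝ) (F : Fam f f' A v) (m : ℕ) {H H' : ℝ → ℂ} {v2 : ℝ}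
    (hH : PastC a s m v2 H H') :
    PastC a s m (4 * KK * v + v2) (fun t => ((1 - Qs a s f m t : ℝ) : ℂ) * H t)
      (fun t => ((-(Qs' a s f f' m t) : ℝ) : ℂ) * H t + ((1 - Qs a s f m t : ℝ) : ℂ) * H' t) where
  d := fun t => by
    have h1 : HasDerivAt (fun t => 1 - Qs a s f m t) (-(Qs' a s f f' m t)) t :=
      (Qs_hasDeriv a s F m t).const_sub 1
    exact h1.ofReal_comp.mul (hH.d t)
  c := by
    have h1 := Qs'_cont a s F m
    have h2 := Qs_cont a s F m
    have h3 := hH.cont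
    have h4 := hH.c
    fun_prop
  per := fun t => by rw [Qs_period a s F m t, hH.per]
  le := fun t => by
    have h := Qs_mem a s f m t
    rw [norm_mul, Complex.norm_real, norm_eq_abs, abs_of_nonneg (by linarith)]
    exact mul_le_one₀ (by linarith) (norm_nonneg _) (hH.le t)
  bd := fun t ht => by
    have h := Qs_mem a s f m t
    refine (norm_add_le _ _).trans ?_
    rw [norm_mul, norm_mul, Complex.norm_real, Complex.norm_real, norm_eq_abs, norm_eq_abs,
      abs_neg, abs_of_nonneg (by linarith : 0 ≤ 1 - Qs a s f m t), add_mul]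
    apply add_le_add
    · exact (mul_le_of_le_one_right (abs_nonneg _) (hH.le t)).trans (Qs'_le a s F m t ht)
    · exact (mul_le_of_le_one_left (norm_nonneg _) (by linarith)).trans (hH.bd t ht)

/-- the family times a number -/
def sc (r : ℝ) (f : ℕ → ℝ → ℝ) : ℕ → ℝ → ℝ := fun k x => r * f k x

/-- the expectation after the exit -/
noncomputable def Ir (a s : ℝ) (f : ℕ → ℝ → ℝ) (r : ℝ) (m : ℕ) : ℂ :=
  ∫ t in (0:ℝ)..1, (chi a l0 s m t : ℂ) * (((1 - Qs a s f m t : ℝ) : ℂ) * E (Ss a s (sc r f) m t))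

/-- the expectation at the exit -/
noncomputable def Jr (a s : ℝ) (f : ℕ → ℝ → ℝ) (r : ℝ) (m : ℕ) : ℂ :=
  ∫ t in (0:ℝ)..1, (chi a l0 s (m + 1) t : ℂ) *
    (((Qs a s f m t * eta (Ss a s f (m + 1) t) : ℝ) : ℂ) * E (Ss a s (sc r f) (m + 1) t))

theorem I_rec {a l : ℝ} (hl' : l0 ≤ l) (hla : l ≤ |a|) {w : ℕ} (hlw : l ≤ 2 ^ w) (s : ℝ)
    (F : Fam f f' A v) {r : ℝ} (hr0 : 0 ≤ r) (hr2 : r ≤ 2) (m : ℕ) :
    ‖Ir a s f r (m + 1) - Lam (sc r f m) * Ir a s f r m - Jr a s f r m‖ ≤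
      4 * (2 * A * eps a l w ((4 * KK + 2) * v)) + 2 * (l0 / |a|) := by
  have hK := KK_one
  have hv := F.v0
  have hA := F.A0
  have Fr := F.smul hr0
  have hP := (past_Q a s F m (past_E a s Fr m)).mono (v' := (4 * KK + 2) * v) (by nlinarith)
  have h1 := rec_G hl' hla hlw s m (by positivity) hP (Fr.cont m) (Fr.p m) (A := 2 * A)
    (fun x y => (Fr.osc m x y).trans (by nlinarith))
  have hc1 := chi_cont a l0 s (m + 1)
  have hQ := Qs_cont a s F m
  have hS := Ss_cont a s Fr m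
  have hS1 := Ss_cont a s Fr (m + 1)
  have hSS := Ss_cont a s F (m + 1)
  have hE := E_cont
  have hX := Xt_cont a s (m + 1)
  have hf := Fr.cont m
  have heta := eta_cont
  have e1 : Ir a s f r (m + 1) - Jr a s f r m = ∫ t in (0:ℝ)..1, (chi a l0 s (m + 1) t : ℂ) *
      (((1 - Qs a s f m t : ℝ) : ℂ) * E (Ss a s (fun k x => r * f k x) m t) *
        E (r * f m (X a s (m + 1) t))) := by
    unfold Ir Jr
    have hQ1 := Qs_cont a s F (m + 1)
    have i1 : Continuous (fun t => (chi a l0 s (m + 1) t : ℂ) *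
        (((1 - Qs a s f (m + 1) t : ℝ) : ℂ) * E (Ss a s (sc r f) (m + 1) t))) := by
      have : Continuous (Ss a s (sc r f) (m + 1)) := hS1
      fun_prop
    have i2 : Continuous (fun t => (chi a l0 s (m + 1) t : ℂ) *
        (((Qs a s f m t * eta (Ss a s f (m + 1) t) : ℝ) : ℂ) *
          E (Ss a s (sc r f) (m + 1) t))) := by
      have : Continuous (Ss a s (sc r f) (m + 1)) := hS1
      fun_prop
    rw [← intervalIntegral.integral_sub (i1.intervalIntegrable _ _) (i2.intervalIntegrable _ _)]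
    apply intervalIntegral.integral_congr
    intro t _
    simp only
    have h2 : Ss a s (sc r f) (m + 1) t = Ss a s (fun k x => r * f k x) m t +
      r * f m (X a s (m + 1) t) := rfl
    have h3 : Qs a s f (m + 1) t = Qs a s f m t * (1 - eta (Ss a s f (m + 1) t)) := rfl
    rw [h2, h3, E_add]
    push_cast
    ring
  have e2 : Ir a s f r (m + 1) - Lam (sc r f m) * Ir a s f r m - Jr a s f r m =
      (Ir a s f r (m + 1) - Jr a s f r m) - Lam (sc r f m) * Ir a s f r m := by ring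
  rw [e2, e1]
  exact h1

/-- the Gaussian comparison of the expectations after the exit -/
noncomputable def Tt (a s : ℝ) (f : ℕ → ℝ → ℝ) (r : ℝ) (n : ℕ) : ℂ :=
  ∑ j ∈ Finset.range n, ((∏ i ∈ Finset.Ico (j + 1) n, gq r (f i) : ℝ) : ℂ) * Jr a s f r j

theorem Tt_succ (a s : ℝ) (f : ℕ → ℝ → ℝ) (r : ℝ) (n : ℕ) :
    Tt a s f r (n + 1) = ((gq r (f n) : ℝ) : ℂ) * Tt a s f r n + Jr a s f r n := by
  unfold Tt
  rw [Finset.sum_range_succ, Finset.Ico_self, Finset.prod_empty, Complex.ofReal_one, one_mul,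
    Finset.mul_sum]
  congr 1
  apply Finset.sum_congr rfl
  intro j hj
  have hj' : j + 1 ≤ n := by
    have := Finset.mem_range.1 hj
    omega
  rw [Finset.prod_Ico_succ_top hj']
  push_cast
  ring

theorem norm_Ir (a s : ℝ) (f : ℕ → ℝ → ℝ) (r : ℝ) (m : ℕ) : ‖Ir a s f r m‖ ≤ 1 := by
  have := intervalIntegral.norm_integral_le_of_norm_le_const (a := 0) (b := 1)
    (f := fun t => (chi a l0 s m t : ℂ) *
      (((1 - Qs a s f m t : ℝ) : ℂ) * E (Ss a s (sc r f) m t))) (C := 1) (fun t _ => by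
      have h := Qs_mem a s f m t
      have h2 := chi_mem a l0 s m t
      rw [norm_mul, norm_mul, E_norm, mul_one, Complex.norm_real, Complex.norm_real, norm_eq_abs,
        norm_eq_abs, abs_of_nonneg h2.1, abs_of_nonneg (by linarith : 0 ≤ 1 - Qs a s f m t)]
      exact mul_le_one₀ h2.2 (by linarith) (by linarith))
  simpa [Ir] using this

theorem I_T {a l : ℝ} (hl' : l0 ≤ l) (hla : l ≤ |a|) {w : ℕ} (hlw : l ≤ 2 ^ w) (s : ℝ)
    (F : Fam f f' A v) (f0 : ∀ k, ∫ x in (0:ℝ)..1, f k x = 0) {B : ℝ} (hB : ∀ k x, |f k x| ≤ B)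
    {r : ℝ} (hr0 : 0 ≤ r) (hr2 : r ≤ 2) (n : ℕ) :
    ‖Ir a s f r n - Tt a s f r n‖ ≤
      n * (4 * (2 * A * eps a l w ((4 * KK + 2) * v)) + 2 * (l0 / |a|) +
        (4 * (2 * B) ^ 3 + (2 * B) ^ 4)) := by
  have hB0 : 0 ≤ B := (abs_nonneg _).trans (hB 0 0)
  induction n with
  | zero =>
    have h1 : Ir a s f r 0 = 0 := by
      unfold Ir
      simp [Qs]
    have h2 : Tt a s f r 0 = 0 := by simp [Tt]
    rw [h1, h2]
    simp
  | succ n ih =>
    have h1 := I_rec hl' hla hlw s F hr0 hr2 n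
    have h2 := Lam_q (F.cont n) (f0 n) (hB n) r
    rw [abs_of_nonneg hr0] at h2
    have h3 : 4 * (r * B) ^ 3 + (r * B) ^ 4 ≤ 4 * (2 * B) ^ 3 + (2 * B) ^ 4 := by gcongr
    have h4 := norm_Ir a s f r n
    rw [Tt_succ]
    have e1 : Ir a s f r (n + 1) - (((gq r (f n) : ℝ) : ℂ) * Tt a s f r n + Jr a s f r n) =
        (Ir a s f r (n + 1) - Lam (sc r f n) * Ir a s f r n - Jr a s f r n) +
        (Lam (sc r f n) - ((gq r (f n) : ℝ) : ℂ)) * Ir a s f r n +
        ((gq r (f n) : ℝ) : ℂ) * (Ir a s f r n - Tt a s f r n) := by ring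
    rw [e1]
    refine (norm_add_le _ _).trans ?_
    have h5 := norm_add_le (Ir a s f r (n + 1) - Lam (sc r f n) * Ir a s f r n - Jr a s f r n)
      ((Lam (sc r f n) - ((gq r (f n) : ℝ) : ℂ)) * Ir a s f r n)
    have h6 : ‖(Lam (sc r f n) - ((gq r (f n) : ℝ) : ℂ)) * Ir a s f r n‖ ≤
        4 * (2 * B) ^ 3 + (2 * B) ^ 4 := by
      rw [norm_mul]
      exact (mul_le_of_le_one_right (norm_nonneg _) h4).trans (h2.trans h3)
    have h7 : ‖((gq r (f n) : ℝ) : ℂ) * (Ir a s f r n - Tt a s f r n)‖ ≤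
        ‖Ir a s f r n - Tt a s f r n‖ := by
      rw [norm_mul, Complex.norm_real, norm_eq_abs, abs_of_pos (gq_pos _ _)]
      exact mul_le_of_le_one_left (norm_nonneg _) (gq_le _ _)
    push_cast
    linarith

theorem Qs_ne {a s : ℝ} {m : ℕ} {t : ℝ} (h : Qs a s f m t ≠ 0) : |Ss a s f m t| ≤ 3 * π / 4 := by
  by_contra hc
  push Not at hc
  apply h
  cases m with
  | zero =>
    have h1 : Ss a s f 0 t = 0 := rfl
    rw [h1, abs_zero] at hc
    have := pi_pos
    linarith
  | succ m =>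
    show Qs a s f m t * (1 - eta (Ss a s f (m + 1) t)) = 0
    rw [eta_one hc.le]
    ring

/-- the integrand at the exit is nonnegative -/
theorem exit_pos (a s : ℝ) (hB : ∀ k x, |f k x| ≤ 1) (m : ℕ) (t : ℝ) {w1 w2 : ℝ}
    (hw1 : 0 ≤ w1) (hw2 : 0 ≤ w2) (hw2' : w2 ≤ 1) :
    0 ≤ Qs a s f m t * eta (Ss a s f (m + 1) t) *
      (1 / 2 - 2 * w1 * cos (Ss a s f (m + 1) t) + 1 / 2 * w2 * cos (2 * Ss a s f (m + 1) t)) := by
  have h1 := Qs_mem a s f m t
  have h2 := eta_mem (Ss a s f (m + 1) t)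
  by_cases hQ : Qs a s f m t = 0
  · rw [hQ]
    simp
  by_cases he : eta (Ss a s f (m + 1) t) = 0
  · rw [he]
    simp
  have h3 := Qs_ne hQ
  have h4 := eta_ne he
  have hpi := pi_gt_three
  have h5 : |Ss a s f (m + 1) t| ≤ 3 * π / 2 := by
    show |Ss a s f m t + f m (X a s (m + 1) t)| ≤ _
    refine (abs_add_le _ _).trans ?_
    have := hB m (X a s (m + 1) t)
    linarith
  have h6 : cos (Ss a s f (m + 1) t) ≤ 0 := by
    rw [← cos_abs]
    exact cos_nonpos_of_pi_div_two_le_of_le h4 (by linarith)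
  have h7 := neg_one_le_cos (2 * Ss a s f (m + 1) t)
  have h8 : 0 ≤ w1 * (-cos (Ss a s f (m + 1) t)) := mul_nonneg hw1 (by linarith)
  have h9 : 0 ≤ w2 * (cos (2 * Ss a s f (m + 1) t) + 1) := mul_nonneg hw2 (by linarith)
  apply mul_nonneg (mul_nonneg h1.1 h2.1)
  nlinarith

theorem E_re (x : ℝ) : (E x).re = cos x := Complex.exp_ofReal_mul_I_re x

theorem sc_sum (a s : ℝ) (f : ℕ → ℝ → ℝ) (r : ℝ) (m : ℕ) (t : ℝ) :
    Ss a s (sc r f) m t = r * Ss a s f m t := Ss_smul a s f r m t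

theorem re_int {g : ℝ → ℂ} (hg : Continuous g) :
    (∫ t in (0:ℝ)..1, g t).re = ∫ t in (0:ℝ)..1, (g t).re := by
  have h := Complex.reCLM.intervalIntegral_comp_comm (hg.intervalIntegrable (μ := volume) 0 1)
  exact h.symm

theorem Jr_re (a s : ℝ) (F : Fam f f' A v) (r : ℝ) (m : ℕ) : (Jr a s f r m).re =
    ∫ t in (0:ℝ)..1, chi a l0 s (m + 1) t * (Qs a s f m t * eta (Ss a s f (m + 1) t) *
      cos (r * Ss a s f (m + 1) t)) := by
  have hc1 := chi_cont a l0 s (m + 1)
  have hQ := Qs_cont a s F m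
  have hSS := Ss_cont a s F (m + 1)
  have hE := E_cont
  have heta := eta_cont
  unfold Jr
  simp_rw [sc_sum]
  rw [re_int (by fun_prop)]
  apply intervalIntegral.integral_congr
  intro t _
  simp only
  rw [Complex.re_ofReal_mul, Complex.re_ofReal_mul, E_re]

theorem Ir_re (a s : ℝ) (F : Fam f f' A v) (r : ℝ) (m : ℕ) : (Ir a s f r m).re =
    ∫ t in (0:ℝ)..1, chi a l0 s m t * ((1 - Qs a s f m t) * cos (r * Ss a s f m t)) := by
  have hc1 := chi_cont a l0 s m
  have hQ := Qs_cont a s F m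
  have hSS := Ss_cont a s F m
  have hE := E_cont
  unfold Ir
  simp_rw [sc_sum]
  rw [re_int (by fun_prop)]
  apply intervalIntegral.integral_congr
  intro t _
  simp only
  rw [Complex.re_ofReal_mul, Complex.re_ofReal_mul, E_re]

theorem T_pos (a s : ℝ) (F : Fam f f' A v) (hB : ∀ k x, |f k x| ≤ 1) (n : ℕ) :
    0 ≤ 1 / 2 * (Tt a s f 0 n).re - 2 * (Tt a s f 1 n).re + 1 / 2 * (Tt a s f 2 n).re := by
  have hc := fun m => chi_cont a l0 s m
  have hQ := fun m => Qs_cont a s F m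
  have hSS := fun m => Ss_cont a s F m
  have heta := eta_cont
  unfold Tt
  simp only [Complex.re_sum, Complex.re_ofReal_mul]
  rw [Finset.mul_sum, Finset.mul_sum, Finset.mul_sum, ← Finset.sum_sub_distrib,
    ← Finset.sum_add_distrib]
  apply Finset.sum_nonneg
  intro j _
  rw [Jr_re a s F, Jr_re a s F, Jr_re a s F]
  have hg0 : ∏ i ∈ Finset.Ico (j + 1) n, gq 0 (f i) = 1 := by
    apply Finset.prod_eq_one
    intro i _
    unfold gq
    simp
  rw [hg0]
  set w1 : ℝ := ∏ i ∈ Finset.Ico (j + 1) n, gq 1 (f i) with hw1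
  set w2 : ℝ := ∏ i ∈ Finset.Ico (j + 1) n, gq 2 (f i) with hw2
  have q1 : 0 ≤ w1 := Finset.prod_nonneg fun i _ => (gq_pos _ _).le
  have q2 : 0 ≤ w2 := Finset.prod_nonneg fun i _ => (gq_pos _ _).le
  have q3 : w2 ≤ 1 := Finset.prod_le_one (fun i _ => (gq_pos _ _).le) fun i _ => gq_le _ _
  have hcj := hc (j + 1)
  have hQj := hQ j
  have hSj := hSS (j + 1)
  have e : 1 / 2 * (1 * ∫ t in (0:ℝ)..1, chi a l0 s (j + 1) t *
        (Qs a s f j t * eta (Ss a s f (j + 1) t) * cos (0 * Ss a s f (j + 1) t))) -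
      2 * (w1 * ∫ t in (0:ℝ)..1, chi a l0 s (j + 1) t *
        (Qs a s f j t * eta (Ss a s f (j + 1) t) * cos (1 * Ss a s f (j + 1) t))) +
      1 / 2 * (w2 * ∫ t in (0:ℝ)..1, chi a l0 s (j + 1) t *
        (Qs a s f j t * eta (Ss a s f (j + 1) t) * cos (2 * Ss a s f (j + 1) t))) =
      ∫ t in (0:ℝ)..1, chi a l0 s (j + 1) t * (Qs a s f j t * eta (Ss a s f (j + 1) t) *
      (1 / 2 - 2 * w1 * cos (Ss a s f (j + 1) t) +
        1 / 2 * w2 * cos (2 * Ss a s f (j + 1) t))) := by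
    rw [one_mul, ← mul_assoc 2 w1, ← mul_assoc (1 / 2) w2, ← intervalIntegral.integral_const_mul,
      ← intervalIntegral.integral_const_mul,
      ← intervalIntegral.integral_const_mul, ← intervalIntegral.integral_sub
      (Continuous.intervalIntegrable (by fun_prop) _ _)
      (Continuous.intervalIntegrable (by fun_prop) _ _), ← intervalIntegral.integral_add
      (Continuous.intervalIntegrable (by fun_prop) _ _)
      (Continuous.intervalIntegrable (by fun_prop) _ _)]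
    apply intervalIntegral.integral_congr
    intro t _
    simp only [zero_mul, cos_zero, one_mul]
    ring
  rw [e]
  apply intervalIntegral.integral_nonneg zero_le_one
  intro t _
  exact mul_nonneg (chi_mem a l0 s (j + 1) t).1 (exit_pos a s hB j t q1 q2 q3)

end

end Pool.Agent.U581.BM
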