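import Pool.Agent.U581.BM.Maxi

/-!
# A maximal inequality: conclusion
-/

set_option autoImplicit false

namespace Pool.Agent.U581.BM

open Real MeasureTheory Function Pool.Agent.TH705.SM

variable {f f' : ℕ → ℝ → ℝ} {A v : ℝ}

theorem gauss_four {x : ℝ} (hx : 0 ≤ x) :
    3 / 2 - 2 * exp (-x) + 1 / 2 * exp (-(4 * x)) ≤ 3 * x ^ 2 := by
  obtain ⟨y, hy⟩ : ∃ y, y = exp (-x) := ⟨_, rfl⟩
  have h1 : exp (-(4 * x)) = y ^ 4 := by
    rw [hy, ← Real.exp_nat_mul]
    congr 1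
    push_cast
    ring
  have h2 : 0 < y := by rw [hy]; exact exp_pos _
  have h3 : y ≤ 1 := by rw [hy]; exact exp_le_one_iff.2 (by linarith)
  have h4 : 1 - x ≤ y := by
    have := add_one_le_exp (-x)
    rw [hy]
    linarith
  rw [h1, ← hy]
  have h5 : (1 - y) ^ 2 ≤ x ^ 2 := pow_le_pow_left₀ (by linarith) (by linarith) 2
  have h6 : 3 / 2 - 2 * y + 1 / 2 * y ^ 4 = (1 - y) ^ 2 * ((y ^ 2 + 2 * y + 3) / 2) := by ring
  rw [h6]
  have h7 : (y ^ 2 + 2 * y + 3) / 2 ≤ 3 := by nlinarith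
  calc (1 - y) ^ 2 * ((y ^ 2 + 2 * y + 3) / 2) ≤ (1 - y) ^ 2 * 3 :=
        mul_le_mul_of_nonneg_left h7 (sq_nonneg _)
    _ ≤ 3 * x ^ 2 := by linarith

theorem cos_poly (u : ℝ) : 3 / 2 - 2 * cos u + 1 / 2 * cos (2 * u) = (1 - cos u) ^ 2 := by
  rw [cos_two_mul]
  ring

/-- the expectations of the exponentials of multiples of the sums -/
theorem char_r {a l : ℝ} (hl' : l0 ≤ l) (hla : l ≤ |a|) {w : ℕ} (hlw : l ≤ 2 ^ w) (s : ℝ)
    (F : Fam f f' A v) (f0 : ∀ k, ∫ x in (0:ℝ)..1, f k x = 0) {B : ℝ} (hB : ∀ k x, |f k x| ≤ B)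
    {r : ℝ} (hr0 : 0 ≤ r) (hr2 : r ≤ 2) (n : ℕ) :
    |(∫ t in (0:ℝ)..1, cos (r * Ss a s f n t)) -
      exp (-(r ^ 2 * (∑ k ∈ Finset.range n, sq (f k)) / 2))| ≤
      n * (4 * (2 * A * eps a l w ((4 * KK + 2) * v)) + 4 * (l0 / |a|)) +
        4 * eps a l w ((4 * KK + 2) * v) + n * (4 * (2 * B) ^ 3 + (2 * B) ^ 4) := by
  have hK := KK_one
  have hv := F.v0
  have hA := F.A0
  have hB0 : 0 ≤ B := (abs_nonneg _).trans (hB 0 0)
  have Fr := F.smul hr0
  have hl0 : 0 < l := by have := l0_ge; linarith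
  have heps : eps a l w (r * v) ≤ eps a l w ((4 * KK + 2) * v) := by
    unfold eps
    have : r * v ≤ (4 * KK + 2) * v := by nlinarith
    gcongr
  have heps0 : 0 ≤ eps a l w (r * v) := by
    have := l0_ge
    unfold eps
    positivity
  have h1 := product_h hl' hla hlw s Fr n (h := fun _ => 1) continuous_const
    (fun _ => rfl) (fun _ => by simp)
  have h2 := prod_gauss F.cont f0 hB r n
  rw [abs_of_nonneg hr0] at h2
  simp only [intervalIntegral.integral_const, sub_zero, one_smul, Complex.ofReal_one,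
    mul_one, Complex.ofReal_one] at h1
  have hS := Ss_cont a s F n
  have hE := E_cont
  have e1 : (∫ t in (0:ℝ)..1, cos (r * Ss a s f n t)) =
      (∫ t in (0:ℝ)..1, E (Ss a s (fun k x => r * f k x) n t)).re := by
    have hS' := Ss_cont a s Fr n
    rw [re_int (by fun_prop)]
    apply intervalIntegral.integral_congr
    intro t _
    simp only
    rw [E_re, Ss_smul]
  rw [e1]
  set G : ℝ := exp (-(r ^ 2 * (∑ k ∈ Finset.range n, sq (f k)) / 2)) with hG
  have h3 : ‖(∫ t in (0:ℝ)..1, E (Ss a s (fun k x => r * f k x) n t)) - (G : ℂ)‖ ≤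
      n * (4 * (2 * A * eps a l w ((4 * KK + 2) * v)) + 4 * (l0 / |a|)) +
        4 * eps a l w ((4 * KK + 2) * v) + n * (4 * (2 * B) ^ 3 + (2 * B) ^ 4) := by
    have e2 : (∫ t in (0:ℝ)..1, E (Ss a s (fun k x => r * f k x) n t)) - (G : ℂ) =
      ((∫ t in (0:ℝ)..1, E (Ss a s (fun k x => r * f k x) n t)) -
        ∏ k ∈ Finset.range n, Lam (fun x => r * f k x)) +
      (∏ k ∈ Finset.range n, Lam (fun x => r * f k x) - (G : ℂ)) := by ring
    rw [e2]
    refine (norm_add_le _ _).trans (add_le_add (h1.trans ?_) (h2.trans ?_))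
    · have h4 : r * A * eps a l w (r * v) ≤ 2 * A * eps a l w ((4 * KK + 2) * v) := by
        gcongr
      gcongr
    · gcongr
  refine le_trans ?_ h3
  have := Complex.abs_re_le_norm
    ((∫ t in (0:ℝ)..1, E (Ss a s (fun k x => r * f k x) n t)) - (G : ℂ))
  rwa [Complex.sub_re, Complex.ofReal_re] at this

/-- **the maximal inequality, smooth form** -/
theorem maxi0 {a l : ℝ} (hl' : l0 ≤ l) (hla : l ≤ |a|) {w : ℕ} (hlw : l ≤ 2 ^ w) (s : ℝ)
    (F : Fam f f' A v) (f0 : ∀ k, ∫ x in (0:ℝ)..1, f k x = 0) {B : ℝ} (hB : ∀ k x, |f k x| ≤ B)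
    (hB1 : B ≤ 1) (n : ℕ) :
    ∫ t in (0:ℝ)..1, (1 - Qs a s f n t) ≤
      3 / 4 * (∑ k ∈ Finset.range n, sq (f k)) ^ 2 +
      (9 * (n * (4 * (2 * A * eps a l w ((4 * KK + 2) * v)) + 4 * (l0 / |a|) +
        (4 * (2 * B) ^ 3 + (2 * B) ^ 4))) + 10 * eps a l w ((4 * KK + 2) * v)) := by
  have hK := KK_one
  have hv := F.v0
  have hA := F.A0
  have hl0 : 0 < l := by have := l0_ge; linarith
  have h00 : 0 < l0 := by have := l0_ge; linarith
  have ha0 : 0 < |a| := by linarith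
  have hB0 : 0 ≤ B := (abs_nonneg _).trans (hB 0 0)
  obtain ⟨ep, hep⟩ : ∃ ep, ep = eps a l w ((4 * KK + 2) * v) := ⟨_, rfl⟩
  have hep0 : 0 ≤ ep := by
    rw [hep]
    unfold eps
    positivity
  have hlo : 0 ≤ l0 / |a| := by positivity
  have hS := Ss_cont a s F n
  have hQ := Qs_cont a s F n
  have hc := chi_cont a l0 s n
  have hB' : ∀ k x, |f k x| ≤ 1 := fun k x => (hB k x).trans hB1
  have i0 := I_T hl' hla hlw s F f0 hB le_rfl zero_le_two n
  have i1 := I_T hl' hla hlw s F f0 hB zero_le_one one_le_two n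
  have i2 := I_T hl' hla hlw s F f0 hB zero_le_two le_rfl n
  have c1 := char_r hl' hla hlw s F f0 hB zero_le_one one_le_two n
  have c2 := char_r hl' hla hlw s F f0 hB zero_le_two le_rfl n
  rw [← hep] at i0 i1 i2 c1 c2 ⊢
  have tp := T_pos a s F hB' n
  have r0 := Complex.abs_re_le_norm (Ir a s f 0 n - Tt a s f 0 n)
  have r1 := Complex.abs_re_le_norm (Ir a s f 1 n - Tt a s f 1 n)
  have r2 := Complex.abs_re_le_norm (Ir a s f 2 n - Tt a s f 2 n)
  rw [Complex.sub_re] at r0 r1 r2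
  have s0 := abs_le.1 (r0.trans i0)
  have s1 := abs_le.1 (r1.trans i1)
  have s2 := abs_le.1 (r2.trans i2)
  have d1 := abs_le.1 c1
  have d2 := abs_le.1 c2
  simp only [one_pow, one_mul] at d1
  -- (a)
  have pa : ∫ t in (0:ℝ)..1, (1 - Qs a s f n t) ≤ (Ir a s f 0 n).re + n * (2 * (l0 / |a|)) := by
    have h1 := chi_lossG hl' hla s n
    rw [Ir_re a s F]
    have h2 : ∫ t in (0:ℝ)..1, (1 - Qs a s f n t) ≤
        ∫ t in (0:ℝ)..1, (chi a l0 s n t * ((1 - Qs a s f n t) * cos (0 * Ss a s f n t)) +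
          (1 - chi a l0 s n t)) := by
      apply intervalIntegral.integral_mono_on zero_le_one
        (Continuous.intervalIntegrable (by fun_prop) _ _)
        (Continuous.intervalIntegrable (by fun_prop) _ _)
      intro t _
      have q1 := chi_mem a l0 s n t
      have q2 := Qs_mem a s f n t
      rw [zero_mul, cos_zero, mul_one]
      nlinarith
    rw [intervalIntegral.integral_add (Continuous.intervalIntegrable (by fun_prop) _ _)
      (Continuous.intervalIntegrable (by fun_prop) _ _)] at h2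
    linarith
  -- (d)
  have pd : 3 / 2 * (Ir a s f 0 n).re - 2 * (Ir a s f 1 n).re + 1 / 2 * (Ir a s f 2 n).re ≤
      3 / 2 - 2 * (∫ t in (0:ℝ)..1, cos (Ss a s f n t)) +
        1 / 2 * (∫ t in (0:ℝ)..1, cos (2 * Ss a s f n t)) := by
    rw [Ir_re a s F, Ir_re a s F, Ir_re a s F]
    have e1 : 3 / 2 - 2 * (∫ t in (0:ℝ)..1, cos (Ss a s f n t)) +
        1 / 2 * (∫ t in (0:ℝ)..1, cos (2 * Ss a s f n t)) =
        ∫ t in (0:ℝ)..1, (1 - cos (Ss a s f n t)) ^ 2 := by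
      have : (3 / 2 : ℝ) = ∫ t in (0:ℝ)..1, (3 / 2 : ℝ) := by simp
      rw [this, ← intervalIntegral.integral_const_mul, ← intervalIntegral.integral_const_mul,
        ← intervalIntegral.integral_sub
        (Continuous.intervalIntegrable (by fun_prop) _ _)
        (Continuous.intervalIntegrable (by fun_prop) _ _), ← intervalIntegral.integral_add
        (Continuous.intervalIntegrable (by fun_prop) _ _)
        (Continuous.intervalIntegrable (by fun_prop) _ _)]
      apply intervalIntegral.integral_congr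
      intro t _
      exact cos_poly _
    rw [e1, ← intervalIntegral.integral_const_mul, ← intervalIntegral.integral_const_mul,
      ← intervalIntegral.integral_const_mul, ← intervalIntegral.integral_sub
        (Continuous.intervalIntegrable (by fun_prop) _ _)
        (Continuous.intervalIntegrable (by fun_prop) _ _), ← intervalIntegral.integral_add
        (Continuous.intervalIntegrable (by fun_prop) _ _)
        (Continuous.intervalIntegrable (by fun_prop) _ _)]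
    apply intervalIntegral.integral_mono_on zero_le_one
        (Continuous.intervalIntegrable (by fun_prop) _ _)
        (Continuous.intervalIntegrable (by fun_prop) _ _)
    intro t _
    have q1 := chi_mem a l0 s n t
    have q2 := Qs_mem a s f n t
    rw [zero_mul, cos_zero, mul_one, one_mul]
    have e2 : 3 / 2 * (chi a l0 s n t * (1 - Qs a s f n t)) -
        2 * (chi a l0 s n t * ((1 - Qs a s f n t) * cos (Ss a s f n t))) +
        1 / 2 * (chi a l0 s n t * ((1 - Qs a s f n t) * cos (2 * Ss a s f n t))) =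
        (chi a l0 s n t * (1 - Qs a s f n t)) * (1 - cos (Ss a s f n t)) ^ 2 := by
      rw [← cos_poly]
      ring
    rw [e2]
    apply mul_le_of_le_one_left (sq_nonneg _)
    exact mul_le_one₀ q1.2 (by linarith) (by linarith)
  -- (f)
  set W : ℝ := ∑ k ∈ Finset.range n, sq (f k) with hW
  have hW0 : 0 ≤ W := Finset.sum_nonneg fun _ _ => sq_nonneg' _
  have pf := gauss_four (x := W / 2) (by positivity)
  have e4 : -(2 ^ 2 * W / 2) = -(4 * (W / 2)) := by ring
  rw [e4] at d2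
  have e5 : 3 * (W / 2) ^ 2 = 3 / 4 * W ^ 2 := by ring
  rw [e5] at pf
  have hn0 : (0 : ℝ) ≤ n := Nat.cast_nonneg n
  have z1 : 0 ≤ (n : ℝ) * (4 * (2 * A * ep)) := by positivity
  have z2 : 0 ≤ (n : ℝ) * (l0 / |a|) := by positivity
  have z3 : 0 ≤ (n : ℝ) * (4 * (2 * B) ^ 3 + (2 * B) ^ 4) := by positivity
  obtain ⟨x1, hx1⟩ : ∃ x1, x1 = (n : ℝ) * (4 * (2 * A * ep)) := ⟨_, rfl⟩
  obtain ⟨x2, hx2⟩ : ∃ x2, x2 = (n : ℝ) * (l0 / |a|) := ⟨_, rfl⟩
  obtain ⟨x3, hx3⟩ : ∃ x3, x3 = (n : ℝ) * (4 * (2 * B) ^ 3 + (2 * B) ^ 4) := ⟨_, rfl⟩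
  have g1 : (n : ℝ) * (4 * (2 * A * ep) + 2 * (l0 / |a|) + (4 * (2 * B) ^ 3 + (2 * B) ^ 4)) =
    x1 + 2 * x2 + x3 := by rw [hx1, hx2, hx3]; ring
  have g2 : (n : ℝ) * (4 * (2 * A * ep) + 4 * (l0 / |a|)) = x1 + 4 * x2 := by
    rw [hx1, hx2]; ring
  have g3 : (n : ℝ) * (4 * (2 * A * ep) + 4 * (l0 / |a|) + (4 * (2 * B) ^ 3 + (2 * B) ^ 4)) =
    x1 + 4 * x2 + x3 := by rw [hx1, hx2, hx3]; ring
  have g4 : (n : ℝ) * (2 * (l0 / |a|)) = 2 * x2 := by rw [hx2]; ring
  rw [g1] at s0 s1 s2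
  rw [g2, ← hx3] at d1 d2
  rw [g3]
  rw [g4] at pa
  rw [← hx1] at z1
  rw [← hx2] at z2
  rw [← hx3] at z3
  linarith [s0.1, s0.2, s1.1, s1.2, s2.1, s2.2, d1.1, d1.2, d2.1, d2.2]

end Pool.Agent.U581.BM
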