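import Pool.Agent.U581.BM.Maxi2

/-!
# The maximal inequality with a rate
-/

set_option autoImplicit false

namespace Pool.Agent.U581.BM

open Real MeasureTheory Function Pool.Agent.TH705.SM

theorem Qs_zero {a s : ℝ} {f : ℕ → ℝ → ℝ} {t : ℝ} {j n : ℕ} (hj : j ≤ n)
    (h : 3 * π / 4 ≤ |Ss a s f j t|) : Qs a s f n t = 0 := by
  have h0 : Qs a s f j t = 0 := by
    cases j with
    | zero =>
      exfalso
      have h1 : Ss a s f 0 t = 0 := rfl
      rw [h1, abs_zero] at h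
      have := pi_pos
      linarith
    | succ m =>
      show Qs a s f m t * (1 - eta (Ss a s f (m + 1) t)) = 0
      rw [eta_one h]
      ring
  induction n, hj using Nat.le_induction with
  | base => exact h0
  | succ n _ ih =>
    show Qs a s f n t * (1 - eta (Ss a s f (n + 1) t)) = 0
    rw [ih, zero_mul]

theorem meas_le {f f' : ℕ → ℝ → ℝ} {A v : ℝ} (a s : ℝ) (F : Fam f f' A v) (n : ℕ) {c : ℝ} :
    MeasurableSet {t : ℝ | t ∈ Set.Ioc (0:ℝ) 1 ∧ ∃ j ≤ n, c ≤ |Ss a s f j t|} := by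
  have h1 : {t : ℝ | t ∈ Set.Ioc (0:ℝ) 1 ∧ ∃ j ≤ n, c ≤ |Ss a s f j t|} =
      Set.Ioc (0:ℝ) 1 ∩ ⋃ j ∈ Finset.range (n + 1), {t | c ≤ |Ss a s f j t|} := by
    ext t
    simp only [Set.mem_ofPred_eq, Set.mem_inter_iff, Set.mem_iUnion, Finset.mem_range,
      exists_prop, Nat.lt_succ_iff]
  rw [h1]
  refine measurableSet_Ioc.inter (Finset.measurableSet_biUnion _ fun j _ => ?_)
  exact (isClosed_le continuous_const (Ss_cont a s F j).abs).measurableSet

theorem exit_measure {f f' : ℕ → ℝ → ℝ} {A v : ℝ} (a s : ℝ) (F : Fam f f' A v) (n : ℕ) :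
    volume.real {t : ℝ | t ∈ Set.Ioc (0:ℝ) 1 ∧ ∃ j ≤ n, 3 * π / 4 ≤ |Ss a s f j t|} ≤
      ∫ t in (0:ℝ)..1, (1 - Qs a s f n t) := by
  have hQ := Qs_cont a s F n
  set S := {t : ℝ | t ∈ Set.Ioc (0:ℝ) 1 ∧ ∃ j ≤ n, 3 * π / 4 ≤ |Ss a s f j t|} with hS
  have hm : MeasurableSet S := meas_le a s F n
  have hsub : S ⊆ Set.Ioc (0:ℝ) 1 := fun t ht => ht.1
  rw [intervalIntegral.integral_of_le zero_le_one]
  have hint : IntegrableOn (fun t => 1 - Qs a s f n t) (Set.Ioc (0:ℝ) 1) volume := by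
    have := (continuous_const.sub hQ : Continuous fun t => 1 - Qs a s f n t).intervalIntegrable
      (μ := volume) 0 1
    rwa [intervalIntegrable_iff_integrableOn_Ioc_of_le zero_le_one] at this
  calc volume.real S = ∫ t in S, (1 : ℝ) := by simp
    _ = ∫ t in S, (1 - Qs a s f n t) := by
        apply setIntegral_congr_fun hm
        intro t ht
        obtain ⟨-, j, hj, h⟩ := ht
        simp only
        rw [Qs_zero hj h, sub_zero]
    _ ≤ ∫ t in Set.Ioc (0:ℝ) 1, (1 - Qs a s f n t) := by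
        apply setIntegral_mono_set hint
        · refine Filter.Eventually.of_forall fun t => ?_
          have := Qs_mem a s f n t
          simp only [Pi.zero_apply]
          linarith
        · exact hsub.eventuallyLE

theorem real_le_one {p : ℝ → Prop} :
    volume.real {t : ℝ | t ∈ Set.Ioc (0:ℝ) 1 ∧ p t} ≤ 1 := by
  have h1 : volume.real {t : ℝ | t ∈ Set.Ioc (0:ℝ) 1 ∧ p t} ≤ volume.real (Set.Ioc (0:ℝ) 1) :=
    measureReal_mono (fun t ht => ht.1) (by simp)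
  simpa using h1

theorem sq_smul (κ : ℝ) (f : ℝ → ℝ) : sq (fun x => κ * f x) = κ ^ 2 * sq f := by
  unfold sq
  rw [← intervalIntegral.integral_const_mul]
  apply intervalIntegral.integral_congr
  intro x _
  simp only
  ring

/-- **the maximal inequality** -/
theorem maxi {M : ℝ} (hM0 : 0 ≤ M) : ∃ C : ℝ, 0 < C ∧ ∀ f f' : ℕ → ℝ → ℝ, Obs f f' M →
    ∀ a : ℝ, 1 ≤ |a| → ∀ n : ℕ, 1 ≤ n → ∀ s lam : ℝ, 0 < lam →
    volume.real {t : ℝ | t ∈ Set.Ioc (0:ℝ) 1 ∧ ∃ j ≤ n, lam * √n ≤ |Ss a s f j t|} ≤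
      24 * ((∑ k ∈ Finset.range n, sq (f k)) / n) ^ 2 / lam ^ 4 +
        C * (1 + 1 / lam) ^ 4 * rate a n := by
  have hl0 := l0_ge
  have hK := KK_one
  obtain ⟨C1, hC1⟩ : ∃ C1, C1 = (144 * M + 10) * (4 * l0 + 16 * KK + 12) + 36 +
    9 * (32 * M ^ 3 + 16 * M ^ 4) := ⟨_, rfl⟩
  have hC10 : 0 < C1 := by rw [hC1]; positivity
  refine ⟨81 * (C1 + l0 + M), by positivity, ?_⟩
  intro f f' O a ha n hn s lam hlam
  have hpi3 := pi_gt_three
  have hpi4 := pi_lt_d2
  have hn1 : (1 : ℝ) ≤ n := by exact_mod_cast hn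
  have hn0 : (0 : ℝ) < n := by linarith
  have ha0 : 0 < |a| := by linarith
  obtain ⟨r1, r2, r3, r4⟩ := rate_parts ha hn
  obtain ⟨K, hKd⟩ : ∃ K, K = 3 * π / 4 / lam := ⟨_, rfl⟩
  have hK0 : 0 < K := by rw [hKd]; positivity
  have hKl : K * lam = 3 * π / 4 := by rw [hKd]; field_simp
  have hK3 : 1 + K ≤ 3 * (1 + 1 / lam) := by
    have h1 : K ≤ 3 / lam := by
      rw [hKd]
      apply div_le_div_of_nonneg_right _ hlam.le
      linarith
    have h2 : 3 / lam = 3 * (1 / lam) := by ring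
    linarith
  have hK4 : (1 + K) ^ 4 ≤ 81 * (1 + 1 / lam) ^ 4 := by
    calc (1 + K) ^ 4 ≤ (3 * (1 + 1 / lam)) ^ 4 := pow_le_pow_left₀ (by positivity) hK3 4
      _ = _ := by ring
  have hK1 : 1 ≤ (1 + K) ^ 4 := one_le_pow₀ (by linarith)
  have hfirst : 0 ≤ 24 * ((∑ k ∈ Finset.range n, sq (f k)) / n) ^ 2 / lam ^ 4 := by positivity
  obtain ⟨q, hq⟩ : ∃ q : ℝ, q = √n := ⟨_, rfl⟩
  have hq1 : 1 ≤ q := by rw [hq]; exact Real.one_le_sqrt.2 hn1
  have hq0 : 0 < q := by linarith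
  have hq2 : (n : ℝ) = q ^ 2 := by rw [hq, Real.sq_sqrt hn0.le]
  have hkey : volume.real {t : ℝ | t ∈ Set.Ioc (0:ℝ) 1 ∧ ∃ j ≤ n, lam * √n ≤ |Ss a s f j t|} ≤
      24 * ((∑ k ∈ Finset.range n, sq (f k)) / n) ^ 2 / lam ^ 4 +
        (C1 + l0 + M) * (1 + K) ^ 4 * rate a n := by
    have hC1p : 0 ≤ C1 * (1 + K) ^ 4 * rate a n := by positivity
    have hl0p : 0 ≤ l0 * (1 + K) ^ 4 * rate a n := by positivity
    have hMp : 0 ≤ M * (1 + K) ^ 4 * rate a n := by positivity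
    have hsplit : (C1 + l0 + M) * (1 + K) ^ 4 * rate a n = C1 * (1 + K) ^ 4 * rate a n +
      l0 * (1 + K) ^ 4 * rate a n + M * (1 + K) ^ 4 * rate a n := by ring
    rcases lt_or_ge (l0 * √((n : ℝ) / |a|)) 1 with hsm | hbig
    swap
    · have h1 : 1 ≤ l0 * rate a n := hbig.trans (mul_le_mul_of_nonneg_left r3 (by linarith))
      have h2 : l0 * rate a n * 1 ≤ l0 * rate a n * (1 + K) ^ 4 :=
        mul_le_mul_of_nonneg_left hK1 (by positivity)
      have h3 := real_le_one (p := fun t => ∃ j ≤ n, lam * √n ≤ |Ss a s f j t|)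
      rw [hsplit]
      have e : l0 * rate a n * (1 + K) ^ 4 = l0 * (1 + K) ^ 4 * rate a n := by ring
      linarith
    set κ : ℝ := K / √n with hκ
    have hκ0 : 0 ≤ κ := by rw [hκ]; positivity
    have hκa : κ = K / q := by rw [hκ, hq]
    rcases lt_or_ge 1 (κ * M) with hbig | hB1
    · have h1 : 1 ≤ M * K * (1 / √n) := by
        rw [hκ] at hbig
        have : K / √n * M = M * K * (1 / √n) := by ring
        linarith
      have h2 : M * K * (1 / √n) ≤ M * (1 + K) ^ 4 * rate a n := by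
        have h4 : K ≤ (1 + K) ^ 4 := by
          have := le_self_pow₀ (by linarith : 1 ≤ 1 + K) (by norm_num : (4:ℕ) ≠ 0)
          linarith
        gcongr
      have h3 := real_le_one (p := fun t => ∃ j ≤ n, lam * √n ≤ |Ss a s f j t|)
      rw [hsplit]
      linarith
    obtain ⟨l, w, hl', hla, hlw, hep, hlo⟩ := param ha hn hsm
    have Fκ := O.fam.smul hκ0
    have hmean : ∀ k, ∫ x in (0:ℝ)..1, κ * f k x = 0 := fun k => by
      rw [intervalIntegral.integral_const_mul, O.mean k, mul_zero]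
    have hB : ∀ k x, |κ * f k x| ≤ κ * M := fun k x => by
      rw [abs_mul, abs_of_nonneg hκ0]
      exact mul_le_mul_of_nonneg_left (O.le k x) hκ0
    have h1 := maxi0 hl' hla hlw s Fκ hmean hB hB1 n
    have h2 := exit_measure a s Fκ n
    have hset : {t : ℝ | t ∈ Set.Ioc (0:ℝ) 1 ∧ ∃ j ≤ n,
        3 * π / 4 ≤ |Ss a s (fun k x => κ * f k x) j t|} =
        {t : ℝ | t ∈ Set.Ioc (0:ℝ) 1 ∧ ∃ j ≤ n, lam * √n ≤ |Ss a s f j t|} := by
      ext t
      simp only [Set.mem_ofPred_eq]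
      apply and_congr_right
      intro _
      apply exists_congr
      intro j
      apply and_congr_right
      intro _
      rw [Ss_smul, abs_mul, abs_of_nonneg hκ0, ← hKl, hκa, ← hq, div_mul_eq_mul_div,
        le_div_iff₀ hq0, mul_assoc, mul_le_mul_iff_right₀ hK0]
    rw [hset] at h2
    -- the main term
    have e1 : 3 / 4 * (∑ k ∈ Finset.range n, sq (fun x => κ * f k x)) ^ 2 ≤
        24 * ((∑ k ∈ Finset.range n, sq (f k)) / n) ^ 2 / lam ^ 4 := by
      simp_rw [sq_smul]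
      rw [← Finset.mul_sum, hκa, hq2, hKd]
      set W := ∑ k ∈ Finset.range n, sq (f k)
      have e2 : 3 / 4 * ((3 * π / 4 / lam / q) ^ 2 * W) ^ 2 =
          (3 / 4 * (3 * π / 4) ^ 4) * (W / q ^ 2) ^ 2 / lam ^ 4 := by
        field_simp
      rw [e2]
      have h3 : 3 / 4 * (3 * π / 4) ^ 4 ≤ 24 := by
        have : 3 * π / 4 ≤ 3 * 3.15 / 4 := by linarith
        calc 3 / 4 * (3 * π / 4) ^ 4 ≤ 3 / 4 * (3 * 3.15 / 4) ^ 4 := by gcongr
          _ ≤ 24 := by norm_num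
      gcongr
    -- the errors
    set R : ℝ := √((n : ℝ) / |a|) * (1 + log |a|) with hR
    have hRr : 0 ≤ R := by
      have := Real.log_nonneg ha
      positivity
    have hv1 : (4 * KK + 2) * (κ * M) ≤ 4 * KK + 2 := mul_le_of_le_one_right (by positivity) hB1
    obtain ⟨ep, hepd⟩ : ∃ ep, ep = eps a l w ((4 * KK + 2) * (κ * M)) := ⟨_, rfl⟩
    have hep0 : 0 ≤ ep := by
      rw [hepd]
      unfold eps
      have hM := O.M0
      have : 0 < l := by linarith
      positivity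
    have hep1 : q * ep ≤ (4 * l0 + 16 * KK + 12) * R := by
      have h3 := hep ((4 * KK + 2) * (κ * M)) (by positivity)
      rw [← hepd, ← hq] at h3
      refine h3.trans (mul_le_mul_of_nonneg_right (by linarith) hRr)
    have hep2 : ep ≤ (4 * l0 + 16 * KK + 12) * R := (le_mul_of_one_le_left hep0 hq1).trans hep1
    rw [← hepd] at h1
    have hnκ : (n : ℝ) * κ = K * q := by rw [hκa, hq2]; field_simp
    have z1 : (n : ℝ) * (4 * (2 * (κ * (2 * M)) * ep)) = 16 * M * K * (q * ep) := by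
      calc _ = 16 * M * (n * κ) * ep := by ring
        _ = _ := by rw [hnκ]; ring
    have z2 : (n : ℝ) * (4 * (2 * (κ * M)) ^ 3 + (2 * (κ * M)) ^ 4) ≤
        (32 * M ^ 3 + 16 * M ^ 4) * (1 + K) ^ 4 * rate a n := by
      have y1 : (n : ℝ) * (4 * (2 * (κ * M)) ^ 3) = 32 * M ^ 3 * K ^ 3 * (1 / q) := by
        rw [hκa, hq2]
        field_simp
        ring
      have y2 : (n : ℝ) * (2 * (κ * M)) ^ 4 = 16 * M ^ 4 * K ^ 4 * (1 / q ^ 2) := by
        rw [hκa, hq2]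
        field_simp
        ring
      have y3 : K ^ 3 ≤ (1 + K) ^ 4 := by
        calc K ^ 3 ≤ (1 + K) ^ 3 := pow_le_pow_left₀ hK0.le (by linarith) 3
          _ ≤ (1 + K) ^ 4 := pow_le_pow_right₀ (by linarith) (by norm_num)
      have y4 : K ^ 4 ≤ (1 + K) ^ 4 := pow_le_pow_left₀ hK0.le (by linarith) 4
      have y5 : 1 / q ^ 2 ≤ 1 / q := one_div_le_one_div_of_le hq0 (le_self_pow₀ hq1 two_ne_zero)
      have y6 : 1 / q ≤ rate a n := by rw [hq]; exact r1
      rw [mul_add, y1, y2]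
      have y7 : 32 * M ^ 3 * K ^ 3 * (1 / q) ≤ 32 * M ^ 3 * (1 + K) ^ 4 * rate a n := by gcongr
      have y8 : 16 * M ^ 4 * K ^ 4 * (1 / q ^ 2) ≤ 16 * M ^ 4 * (1 + K) ^ 4 * rate a n := by
        have : 1 / q ^ 2 ≤ rate a n := y5.trans y6
        gcongr
      calc _ ≤ 32 * M ^ 3 * (1 + K) ^ 4 * rate a n + 16 * M ^ 4 * (1 + K) ^ 4 * rate a n :=
            add_le_add y7 y8
        _ = _ := by ring
    have hKle : K ≤ (1 + K) ^ 4 := by
      have := le_self_pow₀ (by linarith : 1 ≤ 1 + K) (by norm_num : (4:ℕ) ≠ 0)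
      linarith
    have z3 : 16 * M * K * (q * ep) ≤
        16 * M * (4 * l0 + 16 * KK + 12) * (1 + K) ^ 4 * rate a n := by
      calc 16 * M * K * (q * ep) ≤ 16 * M * (1 + K) ^ 4 * ((4 * l0 + 16 * KK + 12) * rate a n) := by
            have : q * ep ≤ (4 * l0 + 16 * KK + 12) * rate a n :=
              hep1.trans (mul_le_mul_of_nonneg_left r2 (by positivity))
            have : 0 ≤ q * ep := by positivity
            gcongr
        _ = _ := by ring
    have z4 : ep ≤ (4 * l0 + 16 * KK + 12) * (1 + K) ^ 4 * rate a n := by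
      calc ep ≤ (4 * l0 + 16 * KK + 12) * rate a n :=
            hep2.trans (mul_le_mul_of_nonneg_left r2 (by positivity))
        _ = (4 * l0 + 16 * KK + 12) * 1 * rate a n := by ring
        _ ≤ _ := by gcongr
    have z5 : (n : ℝ) * (l0 / |a|) ≤ (1 + K) ^ 4 * rate a n := by
      calc (n : ℝ) * (l0 / |a|) ≤ 1 * rate a n := by rw [one_mul]; exact hlo.trans r2
        _ ≤ _ := by gcongr
    have z6 : 9 * ((n : ℝ) * (4 * (2 * (κ * (2 * M)) * ep) + 4 * (l0 / |a|) +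
        (4 * (2 * (κ * M)) ^ 3 + (2 * (κ * M)) ^ 4))) + 10 * ep ≤
        C1 * (1 + K) ^ 4 * rate a n := by
      have e3 : (n : ℝ) * (4 * (2 * (κ * (2 * M)) * ep) + 4 * (l0 / |a|) +
        (4 * (2 * (κ * M)) ^ 3 + (2 * (κ * M)) ^ 4)) = 16 * M * K * (q * ep) +
        4 * (n * (l0 / |a|)) + n * (4 * (2 * (κ * M)) ^ 3 + (2 * (κ * M)) ^ 4) := by
        rw [← z1]
        ring
      rw [e3, hC1]
      have e4 : ((144 * M + 10) * (4 * l0 + 16 * KK + 12) + 36 + 9 * (32 * M ^ 3 + 16 * M ^ 4)) *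
          (1 + K) ^ 4 * rate a n =
          9 * (16 * M * (4 * l0 + 16 * KK + 12) * (1 + K) ^ 4 * rate a n) +
          10 * ((4 * l0 + 16 * KK + 12) * (1 + K) ^ 4 * rate a n) +
          36 * ((1 + K) ^ 4 * rate a n) +
          9 * ((32 * M ^ 3 + 16 * M ^ 4) * (1 + K) ^ 4 * rate a n) := by ring
      rw [e4]
      linarith
    rw [hsplit]
    linarith
  refine hkey.trans (add_le_add le_rfl ?_)
  calc (C1 + l0 + M) * (1 + K) ^ 4 * rate a n ≤
        (C1 + l0 + M) * (81 * (1 + 1 / lam) ^ 4) * rate a n := by gcongr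
    _ = _ := by ring

end Pool.Agent.U581.BM
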