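import Pool.Agent.TH705.SM.CltI

/-!
# Correlations of smooth functions of the past with the next position of the standard map

`Past a s m v P P'`: `P` is a function of period `1` of the starting point, bounded by `1`, whose
derivative `P'` is at most `v` times the sum of the derivatives of the first `m` positions wherever all
these positions are away from the critical lines.
-/

set_option autoImplicit false

namespace Pool.Agent.U581.BM

open Real MeasureTheory Function Pool.Agent.TH705.SM

/-- real functions of the past -/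
structure Past (a s : ℝ) (m : ℕ) (v : ℝ) (P P' : ℝ → ℝ) : Prop where
  d : ∀ t, HasDerivAt P (P' t) t
  c : Continuous P'
  per : ∀ t, P (t + 1) = P t
  le : ∀ t, |P t| ≤ 1
  bd : ∀ t, Good a l0 s m t → |P' t| ≤ v * SD a s m t

theorem Past.cont {a s : ℝ} {m : ℕ} {v : ℝ} {P P' : ℝ → ℝ} (h : Past a s m v P P') :
    Continuous P := continuous_iff_continuousAt.2 fun t => (h.d t).continuousAt

/-- one step with the window -/
theorem step_winG {a l : ℝ} (hl' : l0 ≤ l) (hla : l ≤ |a|) (s : ℝ) (i k : ℕ) (hik : k = 0 → i = 0)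
    (hpow : i ≠ 0 → l ≤ 2 ^ k) {R R' : ℝ → ℝ} {v : ℝ} (hv0 : 0 ≤ v) (hR : Past a s (i + k) v R R')
    {g : ℝ → ℝ} (hg : Continuous g) (pg : Periodic g 1)
    (g0 : ∫ x in (0:ℝ)..1, g x = 0) {A : ℝ} (hA : ∀ x, |g x| ≤ A) :
    |∫ t in (0:ℝ)..1, chi a l0 s (i + k) t * (win a l s i k t * R t) *
      g (X a s (i + k + 1) t)| ≤ A * ((4 * l0 + 4 * v) / l) := by
  have h16 : 16 ≤ l0 := l0_ge
  have h00 : 0 < l0 := by linarith
  have hl0 : 0 < l := by linarith
  have hK := KK_one
  have hA0 : 0 ≤ A := (abs_nonneg _).trans (hA 0)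
  rcases hA0.eq_or_lt with h0 | hApos
  · have hz : ∀ x, g x = 0 := fun x => abs_nonpos_iff.1 (by rw [h0]; exact hA x)
    simp only [hz, mul_zero, intervalIntegral.integral_zero, abs_zero]
    rw [← h0, zero_mul]
  obtain ⟨G, hG, hGp, hG1⟩ := prim (f := fun x => 2 * g x / A) (by fun_prop)
    (fun x => by show 2 * g (x + 1) / A = 2 * g x / A; rw [pg x]) (by
      rw [intervalIntegral.integral_div, intervalIntegral.integral_const_mul, g0]; simp) (by
      intro x
      rw [abs_div, abs_mul, abs_of_pos hApos, abs_of_pos (by norm_num : (0:ℝ) < 2),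
        div_le_iff₀ hApos]
      have := hA x
      linarith)
  set m : ℕ := i + k with hm
  have hRc := hR.cont
  have hR'c := hR.c
  set P : ℝ → ℝ := fun t => win a l s i k t * R t with hP
  set P' : ℝ → ℝ := fun t => win' a l s i k t * R t + win a l s i k t * R' t with hP'
  have hwc := win_cont a l s i k
  have hwc' := win'_cont a l s i k
  have hPd : ∀ t, HasDerivAt P (P' t) t := by
    intro t
    exact (win_hasDeriv a l s i k t).mul (hR.d t)
  have hPc : Continuous P := by rw [hP]; fun_prop
  have hP'c : Continuous P' := by rw [hP']; fun_prop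
  have hP1 : ∀ t, |P t| ≤ win a l s i k t := by
    intro t
    have hw := win_mem a l s i k t
    rw [hP]
    simp only
    rw [abs_mul, abs_of_nonneg hw.1]
    exact mul_le_of_le_one_right hw.1 (hR.le t)
  have hPp : ∀ t, P (t + 1) = P t := by
    intro t
    rw [hP]
    simp only
    rw [hR.per, win_period]
  have hP'b : ∀ t, chi a l0 s m t * |P' t| / |D a s (m + 1) t| ≤
      72 * KK * π ^ 2 * VY a l s i k t + 4 * v / l := by
    intro t
    have hVY := VY_nonneg a l s i k t
    by_cases hg' : Good a l0 s m t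
    · have hD0 : 0 < |D a s (m + 1) t| := abs_pos.2 (D_ne h16 hg')
      have h1 := growth h16 hg' m le_rfl
      have h2 := SD_le h16 hg'
      have h4 := chi_mem a l0 s m t
      have hw := win_mem a l s i k t
      have h3 := win'_le (a := a) (s := s) hl0 i k t
      have hb : win a l s i k t * (v * SD a s m t) ≤ 4 * v / l * |D a s (m + 1) t| := by
        rcases Nat.eq_zero_or_pos k with hk0 | hkpos
        · have hm0 : m = 0 := by rw [hm, hk0, hik hk0]
          rw [hm0]
          have : SD a s 0 t = 0 := by simp [SD]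
          rw [this, mul_zero, mul_zero]
          positivity
        · by_cases hL : l ≤ |L a (X a s m t)|
          · have h5 : l * |D a s m t| ≤ 2 * |D a s (m + 1) t| :=
              (mul_le_mul_of_nonneg_right hL (abs_nonneg _)).trans (h1.2.1 (by omega))
            calc win a l s i k t * (v * SD a s m t) ≤ 1 * (v * (2 * |D a s m t|)) := by
                  apply mul_le_mul hw.2 (mul_le_mul_of_nonneg_left h2 hv0)
                    (mul_nonneg hv0 (SD_nonneg a s m t)) zero_le_one
              _ = 2 * v / l * (l * |D a s m t|) := by field_simp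
              _ ≤ 2 * v / l * (2 * |D a s (m + 1) t|) := mul_le_mul_of_nonneg_left h5 (by positivity)
              _ = _ := by ring
          · have hz : win a l s i k t = 0 := by
              obtain ⟨k', hk'⟩ : ∃ k', k = k' + 1 := ⟨k - 1, by omega⟩
              rw [hk']
              show win a l s i k' t * rk a l s (i + k' + 1) t = 0
              have : i + k' + 1 = m := by omega
              rw [this, (rk_far hl0 hL).1, mul_zero]
            rw [hz, zero_mul]
            positivity
      have h5 : |P' t| ≤ |win' a l s i k t| + win a l s i k t * (v * SD a s m t) := by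
        rw [hP']
        simp only
        refine (abs_add_le _ _).trans (add_le_add ?_ ?_)
        · rw [abs_mul]
          exact mul_le_of_le_one_right (abs_nonneg _) (hR.le t)
        · rw [abs_mul, abs_of_nonneg hw.1]
          exact mul_le_mul_of_nonneg_left (hR.bd t hg') hw.1
      rw [div_le_iff₀ hD0]
      calc chi a l0 s m t * |P' t| ≤
            chi a l0 s m t * (|win' a l s i k t| + win a l s i k t * (v * SD a s m t)) :=
            mul_le_mul_of_nonneg_left h5 h4.1
        _ = chi a l0 s m t * |win' a l s i k t| +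
            chi a l0 s m t * (win a l s i k t * (v * SD a s m t)) := by ring
        _ ≤ 72 * KK * π ^ 2 * |D a s (m + 1) t| * VY a l s i k t +
            1 * (4 * v / l * |D a s (m + 1) t|) := by
            apply add_le_add h3
            apply mul_le_mul h4.2 hb (mul_nonneg hw.1 (mul_nonneg hv0 (SD_nonneg a s m t)))
              zero_le_one
        _ = _ := by ring
    · rw [(chi_bad h00 hg').1, zero_mul, zero_div]
      positivity
  have hVc := VW_cont a hl0 s i k
  have hYc := VY_cont a hl0 s i k
  have hibp := ibp2 (a := a) (s := s) h16 m hPd hP'c hPp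
    (bd := fun t => 104 * KK * π ^ 2 * VW a l s i k t +
      (72 * KK * π ^ 2 * VY a l s i k t + 4 * v / l)) (by fun_prop) (fun t => by
      refine (W'_le3 h16 m).trans (add_le_add ?_ (hP'b t))
      apply mul_le_mul_of_nonneg_left _ (by positivity)
      refine le_trans ?_ (win_VV (a := a) (s := s) hl0 i k t)
      exact mul_le_mul_of_nonneg_right (hP1 t) (VV_nonneg a l0 s m t)) hG (by fun_prop) (fun u n => by
      have := hGp.nat_mul n u
      rwa [mul_one] at this) hG1
  have hVI : ∫ t in (0:ℝ)..1, VW a l s i k t ≤ 3 / l := by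
    rcases Nat.eq_zero_or_pos i with hi | hi
    · have h1 := VW_int hl' hla s i k (c := 0) (by
        rw [hi]
        show ∫ t in (0:ℝ)..1, (0:ℝ) ≤ 0
        simp)
      have : 2 / l ≤ 3 / l := div_le_div_of_nonneg_right (by norm_num) hl0.le
      linarith
    · have h1 := VW_int hl' hla s i k (VV_int le_rfl (hl'.trans hla) s i)
      have h2 := hpow (by omega)
      have h3 : (1 / 2 : ℝ) ^ k * (1 / l0) ≤ 1 / l := by
        have h4 : (1 / 2 : ℝ) ^ k ≤ 1 / l := by
          rw [one_div_pow]
          exact one_div_le_one_div_of_le hl0 h2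
        have h5 : 1 / l0 ≤ 1 := by rw [div_le_one h00]; linarith
        calc (1 / 2 : ℝ) ^ k * (1 / l0) ≤ (1 / l) * 1 :=
              mul_le_mul h4 h5 (by positivity) (by positivity)
          _ = _ := mul_one _
      have : 1 / l + 2 / l = 3 / l := by rw [← add_div]; norm_num
      linarith
  have hYI := VY_int hl' hla s i k
  rw [one_mul, intervalIntegral.integral_add (f := fun t => 104 * KK * π ^ 2 * VW a l s i k t)
    (g := fun t => 72 * KK * π ^ 2 * VY a l s i k t + 4 * v / l)
    ((continuous_const.mul hVc).intervalIntegrable _ _)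
    (((continuous_const.mul hYc).add continuous_const).intervalIntegrable _ _),
    intervalIntegral.integral_add (f := fun t => 72 * KK * π ^ 2 * VY a l s i k t)
    (g := fun _ => 4 * v / l) ((continuous_const.mul hYc).intervalIntegrable _ _)
    (continuous_const.intervalIntegrable _ _),
    intervalIntegral.integral_const_mul, intervalIntegral.integral_const_mul,
    intervalIntegral.integral_const, sub_zero, one_smul] at hibp
  have hAe : ∫ t in (0:ℝ)..1, chi a l0 s m t * P t * (2 * g (X a s (m + 1) t) / A / 2) =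
      (∫ t in (0:ℝ)..1, chi a l0 s m t * P t * g (X a s (m + 1) t)) / A := by
    rw [← intervalIntegral.integral_div]
    apply intervalIntegral.integral_congr
    intro t _
    simp only
    ring
  rw [hAe, abs_div, abs_of_pos hApos, div_le_iff₀ hApos] at hibp
  refine hibp.trans ?_
  rw [mul_comm]
  apply mul_le_mul_of_nonneg_left _ hApos.le
  have z1 := mul_le_mul_of_nonneg_left hVI (by positivity : 0 ≤ 104 * KK * π ^ 2)
  have z2 := mul_le_mul_of_nonneg_left hYI (by positivity : 0 ≤ 72 * KK * π ^ 2)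
  have z3 : 104 * KK * π ^ 2 = l0 := rfl
  have z4 : 72 * KK * π ^ 2 ≤ l0 := by
    rw [← z3]
    have : 0 ≤ KK * π ^ 2 := by positivity
    nlinarith
  have z5 : 72 * KK * π ^ 2 * (1 / l) ≤ l0 * (1 / l) :=
    mul_le_mul_of_nonneg_right z4 (by positivity)
  rw [z3] at z1 ⊢
  have z6 : (4 * l0 + 4 * v) / l = l0 * (3 / l) + l0 * (1 / l) + 4 * v / l := by
    field_simp
    ring
  rw [z6]
  linarith

/-- the error of one step -/
noncomputable def eps (a l : ℝ) (w : ℕ) (v : ℝ) : ℝ := (4 * l0 + 4 * v) / l + w * (2 * (l / |a|))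

/-- one step, real form, weak cutoffs -/
theorem step_realG {a l : ℝ} (hl' : l0 ≤ l) (hla : l ≤ |a|) {w : ℕ}
    (hlw : l ≤ 2 ^ w) (s : ℝ) (m : ℕ) {R R' : ℝ → ℝ} {v : ℝ} (hv0 : 0 ≤ v)
    (hR : Past a s m v R R') {g : ℝ → ℝ} (hg : Continuous g) (pg : Periodic g 1)
    (g0 : ∫ x in (0:ℝ)..1, g x = 0) {A : ℝ} (hA : ∀ x, |g x| ≤ A) :
    |∫ t in (0:ℝ)..1, chi a l0 s m t * R t * g (X a s (m + 1) t)| ≤ A * eps a l w v := by
  have h16 : 16 ≤ l0 := l0_ge
  have hl0 : 0 < l := by linarith
  have ha0 : 0 < |a| := by linarith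
  have hA0 : 0 ≤ A := (abs_nonneg _).trans (hA 0)
  obtain ⟨i, k, hik, h0, hkw, hpow⟩ : ∃ i k : ℕ, i + k = m ∧ (k = 0 → i = 0) ∧ k ≤ w ∧
      (i ≠ 0 → l ≤ 2 ^ k) := by
    have hw : 1 ≤ w := by
      rcases Nat.eq_zero_or_pos w with h | h
      · rw [h] at hlw
        norm_num at hlw
        linarith
      · exact h
    rcases Nat.lt_or_ge w m with h | h
    · exact ⟨m - w, w, by omega, by omega, le_rfl, fun _ => hlw⟩
    · exact ⟨0, m, by omega, fun _ => rfl, h, fun h => absurd rfl h⟩
  subst hik
  have hRc := hR.cont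
  have hcc := chi_cont a l0 s (i + k)
  have hXc := Xt_cont a s (i + k + 1)
  have hwc := win_cont a l s i k
  have h1 := step_winG hl' hla s i k h0 hpow hv0 hR hg pg g0 hA
  have h2 := win_loss hl' hla s i k
  have e1 : ∫ t in (0:ℝ)..1, chi a l0 s (i + k) t * R t * g (X a s (i + k + 1) t) =
      (∫ t in (0:ℝ)..1, chi a l0 s (i + k) t *
        (win a l s i k t * R t) * g (X a s (i + k + 1) t)) +
      ∫ t in (0:ℝ)..1, (chi a l0 s (i + k) t * (1 - win a l s i k t)) *
        (R t * g (X a s (i + k + 1) t)) := by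
    rw [← intervalIntegral.integral_add (Continuous.intervalIntegrable (by fun_prop) _ _)
      (Continuous.intervalIntegrable (by fun_prop) _ _)]
    apply intervalIntegral.integral_congr
    intro t _
    simp only
    ring
  rw [e1]
  refine (abs_add_le _ _).trans ?_
  have h3 : |∫ t in (0:ℝ)..1, (chi a l0 s (i + k) t * (1 - win a l s i k t)) *
        (R t * g (X a s (i + k + 1) t))| ≤ A * (k * (2 * (l / |a|))) := by
    have h4 := intervalIntegral.norm_integral_le_abs_of_norm_le (a := 0) (b := 1) (μ := volume)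
      (f := fun t => (chi a l0 s (i + k) t * (1 - win a l s i k t)) *
        (R t * g (X a s (i + k + 1) t)))
      (g := fun t => A * (chi a l0 s (i + k) t * (1 - win a l s i k t)))
      (Filter.Eventually.of_forall fun t => by
        have q1 := chi_mem a l0 s (i + k) t
        have q2 := win_mem a l s i k t
        have q3 : 0 ≤ chi a l0 s (i + k) t * (1 - win a l s i k t) :=
          mul_nonneg q1.1 (sub_nonneg.2 q2.2)
        rw [norm_eq_abs, abs_mul, abs_of_nonneg q3, abs_mul, mul_comm A]
        apply mul_le_mul_of_nonneg_left _ q3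
        calc _ ≤ 1 * A := mul_le_mul (hR.le t) (hA _) (abs_nonneg _) zero_le_one
          _ = A := one_mul A)
      (Continuous.intervalIntegrable (by fun_prop) _ _)
    rw [norm_eq_abs, intervalIntegral.integral_const_mul, abs_of_nonneg (mul_nonneg hA0
      (intervalIntegral.integral_nonneg zero_le_one fun t _ =>
        mul_nonneg (chi_mem a l0 s (i + k) t).1 (sub_nonneg.2 (win_mem a l s i k t).2)))] at h4
    exact h4.trans (mul_le_mul_of_nonneg_left h2 hA0)
  have h5 : (k : ℝ) * (2 * (l / |a|)) ≤ w * (2 * (l / |a|)) := by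
    apply mul_le_mul_of_nonneg_right _ (by positivity)
    exact_mod_cast hkw
  have h6 := mul_le_mul_of_nonneg_left h5 hA0
  unfold eps
  rw [mul_add]
  linarith

/-- complex functions of the past -/
structure PastC (a s : ℝ) (m : ℕ) (v : ℝ) (H H' : ℝ → ℂ) : Prop where
  d : ∀ t, HasDerivAt H (H' t) t
  c : Continuous H'
  per : ∀ t, H (t + 1) = H t
  le : ∀ t, ‖H t‖ ≤ 1
  bd : ∀ t, Good a l0 s m t → ‖H' t‖ ≤ v * SD a s m t

theorem PastC.cont {a s : ℝ} {m : ℕ} {v : ℝ} {H H' : ℝ → ℂ} (h : PastC a s m v H H') :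
    Continuous H := continuous_iff_continuousAt.2 fun t => (h.d t).continuousAt

theorem PastC.re {a s : ℝ} {m : ℕ} {v : ℝ} {H H' : ℝ → ℂ} (h : PastC a s m v H H') :
    Past a s m v (fun t => (H t).re) (fun t => (H' t).re) where
  d := fun t => Complex.reCLM.hasFDerivAt.comp_hasDerivAt t (h.d t)
  c := Complex.continuous_re.comp h.c
  per := fun t => by rw [h.per]
  le := fun t => (Complex.abs_re_le_norm _).trans (h.le t)
  bd := fun t ht => (Complex.abs_re_le_norm _).trans (h.bd t ht)

theorem PastC.im {a s : ℝ} {m : ℕ} {v : ℝ} {H H' : ℝ → ℂ} (h : PastC a s m v H H') :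
    Past a s m v (fun t => (H t).im) (fun t => (H' t).im) where
  d := fun t => Complex.imCLM.hasFDerivAt.comp_hasDerivAt t (h.d t)
  c := Complex.continuous_im.comp h.c
  per := fun t => by rw [h.per]
  le := fun t => (Complex.abs_im_le_norm _).trans (h.le t)
  bd := fun t ht => (Complex.abs_im_le_norm _).trans (h.bd t ht)

/-- one step, complex past, real observable -/
theorem step_cr {a l : ℝ} (hl' : l0 ≤ l) (hla : l ≤ |a|) {w : ℕ}
    (hlw : l ≤ 2 ^ w) (s : ℝ) (m : ℕ) {H H' : ℝ → ℂ} {v : ℝ} (hv0 : 0 ≤ v)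
    (hH : PastC a s m v H H') {g : ℝ → ℝ} (hg : Continuous g) (pg : Periodic g 1)
    (g0 : ∫ x in (0:ℝ)..1, g x = 0) {A : ℝ} (hA : ∀ x, |g x| ≤ A) :
    ‖∫ t in (0:ℝ)..1, (chi a l0 s m t : ℂ) * H t * (g (X a s (m + 1) t) : ℂ)‖ ≤
      2 * (A * eps a l w v) := by
  have b1 := step_realG hl' hla hlw s m hv0 hH.re hg pg g0 hA
  have b2 := step_realG hl' hla hlw s m hv0 hH.im hg pg g0 hA
  have hHc := hH.cont
  have hcc := chi_cont a l0 s m
  have hXc := Xt_cont a s (m + 1)
  have hint : ∀ t, (chi a l0 s m t : ℂ) * H t * (g (X a s (m + 1) t) : ℂ) =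
      ((chi a l0 s m t * (H t).re * g (X a s (m + 1) t) : ℝ) : ℂ) +
      ((chi a l0 s m t * (H t).im * g (X a s (m + 1) t) : ℝ) : ℂ) * Complex.I := by
    intro t
    conv_lhs => rw [← Complex.re_add_im (H t)]
    push_cast
    ring
  simp_rw [hint]
  rw [intervalIntegral.integral_add
    (Continuous.intervalIntegrable (by fun_prop) _ _)
    (Continuous.intervalIntegrable (by fun_prop) _ _), intervalIntegral.integral_mul_const,
    intervalIntegral.integral_ofReal, intervalIntegral.integral_ofReal]
  refine (norm_add_le _ _).trans ?_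
  rw [norm_mul, Complex.norm_I, mul_one, Complex.norm_real, Complex.norm_real, norm_eq_abs,
    norm_eq_abs]
  linarith

/-- one step, complex past, exponential observable -/
theorem step_cc {a l : ℝ} (hl' : l0 ≤ l) (hla : l ≤ |a|) {w : ℕ}
    (hlw : l ≤ 2 ^ w) (s : ℝ) (m : ℕ) {H H' : ℝ → ℂ} {v : ℝ} (hv0 : 0 ≤ v)
    (hH : PastC a s m v H H') {φ : ℝ → ℝ} (hφc : Continuous φ) (p : Periodic φ 1)
    {A : ℝ} (hA : ∀ x y, |φ x - φ y| ≤ A) :
    ‖∫ t in (0:ℝ)..1, (chi a l0 s m t : ℂ) * H t * (E (φ (X a s (m + 1) t)) - Lam φ)‖ ≤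
      4 * (A * eps a l w v) := by
  have hHc := hH.cont
  have hcc := chi_cont a l0 s m
  have hXc := Xt_cont a s (m + 1)
  set c1 : ℝ := ∫ x in (0:ℝ)..1, cos (φ x) with hc1
  set c2 : ℝ := ∫ x in (0:ℝ)..1, sin (φ x) with hc2
  set g1 : ℝ → ℝ := fun x => cos (φ x) - c1 with hg1
  set g2 : ℝ → ℝ := fun x => sin (φ x) - c2 with hg2
  have g1c : Continuous g1 := by rw [hg1]; fun_prop
  have g2c : Continuous g2 := by rw [hg2]; fun_prop
  have g1p : Periodic g1 1 := fun x => by
    show cos (φ (x + 1)) - c1 = cos (φ x) - c1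
    rw [p x]
  have g2p : Periodic g2 1 := fun x => by
    show sin (φ (x + 1)) - c2 = sin (φ x) - c2
    rw [p x]
  have g1z : ∫ x in (0:ℝ)..1, g1 x = 0 := by
    rw [hg1, intervalIntegral.integral_sub (Continuous.intervalIntegrable (by fun_prop) _ _)
      (by simp), intervalIntegral.integral_const, ← hc1]
    simp
  have g2z : ∫ x in (0:ℝ)..1, g2 x = 0 := by
    rw [hg2, intervalIntegral.integral_sub (Continuous.intervalIntegrable (by fun_prop) _ _)
      (by simp), intervalIntegral.integral_const, ← hc2]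
    simp
  have g1A : ∀ x, |g1 x| ≤ A := fun x =>
    avg_le (h := fun x => cos (φ x)) (by fun_prop) x fun y => (cos_lip _ _).trans (hA x y)
  have g2A : ∀ x, |g2 x| ≤ A := fun x =>
    avg_le (h := fun x => sin (φ x)) (by fun_prop) x fun y => (sin_lip _ _).trans (hA x y)
  have b1 := step_cr hl' hla hlw s m hv0 hH g1c g1p g1z g1A
  have b2 := step_cr hl' hla hlw s m hv0 hH g2c g2p g2z g2A
  have hint : ∀ t, (chi a l0 s m t : ℂ) * H t * (E (φ (X a s (m + 1) t)) - Lam φ) =
      (chi a l0 s m t : ℂ) * H t * (g1 (X a s (m + 1) t) : ℂ) +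
      (chi a l0 s m t : ℂ) * H t * (g2 (X a s (m + 1) t) : ℂ) * Complex.I := by
    intro t
    rw [Lam_eq hφc, E_eq, ← hc1, ← hc2]
    simp only [hg1, hg2]
    push_cast
    ring
  simp_rw [hint]
  rw [intervalIntegral.integral_add
    (Continuous.intervalIntegrable (by fun_prop) _ _)
    (Continuous.intervalIntegrable (by fun_prop) _ _), intervalIntegral.integral_mul_const]
  refine (norm_add_le _ _).trans ?_
  rw [norm_mul, Complex.norm_I, mul_one]
  linarith

end Pool.Agent.U581.BM
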