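import Mathlib

/-!
# Polygonal paths and an abstract invariance principle
-/

set_option autoImplicit false

namespace Pool.Agent.U581.BM

open Real MeasureTheory Filter Topology

/-- the function `0` for `u ≤ 0`, `u` for `0 ≤ u ≤ 1`, `1` for `u ≥ 1` -/
noncomputable def cl (u : ℝ) : ℝ := max 0 (min 1 u)

theorem cl_cont : Continuous cl := by
  unfold cl
  fun_prop

theorem cl_one {u : ℝ} (h : 1 ≤ u) : cl u = 1 := by
  unfold cl
  rw [min_eq_left h, max_eq_right zero_le_one]

theorem cl_zero {u : ℝ} (h : u ≤ 0) : cl u = 0 := by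
  unfold cl
  rw [min_eq_right (by linarith), max_eq_left h]

theorem cl_self {u : ℝ} (h0 : 0 ≤ u) (h1 : u ≤ 1) : cl u = u := by
  unfold cl
  rw [min_eq_right h1, max_eq_right h0]

theorem cl_mem (u : ℝ) : 0 ≤ cl u ∧ cl u ≤ 1 :=
  ⟨le_max_left _ _, max_le zero_le_one (min_le_left _ _)⟩

theorem cl_mono {u v : ℝ} (h : u ≤ v) : cl u ≤ cl v :=
  max_le_max le_rfl (min_le_min le_rfl h)

/-- the sum of the increments up to a real time -/
theorem cl_sum (g : ℕ → ℝ) {m n : ℕ} (hm : m < n) {u : ℝ} (h1 : (m : ℝ) ≤ u) (h2 : u ≤ m + 1) :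
    ∑ k ∈ Finset.range n, g k * cl (u - k) = (∑ k ∈ Finset.range m, g k) + g m * (u - m) := by
  induction n, (Nat.succ_le_of_lt hm) using Nat.le_induction with
  | base =>
    rw [Nat.succ_eq_add_one, Finset.sum_range_succ, cl_self (by linarith) (by linarith)]
    congr 1
    apply Finset.sum_congr rfl
    intro k hk
    have hk' : k + 1 ≤ m := Finset.mem_range.1 hk
    have : (k : ℝ) + 1 ≤ m := by exact_mod_cast hk'
    rw [cl_one (by linarith), mul_one]
  | succ n hn ih =>
    have hn' : m + 1 ≤ n := hn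
    have : (m : ℝ) + 1 ≤ n := by exact_mod_cast hn'
    rw [Finset.sum_range_succ, ih (by omega), cl_zero (by linarith), mul_zero, add_zero]

/-- the function `t ↦ cl (n t - k)` on the unit interval -/
noncomputable def hat (n k : ℕ) : C(unitInterval, ℝ) :=
  ⟨fun t => cl (n * t - k), cl_cont.comp (by fun_prop)⟩

/-- the polygonal path with the values `c k` at the times `k / n` -/
noncomputable def polygon (n : ℕ) (c : ℕ → ℝ) : C(unitInterval, ℝ) :=
  ContinuousMap.const _ (c 0) + ∑ k ∈ Finset.range n, (c (k + 1) - c k) • hat n k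

theorem polygon_apply (n : ℕ) (c : ℕ → ℝ) (t : unitInterval) : polygon n c t =
    c 0 + ∑ k ∈ Finset.range n, (c (k + 1) - c k) * cl (n * t - k) := by
  simp [polygon, hat]

theorem polygon_eq {n : ℕ} (c : ℕ → ℝ) (t : unitInterval) {m : ℕ} (hm : m < n)
    (h1 : (m : ℝ) ≤ n * t) (h2 : (n : ℝ) * t ≤ m + 1) :
    polygon n c t = c m + (c (m + 1) - c m) * (n * t - m) := by
  rw [polygon_apply, cl_sum _ hm h1 h2, Finset.sum_range_sub]
  ring

/-- the point `i / N` of the unit interval -/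
noncomputable def pt (N i : ℕ) : unitInterval := Set.projIcc 0 1 zero_le_one ((i : ℝ) / N)

theorem pt_val {N i : ℕ} (hN : 0 < N) (hi : i ≤ N) : ((pt N i : unitInterval) : ℝ) = i / N := by
  have h1 : (0 : ℝ) < N := by exact_mod_cast hN
  have h2 : (i : ℝ) ≤ N := by exact_mod_cast hi
  unfold pt
  rw [Set.projIcc_of_mem zero_le_one ⟨by positivity, by rw [div_le_one h1]; exact h2⟩]

/-- the interpolation of a path -/
noncomputable def interp (N : ℕ) (w : C(unitInterval, ℝ)) : C(unitInterval, ℝ) :=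
  polygon N fun i => w (pt N i)

/-- blocks of times -/
theorem exists_block {N : ℕ} (hN : 0 < N) (t : unitInterval) :
    ∃ m : ℕ, m < N ∧ (m : ℝ) ≤ N * t ∧ (N : ℝ) * t ≤ m + 1 := by
  have h1 : (0 : ℝ) < N := by exact_mod_cast hN
  have ht0 := t.2.1
  have ht1 := t.2.2
  rcases lt_or_ge ⌊(N : ℝ) * t⌋₊ N with h | h
  · exact ⟨_, h, Nat.floor_le (by positivity), (Nat.lt_floor_add_one _).le⟩
  · refine ⟨N - 1, by omega, ?_, ?_⟩
    · have h3 : (N : ℝ) ≤ N * t := by
        have h4 : ((⌊(N : ℝ) * t⌋₊ : ℕ) : ℝ) ≤ N * t := Nat.floor_le (by positivity)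
        have h5 : (N : ℝ) ≤ ⌊(N : ℝ) * t⌋₊ := by exact_mod_cast h
        linarith
      have : ((N - 1 : ℕ) : ℝ) ≤ N := by exact_mod_cast Nat.sub_le N 1
      linarith
    · have : ((N - 1 : ℕ) : ℝ) + 1 = N := by
        have : N - 1 + 1 = N := by omega
        exact_mod_cast this
      rw [this]
      nlinarith

theorem interp_err {N : ℕ} (hN : 0 < N) (w : C(unitInterval, ℝ)) {ε : ℝ} (hε : 0 ≤ ε)
    (h : ∀ i < N, ∀ t : unitInterval, (i : ℝ) ≤ N * t → (N : ℝ) * t ≤ i + 1 →
      |w t - w (pt N i)| ≤ ε) : ‖w - interp N w‖ ≤ 2 * ε := by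
  have h1 : (0 : ℝ) < N := by exact_mod_cast hN
  rw [ContinuousMap.norm_le _ (by positivity)]
  intro t
  obtain ⟨m, hm, hm1, hm2⟩ := exists_block hN t
  rw [ContinuousMap.sub_apply]
  unfold interp
  rw [polygon_eq _ t hm hm1 hm2, Real.norm_eq_abs]
  have e1 : (N : ℝ) * ((pt N (m + 1) : unitInterval) : ℝ) = m + 1 := by
    rw [pt_val hN (by omega)]
    push_cast
    field_simp
  have q1 := h m hm t hm1 hm2
  have q2 := h m hm (pt N (m + 1)) (by rw [e1]; linarith) (by rw [e1])
  have q3 : 0 ≤ (N : ℝ) * t - m := by linarith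
  have q4 : (N : ℝ) * t - m ≤ 1 := by linarith
  have e2 : w t - (w (pt N m) + (w (pt N (m + 1)) - w (pt N m)) * (N * t - m)) =
    (w t - w (pt N m)) - (w (pt N (m + 1)) - w (pt N m)) * (N * t - m) := by ring
  rw [e2]
  refine (abs_sub _ _).trans ?_
  rw [abs_mul, abs_of_nonneg q3]
  have q5 : |w (pt N (m + 1)) - w (pt N m)| * (N * t - m) ≤ ε * 1 :=
    mul_le_mul q2 q4 q3 hε
  linarith

theorem interp_tendsto (w : C(unitInterval, ℝ)) : Tendsto (fun N => interp N w) atTop (𝓝 w) := by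
  rw [Metric.tendsto_atTop]
  intro ε hε
  have huc : UniformContinuous w := CompactSpace.uniformContinuous_of_continuous w.continuous
  rw [Metric.uniformContinuous_iff] at huc
  obtain ⟨δ, hδ, H⟩ := huc (ε / 4) (by positivity)
  obtain ⟨N0, hN0⟩ := exists_nat_gt (1 / δ)
  refine ⟨max N0 1, fun N hN => ?_⟩
  have hN1 : 0 < N := lt_of_lt_of_le one_pos ((le_max_right _ _).trans hN)
  have h1 : (0 : ℝ) < N := by exact_mod_cast hN1
  have hNδ : 1 / (N : ℝ) < δ := by
    have h2 : (N0 : ℝ) ≤ N := by exact_mod_cast (le_max_left _ _).trans hN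
    rw [div_lt_iff₀ h1]
    rw [div_lt_iff₀ hδ] at hN0
    nlinarith
  have h3 := interp_err hN1 w (ε := ε / 4) (by positivity) (fun i hi t h4 h5 => by
    have h6 : dist t (pt N i) < δ := by
      rw [Subtype.dist_eq, pt_val hN1 hi.le, Real.dist_eq, abs_of_nonneg]
      · have : (t : ℝ) - i / N = (N * t - i) / N := by field_simp
        rw [this]
        refine lt_of_le_of_lt ?_ hNδ
        apply div_le_div_of_nonneg_right _ h1.le
        linarith
      · rw [sub_nonneg, div_le_iff₀ h1]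
        linarith
    have h7 := H h6
    rw [Real.dist_eq] at h7
    exact h7.le)
  rw [dist_comm, dist_eq_norm]
  linarith

end Pool.Agent.U581.BM
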