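import Pool.Agent.U581.BM.Sums

/-!
# The central limit theorem for time-dependent observables, jointly with the final position
-/

set_option autoImplicit false

namespace Pool.Agent.U581.BM

open Real MeasureTheory Function Pool.Agent.TH705.SM

/-- the error `n^(-1/2) + (n/|a|)^(1/2) (1 + log |a|)` -/
noncomputable def rate (a : ℝ) (n : ℕ) : ℝ := 1 / √n + √(n / |a|) * (1 + log |a|)

theorem prod_diff {z w : ℕ → ℂ} (hz : ∀ k, ‖z k‖ ≤ 1) (hw : ∀ k, ‖w k‖ ≤ 1) {e : ℝ} (n : ℕ)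
    (h : ∀ k < n, ‖z k - w k‖ ≤ e) :
    ‖∏ k ∈ Finset.range n, z k - ∏ k ∈ Finset.range n, w k‖ ≤ n * e := by
  induction n with
  | zero => simp
  | succ n ih =>
    have ih' := ih fun k hk => h k (by omega)
    have h1 := h n (by omega)
    rw [Finset.prod_range_succ, Finset.prod_range_succ]
    have e1 : (∏ k ∈ Finset.range n, z k) * z n - (∏ k ∈ Finset.range n, w k) * w n =
        (∏ k ∈ Finset.range n, z k - ∏ k ∈ Finset.range n, w k) * z n +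
          (∏ k ∈ Finset.range n, w k) * (z n - w n) := by ring
    have h2 : ‖∏ k ∈ Finset.range n, w k‖ ≤ 1 := by
      rw [norm_prod]
      exact Finset.prod_le_one (fun _ _ => norm_nonneg _) fun _ _ => hw _
    rw [e1]
    refine (norm_add_le _ _).trans ?_
    rw [norm_mul, norm_mul]
    have h3 := mul_le_mul_of_nonneg_left (hz n)
      (norm_nonneg (∏ k ∈ Finset.range n, z k - ∏ k ∈ Finset.range n, w k))
    have h4 := mul_le_mul_of_nonneg_right h2 (norm_nonneg (z n - w n))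
    push_cast
    linarith

/-- the second moments -/
noncomputable def sq (f : ℝ → ℝ) : ℝ := ∫ x in (0:ℝ)..1, f x ^ 2

theorem sq_nonneg' (f : ℝ → ℝ) : 0 ≤ sq f :=
  intervalIntegral.integral_nonneg zero_le_one fun x _ => sq_nonneg _

theorem sq_le {f : ℝ → ℝ} (hf : Continuous f) {M : ℝ} (hM : ∀ x, |f x| ≤ M) : sq f ≤ M ^ 2 := by
  have h1 : ∫ x in (0:ℝ)..1, f x ^ 2 ≤ ∫ x in (0:ℝ)..1, M ^ 2 := by
    apply intervalIntegral.integral_mono_on zero_le_one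
      (Continuous.intervalIntegrable (by fun_prop) _ _) (by simp)
    intro x _
    rw [← sq_abs]
    exact pow_le_pow_left₀ (abs_nonneg _) (hM x) 2
  simpa [sq] using h1

/-- the Gaussian factor -/
noncomputable def gq (κ : ℝ) (f : ℝ → ℝ) : ℝ := exp (-(κ ^ 2 * sq f / 2))

theorem gq_pos (κ : ℝ) (f : ℝ → ℝ) : 0 < gq κ f := exp_pos _

theorem gq_le (κ : ℝ) (f : ℝ → ℝ) : gq κ f ≤ 1 := by
  have := sq_nonneg' f
  exact exp_le_one_iff.2 (by have : 0 ≤ κ ^ 2 * sq f / 2 := by positivity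
                             linarith)

theorem Lam_q {f : ℝ → ℝ} (hf : Continuous f) (f0 : ∫ x in (0:ℝ)..1, f x = 0) {M : ℝ}
    (hM : ∀ x, |f x| ≤ M) (κ : ℝ) :
    ‖Lam (fun x => κ * f x) - ((gq κ f : ℝ) : ℂ)‖ ≤ 4 * (|κ| * M) ^ 3 + (|κ| * M) ^ 4 := by
  have hv := sq_nonneg' f
  have hvM := sq_le hf hM
  have hM0 : 0 ≤ M := (abs_nonneg _).trans (hM 0)
  have hy : 0 ≤ κ ^ 2 * sq f / 2 := by positivity
  have e2 : Lam (fun x => κ * f x) - ((gq κ f : ℝ) : ℂ) =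
      (Lam (fun x => κ * f x) - (1 - ((κ ^ 2 * sq f / 2 : ℝ) : ℂ))) -
      (((exp (-(κ ^ 2 * sq f / 2)) - (1 - κ ^ 2 * sq f / 2) : ℝ)) : ℂ) := by
    unfold gq
    push_cast
    ring
  rw [e2]
  refine (norm_sub_le _ _).trans (add_le_add (Lam_approx hf f0 rfl hM κ) ?_)
  rw [Complex.norm_real, norm_eq_abs]
  refine (exp_approx hy).trans ?_
  have h1 : κ ^ 2 * sq f / 2 ≤ (|κ| * M) ^ 2 := by
    have h2 : κ ^ 2 * sq f ≤ κ ^ 2 * M ^ 2 := mul_le_mul_of_nonneg_left hvM (by positivity)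
    have h3 : (|κ| * M) ^ 2 = κ ^ 2 * M ^ 2 := by rw [mul_pow, sq_abs]
    rw [h3]
    have h4 : 0 ≤ κ ^ 2 * M ^ 2 := by positivity
    linarith
  calc (κ ^ 2 * sq f / 2) ^ 2 ≤ ((|κ| * M) ^ 2) ^ 2 := pow_le_pow_left₀ hy h1 2
    _ = _ := by ring

theorem gq_prod (κ : ℝ) (f : ℕ → ℝ → ℝ) (n : ℕ) :
    ∏ k ∈ Finset.range n, ((gq κ (f k) : ℝ) : ℂ) =
      ((exp (-(κ ^ 2 * (∑ k ∈ Finset.range n, sq (f k)) / 2)) : ℝ) : ℂ) := by
  rw [← Complex.ofReal_prod]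
  unfold gq
  rw [← Real.exp_sum, Finset.sum_neg_distrib, ← Finset.sum_div, Finset.mul_sum]

theorem prod_gauss {f : ℕ → ℝ → ℝ} (hf : ∀ k, Continuous (f k))
    (f0 : ∀ k, ∫ x in (0:ℝ)..1, f k x = 0) {M : ℝ} (hM : ∀ k x, |f k x| ≤ M) (κ : ℝ) (n : ℕ) :
    ‖∏ k ∈ Finset.range n, Lam (fun x => κ * f k x) -
      ((exp (-(κ ^ 2 * (∑ k ∈ Finset.range n, sq (f k)) / 2)) : ℝ) : ℂ)‖ ≤
      n * (4 * (|κ| * M) ^ 3 + (|κ| * M) ^ 4) := by
  rw [← gq_prod]
  refine prod_diff (fun k => Lam_norm _) (fun k => ?_) n fun k _ => Lam_q (hf k) (f0 k) (hM k) κ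
  rw [Complex.norm_real, norm_eq_abs, abs_of_pos (gq_pos _ _)]
  exact gq_le _ _

/-- the choice of the cutoffs -/
theorem param {a : ℝ} (ha : 1 ≤ |a|) {n : ℕ} (hn : 1 ≤ n) (hsm : l0 * √(n / |a|) < 1) :
    ∃ (l : ℝ) (w : ℕ), l0 ≤ l ∧ l ≤ |a| ∧ l ≤ 2 ^ w ∧
      (∀ v, 0 ≤ v → √n * eps a l w v ≤ (4 * l0 + 4 * v + 4) * (√(n / |a|) * (1 + log |a|))) ∧
      n * (l0 / |a|) ≤ √(n / |a|) * (1 + log |a|) := by
  have hl0 := l0_ge
  have hn1 : (1 : ℝ) ≤ n := by exact_mod_cast hn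
  have hn0 : (0 : ℝ) < n := by linarith
  have ha0 : 0 < |a| := by linarith
  obtain ⟨b, hb⟩ : ∃ b : ℝ, b = √|a| := ⟨_, rfl⟩
  have hb1 : 1 ≤ b := by rw [hb]; exact Real.one_le_sqrt.2 ha
  have hb0 : 0 < b := by linarith
  have hb2 : |a| = b ^ 2 := by rw [hb, Real.sq_sqrt ha0.le]
  obtain ⟨q, hq⟩ : ∃ q : ℝ, q = √n := ⟨_, rfl⟩
  have hq1 : 1 ≤ q := by rw [hq]; exact Real.one_le_sqrt.2 hn1
  have hq0 : 0 < q := by linarith
  have hq2 : (n : ℝ) = q ^ 2 := by rw [hq, Real.sq_sqrt hn0.le]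
  have hrb : √((n : ℝ) / |a|) = q / b := by
    rw [Real.sqrt_div' _ ha0.le, ← hq, ← hb]
  obtain ⟨Lg, hLg⟩ : ∃ Lg : ℝ, Lg = 1 + log |a| := ⟨_, rfl⟩
  have hLg1 : 1 ≤ Lg := by
    rw [hLg]
    have := Real.log_nonneg ha
    linarith
  have hLg0 : 0 < Lg := by linarith
  rw [hrb] at hsm ⊢
  rw [← hLg, ← hq]
  have hl0' : 0 < l0 := by linarith
  have hrb0 : 0 < q / b := by positivity
  have hl : l0 ≤ b := by
    rw [← mul_div_assoc, div_lt_one hb0] at hsm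
    have h1 : l0 * 1 ≤ l0 * q := mul_le_mul_of_nonneg_left hq1 hl0'.le
    linarith
  have hla : b ≤ |a| := by
    rw [hb2]
    exact le_self_pow₀ hb1 two_ne_zero
  obtain ⟨w, hw⟩ : ∃ w : ℕ, w = ⌈log |a|⌉₊ + 1 := ⟨_, rfl⟩
  have hlog0 : 0 ≤ log |a| := Real.log_nonneg ha
  have hwl : log |a| ≤ w := by
    rw [hw]
    push_cast
    have := Nat.le_ceil (log |a|)
    linarith
  have hwu : (w : ℝ) ≤ 2 * Lg := by
    rw [hw, hLg]
    push_cast
    have := (Nat.ceil_lt_add_one hlog0).le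
    linarith
  have hlw : b ≤ 2 ^ w := by
    have h1 : log b ≤ w * log 2 := by
      have h2 : log |a| = 2 * log b := by rw [hb2, Real.log_pow]; norm_num
      have h3 := Real.log_two_gt_d9
      have h4 : 0 ≤ (w : ℝ) := Nat.cast_nonneg w
      have h5 : (w : ℝ) * (1 / 2) ≤ w * log 2 := mul_le_mul_of_nonneg_left (by linarith) h4
      linarith
    calc b = exp (log b) := (Real.exp_log hb0).symm
      _ ≤ exp (w * log 2) := Real.exp_le_exp.2 h1
      _ = 2 ^ w := by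
          rw [Real.exp_nat_mul, Real.exp_log (by norm_num)]
  refine ⟨b, w, hl, hla, hlw, fun v hv => ?_, ?_⟩
  · have e1 : q * eps a b w v = (4 * l0 + 4 * v + 2 * w) * (q / b) := by
      unfold eps
      rw [hb2]
      field_simp
    rw [e1]
    have h1 : 4 * l0 + 4 * v + 2 * w ≤ (4 * l0 + 4 * v + 4) * Lg := by
      have h2 : 4 * l0 + 4 * v ≤ (4 * l0 + 4 * v) * Lg :=
        le_mul_of_one_le_right (by positivity) hLg1
      linarith
    calc _ ≤ (4 * l0 + 4 * v + 4) * Lg * (q / b) := mul_le_mul_of_nonneg_right h1 hrb0.le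
      _ = _ := by ring
  · have e1 : (n : ℝ) * (l0 / |a|) = (l0 * (q / b)) * (q / b) := by
      rw [hb2, hq2]
      field_simp
    rw [e1]
    calc (l0 * (q / b)) * (q / b) ≤ 1 * (q / b) := mul_le_mul_of_nonneg_right hsm.le hrb0.le
      _ = q / b * 1 := by ring
      _ ≤ q / b * Lg := mul_le_mul_of_nonneg_left hLg1 hrb0.le

theorem rate_parts {a : ℝ} (ha : 1 ≤ |a|) {n : ℕ} (hn : 1 ≤ n) :
    1 / √n ≤ rate a n ∧ √(n / |a|) * (1 + log |a|) ≤ rate a n ∧ √(n / |a|) ≤ rate a n ∧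
      0 < rate a n := by
  have hn1 : (1 : ℝ) ≤ n := by exact_mod_cast hn
  have h0 : 0 < 1 / √(n : ℝ) := by positivity
  have h1 : 0 ≤ √((n : ℝ) / |a|) := Real.sqrt_nonneg _
  have h2 := Real.log_nonneg ha
  have h3 : √((n : ℝ) / |a|) ≤ √(n / |a|) * (1 + log |a|) :=
    le_mul_of_one_le_right h1 (by linarith)
  unfold rate
  refine ⟨by linarith, by linarith, by linarith, by linarith⟩

/-- observables with bounds and mean `0` -/
structure Obs (f f' : ℕ → ℝ → ℝ) (M : ℝ) : Prop where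
  d : ∀ k x, HasDerivAt (f k) (f' k x) x
  c : ∀ k, Continuous (f' k)
  p : ∀ k, Periodic (f k) 1
  le : ∀ k x, |f k x| ≤ M
  le' : ∀ k x, |f' k x| ≤ M
  mean : ∀ k, ∫ x in (0:ℝ)..1, f k x = 0

theorem Obs.fam {f f' : ℕ → ℝ → ℝ} {M : ℝ} (O : Obs f f' M) : Fam f f' (2 * M) M where
  d := O.d
  c := O.c
  p := O.p
  osc := fun k x y => by
    have := O.le k x
    have := O.le k y
    exact (abs_sub _ _).trans (by linarith)
  v := O.le'

theorem Obs.M0 {f f' : ℕ → ℝ → ℝ} {M : ℝ} (O : Obs f f' M) : 0 ≤ M :=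
  (abs_nonneg _).trans (O.le 0 0)

theorem Obs.cont {f f' : ℕ → ℝ → ℝ} {M : ℝ} (O : Obs f f' M) (k : ℕ) : Continuous (f k) :=
  O.fam.cont k

theorem Obs.neg {f f' : ℕ → ℝ → ℝ} {M : ℝ} (O : Obs f f' M) :
    Obs (fun k x => -f k x) (fun k x => -f' k x) M where
  d := fun k x => (O.d k x).neg
  c := fun k => (O.c k).neg
  p := fun k x => by show -f k (x + 1) = -f k x; rw [O.p k x]
  le := fun k x => by rw [abs_neg]; exact O.le k x
  le' := fun k x => by rw [abs_neg]; exact O.le' k x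
  mean := fun k => by rw [intervalIntegral.integral_neg, O.mean k, neg_zero]

/-- **the central limit theorem for time-dependent observables, with the final position** -/
theorem clt_h {M : ℝ} (hM0 : 0 ≤ M) : ∃ C : ℝ, 0 < C ∧ ∀ f f' : ℕ → ℝ → ℝ, Obs f f' M →
    ∀ h : ℝ → ℝ, Continuous h → Periodic h 1 → (∀ x, |h x| ≤ 1) →
    ∀ a : ℝ, 1 ≤ |a| → ∀ n : ℕ, 1 ≤ n → ∀ s τ : ℝ, 0 ≤ τ →
    ‖(∫ t in (0:ℝ)..1, E (τ / √n * Ss a s f n t) * (h (X a s (n + 1) t) : ℂ)) -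
      ((exp (-(τ ^ 2 * ((∑ k ∈ Finset.range n, sq (f k)) / n) / 2)) : ℝ) : ℂ) *
        ((∫ x in (0:ℝ)..1, h x : ℝ) : ℂ)‖ ≤
      C * (1 + τ) ^ 4 * rate a n := by
  have hl0 := l0_ge
  refine ⟨((8 * M + 4) * (4 * l0 + 4 * M + 4) + 4) + (4 * M ^ 3 + M ^ 4) + 2 * l0,
    by positivity, ?_⟩
  intro f f' O h hc hp h1 a ha n hn s τ hτ0
  have hn1 : (1 : ℝ) ≤ n := by exact_mod_cast hn
  have hn0 : (0 : ℝ) < n := by linarith
  have ha0 : 0 < |a| := by linarith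
  obtain ⟨r1, r2, r3, r4⟩ := rate_parts ha hn
  set T : ℝ := 1 + τ with hT
  have hT1 : 1 ≤ T := by linarith
  have hT0 : 0 < T := by linarith
  have hT4 : 1 ≤ T ^ 4 := one_le_pow₀ hT1
  obtain ⟨q, hq⟩ : ∃ q : ℝ, q = √n := ⟨_, rfl⟩
  have hq1 : 1 ≤ q := by rw [hq]; exact Real.one_le_sqrt.2 hn1
  have hq0 : 0 < q := by linarith
  have hq2 : (n : ℝ) = q ^ 2 := by rw [hq, Real.sq_sqrt hn0.le]
  set κ : ℝ := τ / √n with hκ
  have hκ0 : 0 ≤ κ := by rw [hκ]; positivity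
  have hκa : κ = τ / q := by rw [hκ, hq]
  have hκτ : κ ≤ τ := by rw [hκa]; exact div_le_self hτ0 hq1
  set c : ℝ := ∫ x in (0:ℝ)..1, h x with hcdef
  have hc1 : |c| ≤ 1 := by
    have := intervalIntegral.norm_integral_le_of_norm_le_const (a := 0) (b := 1)
      (f := h) (C := 1) (fun x _ => h1 x)
    simpa using this
  -- the product against the Gaussian
  have hG := prod_gauss O.cont O.mean O.le κ n
  have hG1 : κ ^ 2 * (∑ k ∈ Finset.range n, sq (f k)) / 2 =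
      τ ^ 2 * ((∑ k ∈ Finset.range n, sq (f k)) / n) / 2 := by
    rw [hκa, hq2]
    field_simp
  rw [hG1, abs_of_nonneg hκ0] at hG
  have hG2 : (n : ℝ) * (4 * (κ * M) ^ 3 + (κ * M) ^ 4) ≤ (4 * M ^ 3 + M ^ 4) * T ^ 4 * (1 / q) := by
    have g1 : (n : ℝ) * (4 * (κ * M) ^ 3) = 4 * M ^ 3 * τ ^ 3 * (1 / q) := by
      rw [hq2, hκa]
      field_simp
    have g2 : (n : ℝ) * (κ * M) ^ 4 = M ^ 4 * τ ^ 4 * (1 / q ^ 2) := by
      rw [hq2, hκa]
      field_simp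
    have g3 : τ ^ 3 ≤ T ^ 4 := by
      calc τ ^ 3 ≤ T ^ 3 := pow_le_pow_left₀ hτ0 (by linarith) 3
        _ ≤ T ^ 4 := pow_le_pow_right₀ hT1 (by norm_num)
    have g4 : τ ^ 4 ≤ T ^ 4 := pow_le_pow_left₀ hτ0 (by linarith) 4
    have g5 : 1 / q ^ 2 ≤ 1 / q :=
      one_div_le_one_div_of_le hq0 (le_self_pow₀ hq1 two_ne_zero)
    rw [mul_add, g1, g2]
    have g7 : 4 * M ^ 3 * τ ^ 3 * (1 / q) ≤ 4 * M ^ 3 * T ^ 4 * (1 / q) := by gcongr
    have g8 : M ^ 4 * τ ^ 4 * (1 / q ^ 2) ≤ M ^ 4 * T ^ 4 * (1 / q) := by gcongr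
    calc _ ≤ 4 * M ^ 3 * T ^ 4 * (1 / q) + M ^ 4 * T ^ 4 * (1 / q) := add_le_add g7 g8
      _ = _ := by ring
  have hG3 : (4 * M ^ 3 + M ^ 4) * T ^ 4 * (1 / q) ≤ (4 * M ^ 3 + M ^ 4) * T ^ 4 * rate a n := by
    rw [hq]
    gcongr
  simp_rw [← Ss_smul]
  have hSc := Ss_cont a s (O.fam.smul hκ0) n
  have hXc := Xt_cont a s (n + 1)
  have hEc := E_cont
  set G : ℝ := exp (-(τ ^ 2 * ((∑ k ∈ Finset.range n, sq (f k)) / n) / 2)) with hGdef
  set Z : ℂ := ∫ t in (0:ℝ)..1, E (Ss a s (fun k x => κ * f k x) n t) *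
    (h (X a s (n + 1) t) : ℂ) with hZ
  have hZ1 : ‖Z‖ ≤ 1 := by
    have := intervalIntegral.norm_integral_le_of_norm_le_const (a := 0) (b := 1)
      (f := fun t => E (Ss a s (fun k x => κ * f k x) n t) * (h (X a s (n + 1) t) : ℂ)) (C := 1)
      (fun x _ => by
        rw [norm_mul, E_norm, one_mul, Complex.norm_real, norm_eq_abs]
        exact h1 _)
    simpa using this
  have hR0 : 0 ≤ √((n : ℝ) / |a|) := Real.sqrt_nonneg _
  have hCpos : 0 ≤ (8 * M + 4) * (4 * l0 + 4 * M + 4) + 4 := by positivity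
  have hCpos2 : 0 ≤ 4 * M ^ 3 + M ^ 4 := by positivity
  rcases lt_or_ge (l0 * √((n : ℝ) / |a|)) 1 with hsm | hbig
  · obtain ⟨l, w, hl', hla, hlw, hep, hlo⟩ := param ha hn hsm
    have h2 := product_h hl' hla hlw s (O.fam.smul hκ0) n hc hp h1
    rw [← hZ, ← hcdef] at h2
    have hv : κ * M ≤ T * M := mul_le_mul_of_nonneg_right (by linarith) hM0
    have hep1 := hep (κ * M) (by positivity)
    have hep0 : 0 ≤ eps a l w (κ * M) := by
      unfold eps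
      have : 0 < l := by linarith
      positivity
    set R : ℝ := √((n : ℝ) / |a|) * (1 + log |a|) with hR
    have hRr : 0 ≤ R := by
      have := Real.log_nonneg ha
      positivity
    have hep2 : q * eps a l w (κ * M) ≤ (4 * l0 + 4 * M + 4) * T * R := by
      rw [hq]
      refine hep1.trans (mul_le_mul_of_nonneg_right ?_ hRr)
      have : (4 * l0 + 4) * 1 ≤ (4 * l0 + 4) * T := mul_le_mul_of_nonneg_left hT1 (by positivity)
      linarith
    have hep3 : eps a l w (κ * M) ≤ (4 * l0 + 4 * M + 4) * T * R :=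
      (le_mul_of_one_le_left hep0 hq1).trans hep2
    have k1 : (n : ℝ) * (4 * (κ * (2 * M) * eps a l w (κ * M)) + 4 * (l0 / |a|)) +
        4 * eps a l w (κ * M) =
        8 * M * τ * (q * eps a l w (κ * M)) + 4 * (n * (l0 / |a|)) + 4 * eps a l w (κ * M) := by
      have : (n : ℝ) * κ = τ * q := by rw [hκa, hq2]; field_simp
      calc _ = 8 * M * (n * κ) * eps a l w (κ * M) + 4 * (n * (l0 / |a|)) +
            4 * eps a l w (κ * M) := by ring
        _ = _ := by rw [this]; ring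
    rw [k1] at h2
    have k2 : 8 * M * τ * (q * eps a l w (κ * M)) ≤ 8 * M * T * ((4 * l0 + 4 * M + 4) * T * R) := by
      have : 0 ≤ q * eps a l w (κ * M) := by positivity
      have : τ ≤ T := by linarith
      gcongr
    have k3 : 8 * M * τ * (q * eps a l w (κ * M)) + 4 * (n * (l0 / |a|)) + 4 * eps a l w (κ * M) ≤
        ((8 * M + 4) * (4 * l0 + 4 * M + 4) + 4) * T ^ 4 * R := by
      have t2 : T ^ 2 ≤ T ^ 4 := pow_le_pow_right₀ hT1 (by norm_num)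
      have t1 : T ≤ T ^ 4 := le_self_pow₀ hT1 (by norm_num)
      have s1 : 8 * M * T * ((4 * l0 + 4 * M + 4) * T * R) ≤
          8 * M * (4 * l0 + 4 * M + 4) * T ^ 4 * R := by
        calc _ = 8 * M * (4 * l0 + 4 * M + 4) * T ^ 2 * R := by ring
          _ ≤ _ := by gcongr
      have s2 : 4 * (n * (l0 / |a|)) ≤ 4 * T ^ 4 * R := by
        calc 4 * (n * (l0 / |a|)) ≤ 4 * (1 * R) := by rw [one_mul]; linarith
          _ ≤ 4 * (T ^ 4 * R) := by gcongr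
          _ = _ := by ring
      have s3 : 4 * eps a l w (κ * M) ≤ 4 * (4 * l0 + 4 * M + 4) * T ^ 4 * R := by
        calc 4 * eps a l w (κ * M) ≤ 4 * ((4 * l0 + 4 * M + 4) * T * R) := by linarith
          _ ≤ 4 * ((4 * l0 + 4 * M + 4) * T ^ 4 * R) := by gcongr
          _ = _ := by ring
      calc _ ≤ 8 * M * (4 * l0 + 4 * M + 4) * T ^ 4 * R + 4 * T ^ 4 * R +
            4 * (4 * l0 + 4 * M + 4) * T ^ 4 * R := by linarith
        _ = _ := by ring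
    have e1 : Z - (G : ℂ) * (c : ℂ) =
        (Z - (∏ k ∈ Finset.range n, Lam (fun x => κ * f k x)) * (c : ℂ)) +
        (∏ k ∈ Finset.range n, Lam (fun x => κ * f k x) - (G : ℂ)) * (c : ℂ) := by ring
    rw [e1]
    refine (norm_add_le _ _).trans ?_
    have k4 : ‖(∏ k ∈ Finset.range n, Lam (fun x => κ * f k x) - (G : ℂ)) * (c : ℂ)‖ ≤
        (4 * M ^ 3 + M ^ 4) * T ^ 4 * rate a n := by
      rw [norm_mul, Complex.norm_real, norm_eq_abs]
      exact (mul_le_of_le_one_right (norm_nonneg _) hc1).trans (hG.trans (hG2.trans hG3))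
    have k5 : ((8 * M + 4) * (4 * l0 + 4 * M + 4) + 4) * T ^ 4 * R ≤
        ((8 * M + 4) * (4 * l0 + 4 * M + 4) + 4) * T ^ 4 * rate a n :=
      mul_le_mul_of_nonneg_left r2 (by positivity)
    have k6 : 0 ≤ 2 * l0 * T ^ 4 * rate a n := by positivity
    have e2 : (((8 * M + 4) * (4 * l0 + 4 * M + 4) + 4) + (4 * M ^ 3 + M ^ 4) + 2 * l0) * T ^ 4 *
        rate a n = ((8 * M + 4) * (4 * l0 + 4 * M + 4) + 4) * T ^ 4 * rate a n +
        (4 * M ^ 3 + M ^ 4) * T ^ 4 * rate a n + 2 * l0 * T ^ 4 * rate a n := by ring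
    rw [e2]
    linarith
  · have hG4 : ‖(G : ℂ) * (c : ℂ)‖ ≤ 1 := by
      rw [norm_mul, Complex.norm_real, Complex.norm_real, norm_eq_abs, norm_eq_abs]
      have : |G| ≤ 1 := by
        rw [hGdef, abs_of_pos (exp_pos _)]
        apply exp_le_one_iff.2
        have : 0 ≤ ∑ k ∈ Finset.range n, sq (f k) := Finset.sum_nonneg fun _ _ => sq_nonneg' _
        have : 0 ≤ τ ^ 2 * ((∑ k ∈ Finset.range n, sq (f k)) / n) / 2 := by positivity
        linarith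
      exact mul_le_one₀ this (abs_nonneg _) hc1
    have h2 : ‖Z - (G : ℂ) * (c : ℂ)‖ ≤ 2 := (norm_sub_le _ _).trans (by linarith)
    refine h2.trans ?_
    have k1 : 1 ≤ l0 * rate a n := hbig.trans (mul_le_mul_of_nonneg_left r3 (by linarith))
    have k2 : 1 * 1 ≤ (l0 * rate a n) * T ^ 4 := mul_le_mul k1 hT4 zero_le_one (by positivity)
    have k3 : 0 ≤ ((8 * M + 4) * (4 * l0 + 4 * M + 4) + 4) * T ^ 4 * rate a n := by positivity
    have k4 : 0 ≤ (4 * M ^ 3 + M ^ 4) * T ^ 4 * rate a n := by positivity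
    have e2 : (((8 * M + 4) * (4 * l0 + 4 * M + 4) + 4) + (4 * M ^ 3 + M ^ 4) + 2 * l0) * T ^ 4 *
        rate a n = ((8 * M + 4) * (4 * l0 + 4 * M + 4) + 4) * T ^ 4 * rate a n +
        (4 * M ^ 3 + M ^ 4) * T ^ 4 * rate a n + 2 * ((l0 * rate a n) * T ^ 4) := by ring
    rw [e2]
    linarith

end Pool.Agent.U581.BM
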