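import Pool.Agent.U581.BM.Past

/-!
# Sums of time-dependent observables: the product formula with a final observable
-/

set_option autoImplicit false

namespace Pool.Agent.U581.BM

open Real MeasureTheory Function Pool.Agent.TH705.SM

/-- sums of time-dependent observables -/
noncomputable def Ss (a s : ℝ) (f : ℕ → ℝ → ℝ) : ℕ → ℝ → ℝ
  | 0, _ => 0
  | m + 1, t => Ss a s f m t + f m (X a s (m + 1) t)

/-- its derivative -/
noncomputable def Ss' (a s : ℝ) (f' : ℕ → ℝ → ℝ) : ℕ → ℝ → ℝ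
  | 0, _ => 0
  | m + 1, t => Ss' a s f' m t + f' m (X a s (m + 1) t) * D a s (m + 1) t

/-- families of observables with bounds -/
structure Fam (f f' : ℕ → ℝ → ℝ) (A v : ℝ) : Prop where
  d : ∀ k x, HasDerivAt (f k) (f' k x) x
  c : ∀ k, Continuous (f' k)
  p : ∀ k, Periodic (f k) 1
  osc : ∀ k x y, |f k x - f k y| ≤ A
  v : ∀ k x, |f' k x| ≤ v

section

variable {f f' : ℕ → ℝ → ℝ} {A v : ℝ}

theorem Fam.cont (F : Fam f f' A v) (k : ℕ) : Continuous (f k) :=
  continuous_iff_continuousAt.2 fun t => (F.d k t).continuousAt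

theorem Fam.A0 (F : Fam f f' A v) : 0 ≤ A := (abs_nonneg _).trans (F.osc 0 0 0)

theorem Fam.v0 (F : Fam f f' A v) : 0 ≤ v := (abs_nonneg _).trans (F.v 0 0)

theorem Fam.smul (F : Fam f f' A v) {κ : ℝ} (hκ : 0 ≤ κ) :
    Fam (fun k x => κ * f k x) (fun k x => κ * f' k x) (κ * A) (κ * v) where
  d := fun k x => (F.d k x).const_mul κ
  c := fun k => (F.c k).const_mul κ
  p := fun k x => by show κ * f k (x + 1) = κ * f k x; rw [F.p k x]
  osc := fun k x y => by
    rw [← mul_sub, abs_mul, abs_of_nonneg hκ]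
    exact mul_le_mul_of_nonneg_left (F.osc k x y) hκ
  v := fun k x => by
    rw [abs_mul, abs_of_nonneg hκ]
    exact mul_le_mul_of_nonneg_left (F.v k x) hκ

theorem Ss_hasDeriv (a s : ℝ) (F : Fam f f' A v) (m : ℕ) (t : ℝ) :
    HasDerivAt (Ss a s f m) (Ss' a s f' m t) t := by
  induction m with
  | zero => exact hasDerivAt_const t 0
  | succ m ih => exact ih.add ((F.d m _).comp t (X_hasDeriv a s (m + 1) t))

theorem Ss'_cont (a s : ℝ) (F : Fam f f' A v) (m : ℕ) : Continuous (Ss' a s f' m) := by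
  induction m with
  | zero => exact continuous_const
  | succ m ih => exact ih.add (((F.c m).comp (Xt_cont a s (m + 1))).mul (D_cont a s (m + 1)))

theorem Ss_cont (a s : ℝ) (F : Fam f f' A v) (m : ℕ) : Continuous (Ss a s f m) :=
  continuous_iff_continuousAt.2 fun t => (Ss_hasDeriv a s F m t).continuousAt

theorem Ss_period (a s : ℝ) (F : Fam f f' A v) (m : ℕ) (t : ℝ) :
    Ss a s f m (t + 1) = Ss a s f m t := by
  induction m with
  | zero => rfl
  | succ m ih =>
    show Ss a s f m (t + 1) + f m (X a s (m + 1) (t + 1)) = Ss a s f m t + f m (X a s (m + 1) t)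
    rw [ih, X_period]
    have := (F.p m).nat_mul (m + 1) (X a s (m + 1) t)
    rw [mul_one] at this
    rw [this]

theorem SD_succ (a s : ℝ) (m : ℕ) (t : ℝ) : SD a s (m + 1) t = SD a s m t + |D a s (m + 1) t| := by
  unfold SD
  rw [Finset.sum_range_succ]

theorem Ss'_le (a s : ℝ) (F : Fam f f' A v) (m : ℕ) (t : ℝ) : |Ss' a s f' m t| ≤ v * SD a s m t := by
  induction m with
  | zero => simp [Ss', SD]
  | succ m ih =>
    show |Ss' a s f' m t + f' m (X a s (m + 1) t) * D a s (m + 1) t| ≤ v * SD a s (m + 1) t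
    rw [SD_succ, mul_add]
    refine (abs_add_le _ _).trans (add_le_add ih ?_)
    rw [abs_mul]
    exact mul_le_mul_of_nonneg_right (F.v _ _) (abs_nonneg _)

theorem Ss_sum (a s : ℝ) (f : ℕ → ℝ → ℝ) (n : ℕ) (t : ℝ) :
    Ss a s f n t = ∑ k ∈ Finset.range n, f k (X a s (k + 1) t) := by
  induction n with
  | zero => simp [Ss]
  | succ n ih =>
    show Ss a s f n t + f n (X a s (n + 1) t) = _
    rw [ih, Finset.sum_range_succ]

theorem Ss_smul (a s : ℝ) (f : ℕ → ℝ → ℝ) (κ : ℝ) (n : ℕ) (t : ℝ) :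
    Ss a s (fun k x => κ * f k x) n t = κ * Ss a s f n t := by
  rw [Ss_sum, Ss_sum, Finset.mul_sum]

theorem E_hasDeriv {u : ℝ → ℝ} {u' t : ℝ} (h : HasDerivAt u u' t) :
    HasDerivAt (fun t => E (u t)) (((u' : ℝ) : ℂ) * Complex.I * E (u t)) t := by
  have h1 : HasDerivAt (fun t => ((u t : ℝ) : ℂ) * Complex.I) (((u' : ℝ) : ℂ) * Complex.I) t :=
    h.ofReal_comp.mul_const Complex.I
  refine (h1.cexp).congr_deriv ?_
  unfold E
  ring

/-- the exponentials of the sums are functions of the past -/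
theorem past_E (a s : ℝ) (F : Fam f f' A v) (m : ℕ) :
    PastC a s m v (fun t => E (Ss a s f m t))
      (fun t => ((Ss' a s f' m t : ℝ) : ℂ) * Complex.I * E (Ss a s f m t)) where
  d := fun t => E_hasDeriv (Ss_hasDeriv a s F m t)
  c := by
    have h1 := Ss'_cont a s F m
    have h2 := Ss_cont a s F m
    have h3 := E_cont
    fun_prop
  per := fun t => by rw [Ss_period a s F m t]
  le := fun t => (E_norm _).le
  bd := fun t _ => by
    rw [norm_mul, norm_mul, E_norm, Complex.norm_I, mul_one, mul_one, Complex.norm_real,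
      norm_eq_abs]
    exact Ss'_le a s F m t

end

/-- the loss of the cutoff at one time -/
theorem loss1 {a l : ℝ} (hl' : l0 ≤ l) (hla : l ≤ |a|) (s : ℝ) (m : ℕ) :
    ∫ t in (0:ℝ)..1, (chi a l0 s m t - chi a l0 s (m + 1) t) ≤ 2 * (l0 / |a|) := by
  refine le_trans (le_of_eq ?_) (loss le_rfl (hl'.trans hla) s m)
  apply intervalIntegral.integral_congr
  intro t _
  show chi a l0 s m t - chi a l0 s m t * rk a l0 s (m + 1) t = _
  ring

/-- one step of the recursion -/
theorem rec_G {a l : ℝ} (hl' : l0 ≤ l) (hla : l ≤ |a|) {w : ℕ}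
    (hlw : l ≤ 2 ^ w) (s : ℝ) (m : ℕ) {H H' : ℝ → ℂ} {v : ℝ} (hv0 : 0 ≤ v)
    (hH : PastC a s m v H H') {φ : ℝ → ℝ} (hφc : Continuous φ) (p : Periodic φ 1)
    {A : ℝ} (hA : ∀ x y, |φ x - φ y| ≤ A) :
    ‖(∫ t in (0:ℝ)..1, (chi a l0 s (m + 1) t : ℂ) * (H t * E (φ (X a s (m + 1) t)))) -
      Lam φ * ∫ t in (0:ℝ)..1, (chi a l0 s m t : ℂ) * H t‖ ≤
      4 * (A * eps a l w v) + 2 * (l0 / |a|) := by
  have hHc := hH.cont
  have hcc := chi_cont a l0 s m
  have hcc1 := chi_cont a l0 s (m + 1)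
  have hXc := Xt_cont a s (m + 1)
  have hEc := E_cont
  have e1 : (∫ t in (0:ℝ)..1, (chi a l0 s (m + 1) t : ℂ) * (H t * E (φ (X a s (m + 1) t)))) -
      Lam φ * ∫ t in (0:ℝ)..1, (chi a l0 s m t : ℂ) * H t =
      (∫ t in (0:ℝ)..1, (chi a l0 s m t : ℂ) * H t * (E (φ (X a s (m + 1) t)) - Lam φ)) -
      ∫ t in (0:ℝ)..1, ((chi a l0 s m t - chi a l0 s (m + 1) t : ℝ) : ℂ) *
        (H t * E (φ (X a s (m + 1) t))) := by
    rw [← intervalIntegral.integral_const_mul, ← intervalIntegral.integral_sub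
      (Continuous.intervalIntegrable (by fun_prop) _ _)
      (Continuous.intervalIntegrable (by fun_prop) _ _),
      ← intervalIntegral.integral_sub (Continuous.intervalIntegrable (by fun_prop) _ _)
        (Continuous.intervalIntegrable (by fun_prop) _ _)]
    apply intervalIntegral.integral_congr
    intro t _
    simp only
    push_cast
    ring
  rw [e1]
  refine (norm_sub_le _ _).trans (add_le_add (step_cc hl' hla hlw s m hv0 hH hφc p hA) ?_)
  refine le_trans ?_ (loss1 hl' hla s m)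
  have h3 := intervalIntegral.norm_integral_le_abs_of_norm_le (a := 0) (b := 1) (μ := volume)
    (f := fun t => ((chi a l0 s m t - chi a l0 s (m + 1) t : ℝ) : ℂ) *
        (H t * E (φ (X a s (m + 1) t))))
    (g := fun t => chi a l0 s m t - chi a l0 s (m + 1) t)
    (Filter.Eventually.of_forall fun t => by
      have hr0 : 0 ≤ chi a l0 s m t - chi a l0 s (m + 1) t := sub_nonneg.2 (chi_succ_le _ _ _ _ _)
      rw [norm_mul, norm_mul, E_norm, mul_one, Complex.norm_real, norm_eq_abs, abs_of_nonneg hr0]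
      exact mul_le_of_le_one_right hr0 (hH.le t))
    (Continuous.intervalIntegrable (by fun_prop) _ _)
  refine h3.trans (le_of_eq (abs_of_nonneg ?_))
  exact intervalIntegral.integral_nonneg zero_le_one fun t _ => sub_nonneg.2 (chi_succ_le _ _ _ _ _)

theorem chi_lossG {a l : ℝ} (hl' : l0 ≤ l) (hla : l ≤ |a|) (s : ℝ) (n : ℕ) :
    ∫ t in (0:ℝ)..1, (1 - chi a l0 s n t) ≤ n * (2 * (l0 / |a|)) := chi_loss2 hl' hla s n

/-- the product formula with cutoffs -/
theorem Zc_prod {a l : ℝ} (hl' : l0 ≤ l) (hla : l ≤ |a|) {w : ℕ} (hlw : l ≤ 2 ^ w) (s : ℝ)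
    {f f' : ℕ → ℝ → ℝ} {A v : ℝ} (F : Fam f f' A v) (n : ℕ) :
    ‖(∫ t in (0:ℝ)..1, (chi a l0 s n t : ℂ) * E (Ss a s f n t)) -
      ∏ k ∈ Finset.range n, Lam (f k)‖ ≤ n * (4 * (A * eps a l w v) + 2 * (l0 / |a|)) := by
  induction n with
  | zero => simp [chi, Ss, E]
  | succ n ih =>
    have h1 := rec_G hl' hla hlw s n F.v0 (past_E a s F n) (F.cont n) (F.p n) (F.osc n)
    have e0 : ∀ t, E (Ss a s f (n + 1) t) = E (Ss a s f n t) * E (f n (X a s (n + 1) t)) :=
      fun t => E_add _ _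
    simp_rw [e0]
    rw [Finset.prod_range_succ]
    have e1 : (∫ t in (0:ℝ)..1, (chi a l0 s (n + 1) t : ℂ) *
        (E (Ss a s f n t) * E (f n (X a s (n + 1) t)))) -
        (∏ k ∈ Finset.range n, Lam (f k)) * Lam (f n) =
        ((∫ t in (0:ℝ)..1, (chi a l0 s (n + 1) t : ℂ) *
        (E (Ss a s f n t) * E (f n (X a s (n + 1) t)))) -
          Lam (f n) * ∫ t in (0:ℝ)..1, (chi a l0 s n t : ℂ) * E (Ss a s f n t)) +
        Lam (f n) * ((∫ t in (0:ℝ)..1, (chi a l0 s n t : ℂ) * E (Ss a s f n t)) -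
          ∏ k ∈ Finset.range n, Lam (f k)) := by ring
    rw [e1]
    refine (norm_add_le _ _).trans ?_
    rw [norm_mul]
    have h2 := mul_le_mul_of_nonneg_right (Lam_norm (f n))
      (norm_nonneg ((∫ t in (0:ℝ)..1, (chi a l0 s n t : ℂ) * E (Ss a s f n t)) -
          ∏ k ∈ Finset.range n, Lam (f k)))
    push_cast
    linarith

theorem prod_norm (f : ℕ → ℝ → ℝ) (s : Finset ℕ) : ‖∏ k ∈ s, Lam (f k)‖ ≤ 1 := by
  rw [norm_prod]
  exact Finset.prod_le_one (fun _ _ => norm_nonneg _) fun _ _ => Lam_norm _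

/-- **product formula with a final observable** -/
theorem product_h {a l : ℝ} (hl' : l0 ≤ l) (hla : l ≤ |a|) {w : ℕ} (hlw : l ≤ 2 ^ w) (s : ℝ)
    {f f' : ℕ → ℝ → ℝ} {A v : ℝ} (F : Fam f f' A v) (n : ℕ) {h : ℝ → ℝ} (hc : Continuous h)
    (hp : Periodic h 1) (h1 : ∀ x, |h x| ≤ 1) :
    ‖(∫ t in (0:ℝ)..1, E (Ss a s f n t) * (h (X a s (n + 1) t) : ℂ)) -
      (∏ k ∈ Finset.range n, Lam (f k)) * ((∫ x in (0:ℝ)..1, h x : ℝ) : ℂ)‖ ≤
      n * (4 * (A * eps a l w v) + 4 * (l0 / |a|)) + 4 * eps a l w v := by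
  have hSc := Ss_cont a s F n
  have hcc := chi_cont a l0 s n
  have hXc := Xt_cont a s (n + 1)
  have hEc := E_cont
  set c : ℝ := ∫ x in (0:ℝ)..1, h x with hcdef
  have hc1 : |c| ≤ 1 := by
    have := intervalIntegral.norm_integral_le_of_norm_le_const (a := 0) (b := 1)
      (f := h) (C := 1) (fun x _ => h1 x)
    simpa using this
  have q1 := Zc_prod hl' hla hlw s F n
  have q2 := step_cr hl' hla hlw s n F.v0 (past_E a s F n) (g := fun x => h x - c)
    (by fun_prop) (fun x => by show h (x + 1) - c = h x - c; rw [hp x]) (by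
      rw [intervalIntegral.integral_sub (hc.intervalIntegrable _ _) (by simp),
        intervalIntegral.integral_const, ← hcdef]
      simp) (A := 2) (fun x => by
      refine (abs_sub _ _).trans ?_
      have := h1 x
      linarith)
  have q3 := chi_lossG hl' hla s n
  have e1 : (∫ t in (0:ℝ)..1, E (Ss a s f n t) * (h (X a s (n + 1) t) : ℂ)) -
      (∏ k ∈ Finset.range n, Lam (f k)) * (c : ℂ) =
      (∫ t in (0:ℝ)..1, ((1 - chi a l0 s n t : ℝ) : ℂ) *
        (E (Ss a s f n t) * (h (X a s (n + 1) t) : ℂ))) +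
      (∫ t in (0:ℝ)..1, (chi a l0 s n t : ℂ) * E (Ss a s f n t) *
        ((h (X a s (n + 1) t) - c : ℝ) : ℂ)) +
      (c : ℂ) * ((∫ t in (0:ℝ)..1, (chi a l0 s n t : ℂ) * E (Ss a s f n t)) -
      ∏ k ∈ Finset.range n, Lam (f k)) := by
    rw [mul_sub, ← intervalIntegral.integral_const_mul, ← add_sub_assoc,
      ← intervalIntegral.integral_add
      (Continuous.intervalIntegrable (by fun_prop) _ _)
      (Continuous.intervalIntegrable (by fun_prop) _ _),
      ← intervalIntegral.integral_add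
      (Continuous.intervalIntegrable (by fun_prop) _ _)
      (Continuous.intervalIntegrable (by fun_prop) _ _)]
    congr 1
    · apply intervalIntegral.integral_congr
      intro t _
      simp only
      push_cast
      ring
    · ring
  rw [e1]
  refine (norm_add_le _ _).trans ?_
  have q4 := norm_add_le (∫ t in (0:ℝ)..1, ((1 - chi a l0 s n t : ℝ) : ℂ) *
        (E (Ss a s f n t) * (h (X a s (n + 1) t) : ℂ)))
    (∫ t in (0:ℝ)..1, (chi a l0 s n t : ℂ) * E (Ss a s f n t) *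
        ((h (X a s (n + 1) t) - c : ℝ) : ℂ))
  have q5 : ‖∫ t in (0:ℝ)..1, ((1 - chi a l0 s n t : ℝ) : ℂ) *
        (E (Ss a s f n t) * (h (X a s (n + 1) t) : ℂ))‖ ≤ ∫ t in (0:ℝ)..1, (1 - chi a l0 s n t) := by
    have h3 := intervalIntegral.norm_integral_le_abs_of_norm_le (a := 0) (b := 1) (μ := volume)
      (f := fun t => ((1 - chi a l0 s n t : ℝ) : ℂ) *
        (E (Ss a s f n t) * (h (X a s (n + 1) t) : ℂ)))
      (g := fun t => 1 - chi a l0 s n t)
      (Filter.Eventually.of_forall fun t => by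
        have hr0 : 0 ≤ 1 - chi a l0 s n t := sub_nonneg.2 (chi_mem a l0 s n t).2
        rw [norm_mul, norm_mul, E_norm, one_mul, Complex.norm_real, norm_eq_abs,
          abs_of_nonneg hr0, Complex.norm_real, norm_eq_abs]
        exact mul_le_of_le_one_right hr0 (h1 _))
      (Continuous.intervalIntegrable (by fun_prop) _ _)
    rwa [abs_of_nonneg (intervalIntegral.integral_nonneg zero_le_one fun t _ =>
      sub_nonneg.2 (chi_mem a l0 s n t).2)] at h3
  have q6 : ‖(c : ℂ) * ((∫ t in (0:ℝ)..1, (chi a l0 s n t : ℂ) * E (Ss a s f n t)) -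
      ∏ k ∈ Finset.range n, Lam (f k))‖ ≤ n * (4 * (A * eps a l w v) + 2 * (l0 / |a|)) := by
    rw [norm_mul, Complex.norm_real, norm_eq_abs]
    refine le_trans ?_ q1
    exact mul_le_of_le_one_left (norm_nonneg _) hc1
  have e2 : (n : ℝ) * (4 * (A * eps a l w v) + 4 * (l0 / |a|)) + 4 * eps a l w v =
    n * (2 * (l0 / |a|)) + 2 * (2 * eps a l w v) +
      n * (4 * (A * eps a l w v) + 2 * (l0 / |a|)) := by ring
  rw [e2]
  linarith

end Pool.Agent.U581.BM
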